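import Pool.Agent.L0h56.KA.Hop

/-!
Power series with bounded coefficients on circles.
-/

set_option autoImplicit false
set_option linter.unusedSectionVars false
set_option linter.unusedVariables false

open scoped BigOperators Topology ENNReal
open Complex MeasureTheory Filter Pool.Agent.L0h56.CS

namespace Pool.Agent.L0h56.KA

/-- the real part of `2 ∑ zⁿ cₙ - c₀` -/
noncomputable def Wc (c : ℕ → ℂ) (z : ℂ) : ℝ := 2 * (∑' n, z ^ n * c n).re - (c 0).re

/-- the point `(1 - η) e^{-iE}` -/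
noncomputable def zz (η E : ℝ) : ℂ := ((1 - η : ℝ) : ℂ) * Complex.exp (-(E * I))

theorem norm_zz {η : ℝ} (h1 : η ≤ 1) (E : ℝ) : ‖zz η E‖ = 1 - η := by
  unfold zz
  rw [norm_mul, Complex.norm_real, Real.norm_of_nonneg (by linarith)]
  have : -(E * I) = ((-E : ℝ) : ℂ) * I := by push_cast; ring
  rw [this, Complex.norm_exp_ofReal_mul_I, mul_one]

theorem summ {c : ℕ → ℂ} {G : ℝ} (hc : ∀ n, ‖c n‖ ≤ G) {z : ℂ} (hz : ‖z‖ < 1) :
    Summable fun n => z ^ n * c n := by
  refine Summable.of_norm_bounded (g := fun n => ‖z‖ ^ n * G)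
    ((summable_geometric_of_lt_one (norm_nonneg _) hz).mul_right _) fun n => ?_
  rw [norm_mul, norm_pow]
  exact mul_le_mul_of_nonneg_left (hc n) (by positivity)

theorem Wc_tendsto {c : ℕ → ℕ → ℂ} {c0 : ℕ → ℂ} {G : ℝ} (hc : ∀ n N, ‖c n N‖ ≤ G)
    (h : ∀ n, Tendsto (fun N => c n N) atTop (𝓝 (c0 n))) {z : ℂ} (hz : ‖z‖ < 1) :
    Tendsto (fun N => Wc (fun n => c n N) z) atTop (𝓝 (Wc c0 z)) := by
  unfold Wc
  have h1 : Tendsto (fun N => ∑' n, z ^ n * c n N) atTop (𝓝 (∑' n, z ^ n * c0 n)) := by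
    refine tendsto_tsum_of_dominated_convergence (bound := fun n => ‖z‖ ^ n * G)
      ((summable_geometric_of_lt_one (norm_nonneg _) hz).mul_right _) (fun n => (h n).const_mul _)
      (Eventually.of_forall fun N n => ?_)
    rw [norm_mul, norm_pow]
    exact mul_le_mul_of_nonneg_left (hc n N) (by positivity)
  exact (((Complex.continuous_re.tendsto _).comp h1).const_mul 2).sub
    ((Complex.continuous_re.tendsto _).comp (h 0))

theorem exp_int (k : ℤ) : ∫ θ in Set.Icc (-Real.pi) Real.pi, Complex.exp ((k : ℂ) * θ * I) =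
    if k = 0 then 2 * (Real.pi : ℂ) else 0 := by
  rw [integral_Icc_eq_integral_Ioc, ← intervalIntegral.integral_of_le (by linarith [Real.pi_pos])]
  split_ifs with h
  · subst h
    simp
    ring
  · have hk : (k : ℂ) * I ≠ 0 := mul_ne_zero (by exact_mod_cast h) I_ne_zero
    have e1 : ∀ θ : ℝ, Complex.exp ((k : ℂ) * θ * I) = Complex.exp ((k : ℂ) * I * θ) := by
      intro θ; congr 1; ring
    simp only [e1]
    rw [integral_exp_mul_complex hk]
    have e2 : (k : ℂ) * I * (Real.pi : ℝ) = (k : ℂ) * I * ((-Real.pi : ℝ) : ℂ) + (k : ℤ) * (2 * Real.pi * I) := by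
      push_cast; ring
    rw [e2, Complex.exp_add, Complex.exp_int_mul_two_pi_mul_I, mul_one, sub_self, zero_div]

theorem norm_exp_kI (k : ℤ) (θ : ℝ) : ‖Complex.exp ((k : ℂ) * θ * I)‖ = 1 := by
  have : (k : ℂ) * θ * I = ((k * θ : ℝ) : ℂ) * I := by push_cast; ring
  rw [this, Complex.norm_exp_ofReal_mul_I]

theorem ser_int {a : ℕ → ℂ} (ha : Summable fun n => ‖a n‖) (k : ℕ → ℤ) :
    ∫ θ in Set.Icc (-Real.pi) Real.pi, ∑' n, a n * Complex.exp ((k n : ℂ) * θ * I) =
      ∑' n, a n * (if k n = 0 then 2 * (Real.pi : ℂ) else 0) := by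
  have hint : ∀ n, Integrable (fun θ : ℝ => a n * Complex.exp ((k n : ℂ) * θ * I))
      (volume.restrict (Set.Icc (-Real.pi) Real.pi)) := by
    intro n
    refine (Continuous.integrableOn_Icc ?_)
    fun_prop
  have hn : ∀ n, ∫ θ in Set.Icc (-Real.pi) Real.pi, ‖a n * Complex.exp ((k n : ℂ) * θ * I)‖ =
      ‖a n‖ * (2 * Real.pi) := by
    intro n
    have : ∀ θ : ℝ, ‖a n * Complex.exp ((k n : ℂ) * θ * I)‖ = ‖a n‖ := by
      intro θ
      rw [norm_mul, norm_exp_kI, mul_one]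
    simp only [this]
    rw [setIntegral_const, Real.volume_real_Icc_of_le (by linarith [Real.pi_pos]), smul_eq_mul]
    ring
  have h := hasSum_integral_of_summable_integral_norm hint (by
    simp only [hn]
    exact ha.mul_right _)
  rw [← h.tsum_eq]
  refine tsum_congr fun n => ?_
  rw [integral_const_mul, exp_int]

theorem zz_pow (η E : ℝ) (n : ℕ) : zz η E ^ n = ((1 - η : ℝ) : ℂ) ^ n * Complex.exp (((-n : ℤ) : ℂ) * E * I) := by
  unfold zz
  rw [mul_pow, ← Complex.exp_nat_mul]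
  congr 2
  push_cast
  ring

/-- the series of `Wc` -/
theorem Wc_series {c : ℕ → ℂ} {G : ℝ} (hc : ∀ n, ‖c n‖ ≤ G) (h0 : (c 0).im = 0) {η : ℝ} (h1 : 0 < η)
    (h2 : η ≤ 1) (E : ℝ) : (Wc c (zz η E) : ℂ) =
      ∑' n, (((1 - η : ℝ) : ℂ) ^ n * c n) * Complex.exp (((-n : ℤ) : ℂ) * E * I) +
      ∑' n, (((1 - η : ℝ) : ℂ) ^ n * (starRingEnd ℂ) (c n)) * Complex.exp (((n : ℤ) : ℂ) * E * I) -
      c 0 := by
  have hz : ‖zz η E‖ < 1 := by rw [norm_zz h2]; linarith
  set A := ∑' n, zz η E ^ n * c n with hA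
  have e1 : A = ∑' n, (((1 - η : ℝ) : ℂ) ^ n * c n) * Complex.exp (((-n : ℤ) : ℂ) * E * I) := by
    rw [hA]
    refine tsum_congr fun n => ?_
    rw [zz_pow]
    ring
  have e2 : (starRingEnd ℂ) A =
      ∑' n, (((1 - η : ℝ) : ℂ) ^ n * (starRingEnd ℂ) (c n)) * Complex.exp (((n : ℤ) : ℂ) * E * I) := by
    rw [e1, Complex.conj_tsum]
    refine tsum_congr fun n => ?_
    rw [map_mul, map_mul, map_pow, Complex.conj_ofReal, ← Complex.exp_conj]
    congr 2
    simp
  rw [← e1, ← e2]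
  unfold Wc
  rw [← hA]
  have e3 : ((2 * A.re - (c 0).re : ℝ) : ℂ) = A + (starRingEnd ℂ) A - ((c 0).re : ℂ) := by
    rw [Complex.add_conj]
    push_cast
    ring
  rw [e3]
  congr 1
  exact Complex.ext rfl (by simp [h0])

theorem Wc_mom {c : ℕ → ℂ} {G : ℝ} (hc : ∀ n, ‖c n‖ ≤ G) (h0 : (c 0).im = 0) {η : ℝ} (h1 : 0 < η)
    (h2 : η ≤ 1) (m : ℕ) :
    ∫ E in Set.Icc (-Real.pi) Real.pi, Complex.exp ((m : ℂ) * E * I) * (Wc c (zz η E) : ℂ) =
      2 * Real.pi * (((1 - η : ℝ) : ℂ) ^ m * c m) := by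
  have hr0 : 0 ≤ 1 - η := by linarith
  have hr1 : 1 - η < 1 := by linarith
  have hG : 0 ≤ G := (norm_nonneg _).trans (hc 0)
  have hs : ∀ c' : ℕ → ℂ, (∀ n, ‖c' n‖ ≤ G) → Summable fun n => ‖((1 - η : ℝ) : ℂ) ^ n * c' n‖ := by
    intro c' hc'
    refine Summable.of_nonneg_of_le (fun _ => norm_nonneg _) (fun n => ?_)
      ((summable_geometric_of_lt_one hr0 hr1).mul_right G)
    rw [norm_mul, norm_pow, Complex.norm_real, Real.norm_of_nonneg hr0]
    exact mul_le_mul_of_nonneg_left (hc' n) (by positivity)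
  have hs1 := hs c hc
  have hs2 := hs (fun n => (starRingEnd ℂ) (c n)) (fun n => by rw [Complex.norm_conj]; exact hc n)
  have e : ∀ E : ℝ, Complex.exp ((m : ℂ) * E * I) * (Wc c (zz η E) : ℂ) =
      ∑' n, (((1 - η : ℝ) : ℂ) ^ n * c n) * Complex.exp ((((m : ℤ) - n : ℤ) : ℂ) * E * I) +
      ∑' n, (((1 - η : ℝ) : ℂ) ^ n * (starRingEnd ℂ) (c n)) *
        Complex.exp ((((m : ℤ) + n : ℤ) : ℂ) * E * I) - c 0 * Complex.exp (((m : ℤ) : ℂ) * E * I) := by
    intro E
    rw [Wc_series hc h0 h1 h2 E, mul_sub, mul_add, ← tsum_mul_left, ← tsum_mul_left]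
    congr 1
    · congr 1
      · refine tsum_congr fun n => ?_
        have : Complex.exp ((((m : ℤ) - n : ℤ) : ℂ) * E * I) =
            Complex.exp ((m : ℂ) * E * I) * Complex.exp (((-n : ℤ) : ℂ) * E * I) := by
          rw [← Complex.exp_add]; congr 1; push_cast; ring
        rw [this]
        ring
      · refine tsum_congr fun n => ?_
        have : Complex.exp ((((m : ℤ) + n : ℤ) : ℂ) * E * I) =
            Complex.exp ((m : ℂ) * E * I) * Complex.exp (((n : ℤ) : ℂ) * E * I) := by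
          rw [← Complex.exp_add]; congr 1; push_cast; ring
        rw [this]
        ring
    · rw [mul_comm]
      simp
  simp only [e]
  have hcont : ∀ (a : ℕ → ℂ) (k : ℕ → ℤ), (Summable fun n => ‖a n‖) →
      Continuous fun θ : ℝ => ∑' n, a n * Complex.exp ((k n : ℂ) * θ * I) := by
    intro a k ha
    refine continuous_tsum (fun n => by fun_prop) ha fun n θ => ?_
    rw [norm_mul, norm_exp_kI, mul_one]
  have i1 : Integrable (fun E : ℝ => ∑' n, (((1 - η : ℝ) : ℂ) ^ n * c n) *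
      Complex.exp ((((m : ℤ) - n : ℤ) : ℂ) * E * I)) (volume.restrict (Set.Icc (-Real.pi) Real.pi)) :=
    (hcont _ (fun n => (m : ℤ) - n) hs1).integrableOn_Icc
  have i2 : Integrable (fun E : ℝ => ∑' n, (((1 - η : ℝ) : ℂ) ^ n * (starRingEnd ℂ) (c n)) *
        Complex.exp ((((m : ℤ) + n : ℤ) : ℂ) * E * I)) (volume.restrict (Set.Icc (-Real.pi) Real.pi)) :=
    (hcont _ (fun n => (m : ℤ) + n) hs2).integrableOn_Icc
  have i3 : Integrable (fun E : ℝ => c 0 * Complex.exp (((m : ℤ) : ℂ) * E * I))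
      (volume.restrict (Set.Icc (-Real.pi) Real.pi)) := by
    refine Continuous.integrableOn_Icc ?_
    fun_prop
  have i12 : Integrable (fun E : ℝ => ∑' n, (((1 - η : ℝ) : ℂ) ^ n * c n) *
      Complex.exp ((((m : ℤ) - n : ℤ) : ℂ) * E * I) +
      ∑' n, (((1 - η : ℝ) : ℂ) ^ n * (starRingEnd ℂ) (c n)) *
        Complex.exp ((((m : ℤ) + n : ℤ) : ℂ) * E * I)) (volume.restrict (Set.Icc (-Real.pi) Real.pi)) :=
    i1.add i2
  rw [integral_sub i12 i3, integral_add i1 i2, ser_int hs1 (fun n => (m : ℤ) - n),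
    ser_int hs2 (fun n => (m : ℤ) + n), integral_const_mul, exp_int]
  have f1 : ∑' n, ((1 - η : ℝ) : ℂ) ^ n * c n * (if (m : ℤ) - n = 0 then 2 * (Real.pi : ℂ) else 0) =
      ((1 - η : ℝ) : ℂ) ^ m * c m * (2 * Real.pi) := by
    rw [tsum_eq_single m]
    · simp
    · intro n hn
      rw [if_neg, mul_zero]
      intro h
      apply hn
      omega
  have f2 : ∑' n, ((1 - η : ℝ) : ℂ) ^ n * (starRingEnd ℂ) (c n) *
      (if (m : ℤ) + n = 0 then 2 * (Real.pi : ℂ) else 0) =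
      if m = 0 then (starRingEnd ℂ) (c 0) * (2 * Real.pi) else 0 := by
    rw [tsum_eq_single 0]
    · by_cases hm : m = 0
      · subst hm; simp
      · simp [hm]
    · intro n hn
      rw [if_neg, mul_zero]
      intro h
      apply hn
      omega
  rw [f1, f2]
  have hc0 : (starRingEnd ℂ) (c 0) = c 0 := by
    apply Complex.ext
    · simp
    · simp [h0]
  by_cases hm : m = 0
  · subst hm
    simp [hc0]
    ring
  · have : (m : ℤ) ≠ 0 := by exact_mod_cast hm
    rw [if_neg hm, if_neg this]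
    ring

end Pool.Agent.L0h56.KA
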