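import Pool.Agent.L0h56.KA.Pr

/-!
Products of symmetric unitary operators of finite range, background potentials, bond propagators.
-/

set_option autoImplicit false
set_option linter.unusedSectionVars false
set_option linter.unusedVariables false

open scoped BigOperators Topology ENNReal
open Complex MeasureTheory Filter Pool.Agent.L0h56.CS

namespace Pool.Agent.L0h56.KA

variable {d : ℕ}

/-- finite range -/
def Rg (L : ℕ) (S : ((Fin d → ℤ) → ℂ) →ₗ[ℂ] ((Fin d → ℤ) → ℂ)) : Prop :=
  ∀ (u : (Fin d → ℤ) → ℂ) (x : Fin d → ℤ),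
    (∀ y : Fin d → ℤ, (∀ i, |y i - x i| ≤ L) → u y = 0) → S u x = 0

theorem rg_apply {L : ℕ} {S : ((Fin d → ℤ) → ℂ) →ₗ[ℂ] ((Fin d → ℤ) → ℂ)} (hS : Rg L S)
    (u : (Fin d → ℤ) → ℂ) (x : Fin d → ℤ) {A : Finset (Fin d → ℤ)} (hA : nb L x ⊆ A) :
    S u x = ∑ y ∈ A, kr S x y * u y := by
  set u' : (Fin d → ℤ) → ℂ := ∑ y ∈ A, u y • Pi.single y (1 : ℂ) with hu'
  have h1 : ∀ y ∈ A, u' y = u y := by
    intro y hy
    rw [hu', Finset.sum_apply, Finset.sum_eq_single y]
    · simp
    · intro b _ hb
      simp [Ne.symm hb]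
    · intro h; exact absurd hy h
  have h2 : S (u - u') x = 0 := hS _ _ fun y hy => by
    rw [Pi.sub_apply, h1 y (hA (mem_nb.2 hy)), sub_self]
  have h3 : S u x = S u' x := by
    rw [map_sub, Pi.sub_apply] at h2
    linear_combination h2
  rw [h3, hu', map_sum, Finset.sum_apply]
  refine Finset.sum_congr rfl fun y _ => ?_
  rw [map_smul, Pi.smul_apply, smul_eq_mul]
  unfold kr
  ring

theorem rg_kr {L : ℕ} {S : ((Fin d → ℤ) → ℂ) →ₗ[ℂ] ((Fin d → ℤ) → ℂ)} (hS : Rg L S)
    {x y : Fin d → ℤ} (h : kr S x y ≠ 0) : y ∈ nb L x := by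
  by_contra hcon
  apply h
  refine hS _ _ fun w hw => ?_
  have : w ≠ y := by
    rintro rfl
    exact hcon (mem_nb.2 hw)
  simp [this]

/-- unitary of finite range, with transpose `S'` -/
structure HU (L : ℕ) (S S' : ((Fin d → ℤ) → ℂ) →ₗ[ℂ] ((Fin d → ℤ) → ℂ)) : Prop where
  range : Rg L S
  range' : Rg L S'
  tr : ∀ x y, kr S x y = kr S' y x
  unit : ∀ x y : Fin d → ℤ, ∑' z, (starRingEnd ℂ) (kr S z x) * kr S z y = if x = y then 1 else 0

theorem HU.hop {L : ℕ} {S : ((Fin d → ℤ) → ℂ) →ₗ[ℂ] ((Fin d → ℤ) → ℂ)} (h : HU L S S) : Hop L S where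
  range := h.range
  symm x y := h.tr x y
  unit := h.unit

theorem rg_mono {L M : ℕ} (hLM : L ≤ M) {S : ((Fin d → ℤ) → ℂ) →ₗ[ℂ] ((Fin d → ℤ) → ℂ)} (hS : Rg L S) :
    Rg M S := by
  intro u x h
  refine hS u x fun y hy => h y fun i => (hy i).trans ?_
  exact_mod_cast hLM

theorem rg_comp {L M : ℕ} {A B : ((Fin d → ℤ) → ℂ) →ₗ[ℂ] ((Fin d → ℤ) → ℂ)} (hA : Rg L A) (hB : Rg M B) :
    Rg (L + M) (A * B) := by
  intro u x h
  refine hA _ x fun y hy => hB _ y fun w hw => h w fun i => ?_
  have h1 := abs_le.1 (hy i)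
  have h2 := abs_le.1 (hw i)
  rw [abs_le]
  push_cast
  constructor <;> linarith [h1.1, h1.2, h2.1, h2.2]

theorem kr_comp {L M : ℕ} {A B : ((Fin d → ℤ) → ℂ) →ₗ[ℂ] ((Fin d → ℤ) → ℂ)} (hA : Rg L A)
    (x y : Fin d → ℤ) {T : Finset (Fin d → ℤ)} (hT : nb L x ⊆ T) :
    kr (A * B) x y = ∑ w ∈ T, kr A x w * kr B w y :=
  rg_apply hA (B (Pi.single y 1)) x hT

theorem unit_fin' {L : ℕ} {S S' : ((Fin d → ℤ) → ℂ) →ₗ[ℂ] ((Fin d → ℤ) → ℂ)} (hS : HU L S S')
    (x y : Fin d → ℤ) {A : Finset (Fin d → ℤ)} (hA : nb L x ⊆ A) :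
    ∑ z ∈ A, (starRingEnd ℂ) (kr S z x) * kr S z y = if x = y then 1 else 0 := by
  rw [← hS.unit x y]
  symm
  refine tsum_eq_sum fun z hz => ?_
  have : kr S z x = 0 := by
    by_contra hne
    exact hz (hA (nb_symm.1 (rg_kr hS.range hne)))
  rw [this]
  simp

theorem HU.comp {L M : ℕ} {A A' B B' : ((Fin d → ℤ) → ℂ) →ₗ[ℂ] ((Fin d → ℤ) → ℂ)} (hA : HU L A A')
    (hB : HU M B B') : HU (L + M) (A * B) (B' * A') where
  range := rg_comp hA.range hB.range
  range' := by
    rw [add_comm]
    exact rg_comp hB.range' hA.range'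
  tr x y := by
    classical
    rw [kr_comp (M := M) hA.range x y (T := nb L x ∪ nb M y) Finset.subset_union_left,
      kr_comp (M := L) hB.range' y x (T := nb L x ∪ nb M y) Finset.subset_union_right]
    refine Finset.sum_congr rfl fun w _ => ?_
    rw [hA.tr x w, hB.tr w y]
    ring
  unit x y := by
    classical
    -- everything lives in finite sets
    set T : Finset (Fin d → ℤ) := nb M x ∪ nb M y with hT
    set Z : Finset (Fin d → ℤ) := T.biUnion (nb L) with hZ
    have hB0 : ∀ w v, v = x ∨ v = y → w ∉ T → kr B w v = 0 := by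
      intro w v hv hw
      by_contra hne
      have h1 := nb_symm.1 (rg_kr hB.range hne)
      apply hw
      rw [hT, Finset.mem_union]
      rcases hv with rfl | rfl
      · exact Or.inl h1
      · exact Or.inr h1
    have hk : ∀ z v, v = x ∨ v = y → kr (A * B) z v = ∑ w ∈ T, kr A z w * kr B w v := by
      intro z v hv
      rw [kr_comp (M := M) hA.range z v (T := nb L z ∪ T) Finset.subset_union_left]
      symm
      refine Finset.sum_subset Finset.subset_union_right fun w _ hw => ?_
      rw [hB0 w v hv hw, mul_zero]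
    have hZ0 : ∀ z, z ∉ Z → kr (A * B) z x = 0 := by
      intro z hz
      rw [hk z x (Or.inl rfl)]
      refine Finset.sum_eq_zero fun w hw => ?_
      have : kr A z w = 0 := by
        by_contra hne
        exact hz (Finset.mem_biUnion.2 ⟨w, hw, nb_symm.1 (rg_kr hA.range hne)⟩)
      rw [this, zero_mul]
    have h1 : ∑' z, (starRingEnd ℂ) (kr (A * B) z x) * kr (A * B) z y =
        ∑ z ∈ Z, (starRingEnd ℂ) (kr (A * B) z x) * kr (A * B) z y :=
      tsum_eq_sum fun z hz => by rw [hZ0 z hz]; simp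
    rw [h1]
    calc ∑ z ∈ Z, (starRingEnd ℂ) (kr (A * B) z x) * kr (A * B) z y
        = ∑ z ∈ Z, ∑ w ∈ T, ∑ w' ∈ T, ((starRingEnd ℂ) (kr B w x) * kr B w' y) *
            ((starRingEnd ℂ) (kr A z w) * kr A z w') := by
          refine Finset.sum_congr rfl fun z _ => ?_
          rw [hk z x (Or.inl rfl), hk z y (Or.inr rfl), map_sum, Finset.sum_mul_sum]
          refine Finset.sum_congr rfl fun w _ => Finset.sum_congr rfl fun w' _ => ?_
          rw [map_mul]
          ring
      _ = ∑ w ∈ T, ∑ w' ∈ T, ((starRingEnd ℂ) (kr B w x) * kr B w' y) *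
            ∑ z ∈ Z, ((starRingEnd ℂ) (kr A z w) * kr A z w') := by
          rw [Finset.sum_comm]
          refine Finset.sum_congr rfl fun w _ => ?_
          rw [Finset.sum_comm]
          exact Finset.sum_congr rfl fun w' _ => by rw [Finset.mul_sum]
      _ = ∑ w ∈ T, (starRingEnd ℂ) (kr B w x) * kr B w y := by
          refine Finset.sum_congr rfl fun w hw => ?_
          rw [Finset.sum_congr rfl fun w' _ => by
            rw [unit_fin' hA w w' (A := Z) (Finset.subset_biUnion_of_mem (nb L) hw)]]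
          simp only [mul_ite, mul_one, mul_zero]
          rw [Finset.sum_ite_eq, if_pos hw]
      _ = if x = y then 1 else 0 := unit_fin' hB x y (by rw [hT]; exact Finset.subset_union_left)

theorem kr_one (x y : Fin d → ℤ) : kr (1 : ((Fin d → ℤ) → ℂ) →ₗ[ℂ] ((Fin d → ℤ) → ℂ)) x y =
    if x = y then 1 else 0 := by
  unfold kr
  simp [Pi.single_apply]

theorem HU.one : HU 0 (1 : ((Fin d → ℤ) → ℂ) →ₗ[ℂ] ((Fin d → ℤ) → ℂ)) 1 where
  range u x h := h x fun i => by simp
  range' u x h := h x fun i => by simp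
  tr x y := by
    rw [kr_one, kr_one]
    simp only [eq_comm]
  unit x y := by
    simp only [kr_one]
    rw [tsum_eq_single x]
    · simp
    · intro b hb
      simp [hb]

theorem HU.pow {L : ℕ} {A A' : ((Fin d → ℤ) → ℂ) →ₗ[ℂ] ((Fin d → ℤ) → ℂ)} (hA : HU L A A') (m : ℕ) :
    HU (L * m) (A ^ m) (A' ^ m) := by
  induction m with
  | zero => simpa using HU.one
  | succ m ih =>
    rw [pow_succ, pow_succ', mul_add, mul_one]
    exact ih.comp hA

/-- the partner of `x` in the matching of the bonds of direction `i` and parity `σ` -/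
def partner (i : Fin d) (σ : ℤ) (x : Fin d → ℤ) : Fin d → ℤ :=
  if x i % 2 = σ then x + Pi.single i 1 else x - Pi.single i 1

theorem partner_i {i : Fin d} {σ : ℤ} (x : Fin d → ℤ) :
    partner i σ x i = if x i % 2 = σ then x i + 1 else x i - 1 := by
  unfold partner
  split_ifs <;> simp

theorem partner_partner {i : Fin d} {σ : ℤ} (hσ : σ = 0 ∨ σ = 1) (x : Fin d → ℤ) :
    partner i σ (partner i σ x) = x := by
  have h1 := partner_i (i := i) (σ := σ) x
  by_cases h : x i % 2 = σ
  · rw [if_pos h] at h1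
    have h2 : ¬ (partner i σ x i % 2 = σ) := by
      rw [h1]
      omega
    have h3 : partner i σ x = x + Pi.single i 1 := by unfold partner; rw [if_pos h]
    conv_lhs => unfold partner
    rw [if_neg (by rw [if_pos h, ← h3]; exact h2)]
    rw [if_pos h]
    abel
  · rw [if_neg h] at h1
    have h2 : partner i σ x i % 2 = σ := by
      rw [h1]
      omega
    have h3 : partner i σ x = x - Pi.single i 1 := by unfold partner; rw [if_neg h]
    conv_lhs => unfold partner
    rw [if_pos (by rw [if_neg h, ← h3]; exact h2)]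
    rw [if_neg h]
    abel

theorem partner_near (i : Fin d) (σ : ℤ) (x : Fin d → ℤ) (j : Fin d) : |partner i σ x j - x j| ≤ 1 := by
  unfold partner
  split_ifs
  · by_cases hj : j = i
    · subst hj; simp
    · simp [hj]
  · by_cases hj : j = i
    · subst hj; simp
    · simp [hj]

/-- the propagator `e^{-it(1-P)}` of the bonds of one matching, `P` exchanging the partners -/
noncomputable def bond (i : Fin d) (σ : ℤ) (t : ℝ) : ((Fin d → ℤ) → ℂ) →ₗ[ℂ] ((Fin d → ℤ) → ℂ) where
  toFun u x := (1 + Complex.exp (-(2 * t * I))) / 2 * u x +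
    (1 - Complex.exp (-(2 * t * I))) / 2 * u (partner i σ x)
  map_add' u v := by
    funext x
    simp only [Pi.add_apply]
    ring
  map_smul' a u := by
    funext x
    simp only [Pi.smul_apply, smul_eq_mul, RingHom.id_apply]
    ring

theorem bond_apply (i : Fin d) (σ : ℤ) (t : ℝ) (u : (Fin d → ℤ) → ℂ) (x : Fin d → ℤ) :
    bond i σ t u x = (1 + Complex.exp (-(2 * t * I))) / 2 * u x +
      (1 - Complex.exp (-(2 * t * I))) / 2 * u (partner i σ x) := rfl

theorem bond_hu {i : Fin d} {σ : ℤ} (hσ : σ = 0 ∨ σ = 1) (t : ℝ) : HU 1 (bond i σ t) (bond i σ t) := by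
  classical
  set w : ℂ := Complex.exp (-(2 * t * I)) with hw
  set α : ℂ := (1 + w) / 2 with hα
  set β : ℂ := (1 - w) / 2 with hβ
  have hwn : (starRingEnd ℂ) w * w = 1 := by
    rw [← Complex.normSq_eq_conj_mul_self, Complex.normSq_eq_norm_sq]
    have : -(2 * (t : ℂ) * I) = ((-(2 * t) : ℝ) : ℂ) * I := by push_cast; ring
    rw [hw, this, Complex.norm_exp_ofReal_mul_I]
    simp
  have hpp := partner_partner (i := i) hσ
  have hk : ∀ x y, kr (bond i σ t) x y = (if x = y then α else 0) + (if partner i σ x = y then β else 0) := by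
    intro x y
    unfold kr
    rw [bond_apply, ← hw, ← hα, ← hβ, Pi.single_apply, Pi.single_apply]
    simp
  have hsw : ∀ x y, partner i σ x = y ↔ partner i σ y = x := by
    intro x y
    constructor
    · intro h; rw [← h, hpp]
    · intro h; rw [← h, hpp]
  have hne : ∀ x, partner i σ x ≠ x := by
    intro x h
    have h1 := partner_i (i := i) (σ := σ) x
    rw [h] at h1
    split_ifs at h1 <;> omega
  have hrange : Rg 1 (bond i σ t) := by
    intro u x h
    rw [bond_apply, h x (fun j => by simp), h (partner i σ x) fun j => by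
      have := partner_near i σ x j
      exact_mod_cast this]
    ring
  refine ⟨hrange, hrange, fun x y => ?_, fun x y => ?_⟩
  · rw [hk, hk]
    congr 1
    · simp only [eq_comm]
    · exact if_congr (hsw x y) rfl rfl
  · have h1 : ∑' z, (starRingEnd ℂ) (kr (bond i σ t) z x) * kr (bond i σ t) z y =
        ∑ z ∈ ({x, partner i σ x} : Finset (Fin d → ℤ)),
          (starRingEnd ℂ) (kr (bond i σ t) z x) * kr (bond i σ t) z y := by
      refine tsum_eq_sum fun z hz => ?_
      rw [Finset.mem_insert, Finset.mem_singleton, not_or] at hz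
      have : kr (bond i σ t) z x = 0 := by
        rw [hk, if_neg hz.1, if_neg, add_zero]
        intro h
        exact hz.2 ((hsw z x).1 h).symm
      rw [this]
      simp
    rw [h1, Finset.sum_pair (Ne.symm (hne x))]
    have e1 : kr (bond i σ t) x x = α := by
      rw [hk, if_pos rfl, if_neg (hne x), add_zero]
    have e2 : kr (bond i σ t) (partner i σ x) x = β := by
      rw [hk, if_neg (hne x), hpp, if_pos rfl, zero_add]
    rw [e1, e2, hk x y, hk (partner i σ x) y, hpp]
    have c1 : (starRingEnd ℂ) α = (1 + (starRingEnd ℂ) w) / 2 := by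
      rw [hα, map_div₀, map_add, map_one, map_ofNat]
    have c2 : (starRingEnd ℂ) β = (1 - (starRingEnd ℂ) w) / 2 := by
      rw [hβ, map_div₀, map_sub, map_one, map_ofNat]
    rw [c1, c2]
    by_cases hxy : x = y
    · subst hxy
      simp only [hne x, if_true, if_false, add_zero, zero_add]
      rw [hα, hβ]
      linear_combination (1 / 2 : ℂ) * hwn
    · simp only [hxy, if_false]
      by_cases hpy : partner i σ x = y
      · simp only [hpy, if_true, zero_add, add_zero]
        rw [hα, hβ]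
        linear_combination (-1 / 2 : ℂ) * hwn
      · simp only [hpy, if_false]
        ring

end Pool.Agent.L0h56.KA
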