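import Pool.Agent.L0h56.KA.Mat
import Pool.Agent.L0h56.CS.Mar

/-!
The return amplitude of a finite system with uniformly distributed phases.
-/

set_option autoImplicit false
set_option linter.unusedSectionVars false
set_option linter.unusedVariables false

open scoped BigOperators
open Complex MeasureTheory Pool.Agent.L0h56.CS

namespace Pool.Agent.L0h56.KA

/-- random phases all of whose positive moments vanish -/
structure Ph (ν : Measure ℝ) (u : ℝ → ℂ) : Prop where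
  prob : IsProbabilityMeasure ν
  meas : Measurable u
  norm : ∀ s, ‖u s‖ = 1
  mom : ∀ k : ℕ, ∫ s, u s ^ (k + 1) ∂ν = 0

section
variable {ν : Measure ℝ} {u : ℝ → ℂ} (hu : Ph ν u)
include hu

theorem Ph.avg {b : ℂ} (hb : ‖b‖ < 1) : ∫ s, u s / (1 - b * u s) ∂ν = 0 := by
  have := hu.prob
  have hser : ∀ s : ℝ, HasSum (fun k : ℕ => b ^ k * u s ^ (k + 1)) (u s / (1 - b * u s)) := by
    intro s
    have hlt : ‖b * u s‖ < 1 := by rw [norm_mul, hu.norm, mul_one]; exact hb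
    have h1 := (hasSum_geometric_of_norm_lt_one hlt).mul_left (u s)
    rw [← div_eq_mul_inv] at h1
    refine h1.congr_fun fun k => ?_
    rw [mul_pow, pow_succ]
    ring
  have hint : ∀ k : ℕ, Integrable (fun s : ℝ => b ^ k * u s ^ (k + 1)) ν := by
    intro k
    refine Integrable.of_bound (C := ‖b ^ k‖)
      ((measurable_const.mul (hu.meas.pow_const _)).aestronglyMeasurable) (ae_of_all _ fun s => ?_)
    rw [norm_mul, norm_pow (u s), hu.norm, one_pow, mul_one]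
  have hsum : Summable fun k : ℕ => ∫ s, ‖b ^ k * u s ^ (k + 1)‖ ∂ν := by
    have e : ∀ k : ℕ, ∫ s, ‖b ^ k * u s ^ (k + 1)‖ ∂ν = ‖b‖ ^ k := by
      intro k
      have : ∀ s : ℝ, ‖b ^ k * u s ^ (k + 1)‖ = ‖b‖ ^ k := by
        intro s
        rw [norm_mul, norm_pow (u s), hu.norm, one_pow, mul_one, norm_pow]
      simp only [this]
      simp
    simp only [e]
    exact summable_geometric_of_lt_one (norm_nonneg _) hb
  have h3 := hasSum_integral_of_summable_integral_norm hint hsum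
  have h4 : ∀ s : ℝ, (∑' k : ℕ, b ^ k * u s ^ (k + 1)) = u s / (1 - b * u s) :=
    fun s => (hser s).tsum_eq
  simp only [h4] at h3
  have h5 : ∀ k : ℕ, ∫ s, b ^ k * u s ^ (k + 1) ∂ν = 0 := by
    intro k
    rw [integral_const_mul, hu.mom k, mul_zero]
  simp only [h5] at h3
  exact h3.unique hasSum_zero

theorem Ph.ne {b : ℂ} (hb : ‖b‖ < 1) (s : ℝ) : 1 - b * u s ≠ 0 := by
  intro h0
  have h1 : b * u s = 1 := by linear_combination -h0
  have h2 : ‖b * u s‖ < 1 := by rw [norm_mul, hu.norm, mul_one]; exact hb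
  rw [h1] at h2
  simp at h2

theorem Ph.norm_ge {b : ℂ} (s : ℝ) : 1 - ‖b‖ ≤ ‖1 - b * u s‖ := by
  have := norm_sub_norm_le (1 : ℂ) (b * u s)
  rw [norm_mul, hu.norm, mul_one, norm_one] at this
  exact this

theorem Ph.norm_le {b : ℂ} (s : ℝ) : ‖1 - b * u s‖ ≤ 1 + ‖b‖ := by
  refine (norm_sub_le _ _).trans ?_
  rw [norm_mul, hu.norm, mul_one, norm_one]

theorem Ph.int_div {b : ℂ} (hb : ‖b‖ < 1) : Integrable (fun s => u s / (1 - b * u s)) ν := by
  have := hu.prob
  refine Integrable.of_bound (C := 1 / (1 - ‖b‖))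
    ((hu.meas.div (measurable_const.sub (measurable_const.mul hu.meas))).aestronglyMeasurable)
    (ae_of_all _ fun s => ?_)
  rw [norm_div, hu.norm]
  exact div_le_div_of_nonneg_left zero_le_one (by linarith) (hu.norm_ge s)

/-- mean of the Green function -/
theorem Ph.avg1 {b : ℂ} (hb : ‖b‖ < 1) : ∫ s, 1 / (1 - b * u s) ∂ν = 1 := by
  have := hu.prob
  have h1 : ∀ s, 1 / (1 - b * u s) = 1 + b * (u s / (1 - b * u s)) := by
    intro s
    have := hu.ne hb s
    field_simp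
    ring
  simp only [h1]
  rw [integral_add (integrable_const _) ((hu.int_div hb).const_mul _), integral_const_mul, hu.avg hb]
  simp

/-- mean square of the Green function -/
theorem Ph.avg2 {b : ℂ} (hb : ‖b‖ < 1) : ∫ s, 1 / ‖1 - b * u s‖ ^ 2 ∂ν = 1 / (1 - ‖b‖ ^ 2) := by
  have := hu.prob
  have hb2 : 0 < 1 - ‖b‖ ^ 2 := by
    have := pow_lt_one₀ (norm_nonneg b) hb two_ne_zero
    linarith
  have h1 : ∀ s, 1 / ‖1 - b * u s‖ ^ 2 = (1 + 2 * (b * (u s / (1 - b * u s))).re) / (1 - ‖b‖ ^ 2) := by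
    intro s
    have hne := hu.ne hb s
    have hpos : 0 < ‖1 - b * u s‖ ^ 2 := by positivity
    set w := b * u s with hw
    have hwn : ‖w‖ ^ 2 = ‖b‖ ^ 2 := by rw [hw, norm_mul, hu.norm, mul_one]
    have e1 : b * (u s / (1 - w)) = w / (1 - w) := by rw [hw]; ring
    have e2 : (w / (1 - w)).re * ‖1 - w‖ ^ 2 = w.re - ‖w‖ ^ 2 := by
      rw [Complex.div_re, ← Complex.normSq_eq_norm_sq, ← Complex.normSq_eq_norm_sq]
      have : Complex.normSq (1 - w) ≠ 0 := by
        rw [Complex.normSq_eq_norm_sq]; exact hpos.ne'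
      field_simp
      rw [Complex.normSq_apply]
      simp
      ring
    have e3 : ‖1 - w‖ ^ 2 = 1 - 2 * w.re + ‖w‖ ^ 2 := by
      rw [← Complex.normSq_eq_norm_sq, ← Complex.normSq_eq_norm_sq, Complex.normSq_apply,
        Complex.normSq_apply]
      simp
      ring
    rw [e1, div_eq_div_iff hpos.ne' hb2.ne', ← hwn]
    linear_combination (-2 : ℝ) * e2 - e3
  simp only [h1]
  rw [integral_div, integral_add (integrable_const _)]
  · have h2 : ∫ s, 2 * (b * (u s / (1 - b * u s))).re ∂ν = 0 := by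
      rw [integral_const_mul]
      have h3 : ∫ s, (b * (u s / (1 - b * u s))).re ∂ν = (∫ s, b * (u s / (1 - b * u s)) ∂ν).re :=
        integral_re ((hu.int_div hb).const_mul b)
      rw [h3, integral_const_mul, hu.avg hb]
      simp
    rw [h2]
    simp
  · exact (((hu.int_div hb).const_mul b).re).const_mul 2

/-- the Green function is rarely large -/
theorem Ph.tail {b : ℂ} (hb : ‖b‖ < 1) {lam : ℝ} (hl : 0 < lam) :
    ∫ s, (if lam < ‖1 / (1 - b * u s)‖ then (1 : ℝ) else 0) ∂ν ≤ 2 / (1 + lam) := by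
  have := hu.prob
  set b' : ℂ := (lam / (1 + lam) : ℝ) * b with hb'
  have hb'1 : ‖b'‖ < 1 := by
    rw [hb', norm_mul, Complex.norm_real, Real.norm_of_nonneg (by positivity)]
    have : lam / (1 + lam) ≤ 1 := by rw [div_le_one (by linarith)]; linarith
    calc lam / (1 + lam) * ‖b‖ ≤ 1 * ‖b‖ := mul_le_mul_of_nonneg_right this (norm_nonneg _)
      _ < 1 := by rw [one_mul]; exact hb
  have key : ∀ s, (if lam < ‖1 / (1 - b * u s)‖ then (1 : ℝ) else 0) ≤
      2 / (1 + lam) * (1 / (1 - b' * u s)).re := by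
    intro s
    have hne := hu.ne hb s
    have hne' := hu.ne hb'1 s
    set w := 1 - b * u s with hw
    have hwre : 0 < w.re := by
      rw [hw, sub_re, one_re]
      have h1 := Complex.re_le_norm (b * u s)
      rw [norm_mul, hu.norm, mul_one] at h1
      linarith
    have e1 : 1 - b' * u s = (1 + lam * w) / (1 + lam) := by
      rw [hb', hw]
      have : (1 + (lam : ℂ)) ≠ 0 := by
        intro h
        have := congrArg Complex.re h
        simp at this
        linarith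
      push_cast
      field_simp
      ring
    have hne2 : (1 + (lam : ℂ) * w) ≠ 0 := by
      intro h
      rw [e1, h, zero_div] at hne'
      exact hne' rfl
    have hn2 : 0 < ‖1 + (lam : ℂ) * w‖ ^ 2 := by positivity
    have e2 : 2 / (1 + lam) * (1 / (1 - b' * u s)).re = 2 * ((1 + lam * w)⁻¹).re := by
      rw [e1, one_div, inv_div]
      have h3 : ((1 + (lam : ℂ)) / (1 + lam * w)) = ((1 + lam : ℝ) : ℂ) * (1 + lam * w)⁻¹ := by
        push_cast
        rw [div_eq_mul_inv]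
      rw [h3, Complex.re_ofReal_mul]
      field_simp
    have e3 : ((1 + (lam : ℂ) * w)⁻¹).re = (1 + lam * w.re) / ‖1 + (lam : ℂ) * w‖ ^ 2 := by
      rw [Complex.inv_re, Complex.normSq_eq_norm_sq]
      simp
    have e4 : ‖1 + (lam : ℂ) * w‖ ^ 2 = 1 + 2 * lam * w.re + lam ^ 2 * ‖w‖ ^ 2 := by
      rw [← Complex.normSq_eq_norm_sq, ← Complex.normSq_eq_norm_sq, Complex.normSq_apply,
        Complex.normSq_apply]
      simp
      ring
    rw [e2, e3]
    split_ifs with h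
    · rw [norm_div, norm_one, lt_div_iff₀ (norm_pos_iff.2 hne)] at h
      have h5 : lam ^ 2 * ‖w‖ ^ 2 ≤ 1 := by
        rw [← mul_pow]
        exact pow_le_one₀ (by positivity) h.le
      rw [← mul_div_assoc, le_div_iff₀ hn2, e4]
      linarith
    · positivity
  have hint : Integrable (fun s => 1 / (1 - b' * u s)) ν := by
    refine Integrable.of_bound (C := 1 / (1 - ‖b'‖))
      ((measurable_const.div (measurable_const.sub (measurable_const.mul hu.meas))).aestronglyMeasurable)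
      (ae_of_all _ fun s => ?_)
    rw [norm_div, norm_one]
    exact div_le_div_of_nonneg_left zero_le_one (by linarith) (hu.norm_ge s)
  have hm : Measurable fun s => (if lam < ‖1 / (1 - b * u s)‖ then (1 : ℝ) else 0) :=
    Measurable.ite (measurableSet_lt measurable_const
      (measurable_const.div (measurable_const.sub (measurable_const.mul hu.meas))).norm)
      measurable_const measurable_const
  have hi1 : Integrable (fun s => (if lam < ‖1 / (1 - b * u s)‖ then (1 : ℝ) else 0)) ν :=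
    Integrable.of_bound (C := 1) hm.aestronglyMeasurable (ae_of_all _ fun s => by
      split_ifs <;> simp)
  have h6 := integral_mono hi1 (hint.re.const_mul (2 / (1 + lam))) key
  refine h6.trans ?_
  have h7 : ∫ s, (1 / (1 - b' * u s)).re ∂ν = 1 := by
    have h8 : ∫ s, (1 / (1 - b' * u s)).re ∂ν = (∫ s, 1 / (1 - b' * u s) ∂ν).re :=
      integral_re hint
    rw [h8, hu.avg1 hb'1, one_re]
  have h9 : ∫ s, 2 / (1 + lam) * (1 / (1 - b' * u s)).re ∂ν = 2 / (1 + lam) := by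
    rw [integral_const_mul, h7, mul_one]
  exact h9.le

end

variable {J : Type*} [DecidableEq J] {ι : Type*} [Fintype ι] [DecidableEq ι]

/-- the phases: none at the lead `a`, the random phase at the revealed sites, absorption at the
others -/
noncomputable def zt (e : ι → J) (u : ℝ → ℂ) (a : ι) (B : Finset J) (ξ : J → ℝ) (x : ι) : ℂ :=
  if x = a then 0 else if e x ∈ B then u (ξ (e x)) else 0

/-- the column of `Q` -/
noncomputable def ph (K : Matrix ι ι ℂ) (z : ℂ) (e : ι → J) (u : ℝ → ℂ) (a : ι) (B : Finset J)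
    (ξ : J → ℝ) (x : ι) : ℂ := QQ K z (zt e u a B ξ) x a

section

variable {ν : Measure ℝ} {u : ℝ → ℂ} (hu : Ph ν u) {K : Matrix ι ι ℂ} (hK : Con K) {z : ℂ} (hz : ‖z‖ < 1)
  {e : ι → J} (he : Function.Injective e) (a : ι)

include hu

theorem zt_le (B : Finset J) (ξ : J → ℝ) (x : ι) : ‖zt e u a B ξ x‖ ≤ 1 := by
  unfold zt
  split_ifs
  · simp
  · rw [hu.norm]
  · simp

theorem zt_a (B : Finset J) (ξ : J → ℝ) : zt e u a B ξ a = 0 := by
  unfold zt
  rw [if_pos rfl]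

include hK hz

/-- absorption is a probability -/
theorem abs_tot (B : Finset J) (ξ : J → ℝ) :
    ‖ph K z e u a B ξ a‖ ^ 2 + ∑ x with (x ≠ a ∧ e x ∉ B), ‖ph K z e u a B ξ x‖ ^ 2 +
      (1 - ‖z‖ ^ 2) * ∑ x with (x ≠ a ∧ e x ∈ B), ‖ph K z e u a B ξ x‖ ^ 2 =
      ∑ x, (1 - ‖z‖ ^ 2 * ‖zt e u a B ξ x‖ ^ 2) * ‖ph K z e u a B ξ x‖ ^ 2 := by
  have h : ∀ x, (1 - ‖z‖ ^ 2 * ‖zt e u a B ξ x‖ ^ 2) * ‖ph K z e u a B ξ x‖ ^ 2 =
      (if x = a then ‖ph K z e u a B ξ a‖ ^ 2 else 0) +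
      (if (x ≠ a ∧ e x ∉ B) then ‖ph K z e u a B ξ x‖ ^ 2 else 0) +
      (1 - ‖z‖ ^ 2) * (if (x ≠ a ∧ e x ∈ B) then ‖ph K z e u a B ξ x‖ ^ 2 else 0) := by
    intro x
    unfold zt
    by_cases hx : x = a
    · subst hx
      simp
    · by_cases hB : e x ∈ B
      · simp [hx, hB, hu.norm]
      · simp [hx, hB]
  simp only [h]
  rw [Finset.sum_add_distrib, Finset.sum_add_distrib, ← Finset.mul_sum, Finset.sum_ite_eq',
    ← Finset.sum_filter, ← Finset.sum_filter]
  simp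

theorem tot_le (B : Finset J) (ξ : J → ℝ) :
    ‖ph K z e u a B ξ a‖ ^ 2 + ∑ x with (x ≠ a ∧ e x ∉ B), ‖ph K z e u a B ξ x‖ ^ 2 +
      (1 - ‖z‖ ^ 2) * ∑ x with (x ≠ a ∧ e x ∈ B), ‖ph K z e u a B ξ x‖ ^ 2 ≤ 1 := by
  rw [abs_tot hu hK hz a B ξ]
  exact cons_le hK hz (zt_le hu a B ξ) a (zt_a hu a B ξ)

theorem z2_pos : 0 < 1 - ‖z‖ ^ 2 := by
  have := pow_lt_one₀ (norm_nonneg z) hz two_ne_zero
  linarith

theorem F_le (B : Finset J) (ξ : J → ℝ) : ‖ph K z e u a B ξ a‖ ≤ 1 := by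
  have h := tot_le hu hK hz (e := e) a B ξ
  have h2 : 0 ≤ ∑ x with (x ≠ a ∧ e x ∉ B), ‖ph K z e u a B ξ x‖ ^ 2 :=
    Finset.sum_nonneg fun _ _ => sq_nonneg _
  have h3 : 0 ≤ (1 - ‖z‖ ^ 2) * ∑ x with (x ≠ a ∧ e x ∈ B), ‖ph K z e u a B ξ x‖ ^ 2 :=
    mul_nonneg (z2_pos hu hK hz).le (Finset.sum_nonneg fun _ _ => sq_nonneg _)
  have h4 : ‖ph K z e u a B ξ a‖ ^ 2 ≤ 1 := by linarith
  nlinarith [norm_nonneg (ph K z e u a B ξ a)]

theorem ph_sq_le (B : Finset J) (ξ : J → ℝ) (x : ι) :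
    ‖ph K z e u a B ξ x‖ ^ 2 ≤ 1 / (1 - ‖z‖ ^ 2) := by
  have h1 := cons_le hK hz (zt_le hu (e := e) a B ξ) a (zt_a hu a B ξ)
  have hp := z2_pos hu hK hz
  have hz1 : ‖z‖ ^ 2 * ‖zt e u a B ξ x‖ ^ 2 ≤ ‖z‖ ^ 2 := by
    have h4 : ‖zt e u a B ξ x‖ ^ 2 ≤ 1 := pow_le_one₀ (norm_nonneg _) (zt_le hu a B ξ x)
    nlinarith [sq_nonneg ‖z‖]
  have h2 : (1 - ‖z‖ ^ 2 * ‖zt e u a B ξ x‖ ^ 2) * ‖ph K z e u a B ξ x‖ ^ 2 ≤ 1 := by
    refine (Finset.single_le_sum (f := fun x => (1 - ‖z‖ ^ 2 * ‖zt e u a B ξ x‖ ^ 2) *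
      ‖ph K z e u a B ξ x‖ ^ 2) (fun y _ => mul_nonneg ?_ (sq_nonneg _)) (Finset.mem_univ x)).trans h1
    have h4 : ‖zt e u a B ξ y‖ ^ 2 ≤ 1 := pow_le_one₀ (norm_nonneg _) (zt_le hu a B ξ y)
    nlinarith [sq_nonneg ‖z‖]
  rw [le_div_iff₀ hp]
  nlinarith [sq_nonneg ‖ph K z e u a B ξ x‖]

/-- the diagonal entry at an absorbing site -/
theorem rho_le {ζ : ι → ℂ} (hζ : ∀ x, ‖ζ x‖ ≤ 1) (ha : ζ a = 0) {y : ι} (hy : ζ y = 0) (hya : y ≠ a) :
    ‖QQ K z ζ y y‖ ^ 2 + ‖QQ K z ζ y a‖ ^ 2 ≤ 1 := by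
  have h1 := cons_le hK hz hζ y hy
  have h2 : ∑ x ∈ ({y, a} : Finset ι), (1 - ‖z‖ ^ 2 * ‖ζ x‖ ^ 2) * ‖QQ K z ζ x y‖ ^ 2 ≤
      ∑ x, (1 - ‖z‖ ^ 2 * ‖ζ x‖ ^ 2) * ‖QQ K z ζ x y‖ ^ 2 := by
    refine Finset.sum_le_sum_of_subset_of_nonneg (Finset.subset_univ _) fun x _ _ =>
      mul_nonneg ?_ (sq_nonneg _)
    have h4 : ‖ζ x‖ ^ 2 ≤ 1 := pow_le_one₀ (norm_nonneg _) (hζ x)
    have h5 := z2_pos hu hK hz
    nlinarith [sq_nonneg ‖z‖]
  rw [Finset.sum_pair hya, hy, ha] at h2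
  rw [QQ_symm hK hz hζ a y] at h2
  simp only [norm_zero] at h2
  norm_num at h2
  linarith

theorem rho_lt {ζ : ι → ℂ} (hζ : ∀ x, ‖ζ x‖ ≤ 1) {y : ι} (hy : ζ y = 0) :
    ‖QQ K z ζ y y‖ ≤ 1 := by
  have h1 := cons_le hK hz hζ y hy
  have h2 := Finset.single_le_sum (f := fun x => (1 - ‖z‖ ^ 2 * ‖ζ x‖ ^ 2) * ‖QQ K z ζ x y‖ ^ 2)
    (fun x _ => mul_nonneg (by
      have h4 : ‖ζ x‖ ^ 2 ≤ 1 := pow_le_one₀ (norm_nonneg _) (hζ x)
      have h5 := z2_pos hu hK hz
      nlinarith [sq_nonneg ‖z‖]) (sq_nonneg _)) (Finset.mem_univ y)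
  simp only [hy, norm_zero] at h2
  norm_num at h2
  have h3 : ‖QQ K z ζ y y‖ ^ 2 ≤ 1 := h2.trans h1
  nlinarith [norm_nonneg (QQ K z ζ y y)]

theorem zrho_lt {ζ : ι → ℂ} (hζ : ∀ x, ‖ζ x‖ ≤ 1) {y : ι} (hy : ζ y = 0) :
    ‖z * QQ K z ζ y y‖ < 1 := by
  rw [norm_mul]
  have h := rho_lt hu hK hz hζ hy
  calc ‖z‖ * ‖QQ K z ζ y y‖ ≤ ‖z‖ * 1 := mul_le_mul_of_nonneg_left h (norm_nonneg _)
    _ < 1 := by rw [mul_one]; exact hz

include he

theorem zt_update {B : Finset J} {y : ι} (hya : y ≠ a) (hy : e y ∉ B) (ξ : J → ℝ) (s : ℝ) :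
    zt e u a (insert (e y) B) (Function.update ξ (e y) s) =
      Function.update (zt e u a B ξ) y (zt e u a B ξ y + u s) := by
  funext x
  by_cases hx : x = y
  · subst hx
    rw [Function.update_self]
    unfold zt
    rw [if_neg hya, if_neg hya, if_pos (Finset.mem_insert_self _ _), if_neg hy, Function.update_self,
      zero_add]
  · rw [Function.update_of_ne hx]
    have hne : e x ≠ e y := fun h => hx (he h)
    unfold zt
    rw [Function.update_of_ne hne]
    simp only [Finset.mem_insert, hne, false_or]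

theorem zt_y {B : Finset J} {y : ι} (hya : y ≠ a) (hy : e y ∉ B) (ξ : J → ℝ) : zt e u a B ξ y = 0 := by
  unfold zt
  rw [if_neg hya, if_neg hy]

theorem ph_update {B : Finset J} {y : ι} (hya : y ≠ a) (hy : e y ∉ B) (ξ : J → ℝ) (s : ℝ) (x : ι) :
    ph K z e u a (insert (e y) B) (Function.update ξ (e y) s) x = ph K z e u a B ξ x +
      z * u s * QQ K z (zt e u a B ξ) x y * ph K z e u a B ξ y /
        (1 - z * u s * QQ K z (zt e u a B ξ) y y) := by
  unfold ph
  rw [zt_update hu hK hz he a hya hy ξ s]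
  refine QQ_update hK hz (zt_le hu a B ξ) y (u s) ?_ x a
  rw [zt_y hu hK hz he a hya hy ξ, zero_add, hu.norm]

theorem F_update {B : Finset J} {y : ι} (hya : y ≠ a) (hy : e y ∉ B) (ξ : J → ℝ) (s : ℝ) :
    ph K z e u a (insert (e y) B) (Function.update ξ (e y) s) a = ph K z e u a B ξ a +
      z * (ph K z e u a B ξ y) ^ 2 * (u s / (1 - z * QQ K z (zt e u a B ξ) y y * u s)) := by
  rw [ph_update hu hK hz he a hya hy ξ s, QQ_symm hK hz (zt_le hu a B ξ) a y]
  unfold ph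
  ring

theorem F_insert {B : Finset J} {y : ι} (hya : y ≠ a) (hy : e y ∉ B) (ξ : J → ℝ) :
    ph K z e u a (insert (e y) B) ξ a = ph K z e u a B ξ a +
      z * (ph K z e u a B ξ y) ^ 2 * (u (ξ (e y)) /
        (1 - z * QQ K z (zt e u a B ξ) y y * u (ξ (e y)))) := by
  have h := F_update hu hK hz he a hya hy ξ (ξ (e y))
  rwa [Function.update_eq_self] at h

/-- lower bound of the one-point differences -/
theorem diff_ge {B : Finset J} {y : ι} (hya : y ≠ a) (hy : e y ∉ B) (ξ : J → ℝ) :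
    ‖z‖ / 2 * ‖ph K z e u a B ξ y‖ ^ 2 ≤
      ‖ph K z e u a (insert (e y) B) ξ a - ph K z e u a B ξ a‖ := by
  rw [F_insert hu hK hz he a hya hy ξ, add_sub_cancel_left, norm_mul, norm_mul, norm_pow, norm_div,
    hu.norm]
  have h1 := zrho_lt hu hK hz (zt_le hu a B ξ) (zt_y hu hK hz he a hya hy ξ)
  have h2 := hu.norm_le (b := z * QQ K z (zt e u a B ξ) y y) (ξ (e y))
  have h3 : 0 < ‖1 - z * QQ K z (zt e u a B ξ) y y * u (ξ (e y))‖ := norm_pos_iff.2 (hu.ne h1 _)
  have h4 : 1 / 2 ≤ 1 / ‖1 - z * QQ K z (zt e u a B ξ) y y * u (ξ (e y))‖ :=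
    one_div_le_one_div_of_le h3 (by linarith)
  have h5 : 0 ≤ ‖z‖ * ‖ph K z e u a B ξ y‖ ^ 2 := by positivity
  nlinarith [mul_le_mul_of_nonneg_left h4 h5]

theorem meas_ph (B : Finset J) (x : ι) : Measurable fun ξ : J → ℝ => ph K z e u a B ξ x := by
  unfold ph
  refine measurable_QQ K measurable_const (fun y => ?_) x a
  unfold zt
  split_ifs
  · exact measurable_const
  · exact hu.meas.comp (measurable_pi_apply _)
  · exact measurable_const

theorem mart : Mart ν (fun B ξ => ph K z e u a B ξ a) where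
  meas B := meas_ph hu hK hz he a B a
  bdd := ⟨1, fun B ξ => F_le hu hK hz a B ξ⟩
  adapted B j hj ξ s := by
    have h : zt e u a B (Function.update ξ j s) = zt e u a B ξ := by
      funext x
      unfold zt
      by_cases hx : e x ∈ B
      · have hne : e x ≠ j := fun h => hj (h ▸ hx)
        rw [if_pos hx, if_pos hx, Function.update_of_ne hne]
      · rw [if_neg hx, if_neg hx]
    unfold ph
    rw [h]
  avg B j hj ξ := by
    have hpr := hu.prob
    by_cases hr : ∃ y, y ≠ a ∧ e y = j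
    · obtain ⟨y, hya, rfl⟩ := hr
      simp only [F_update hu hK hz he a hya hj ξ]
      have h1 := zrho_lt hu hK hz (zt_le hu a B ξ) (zt_y hu hK hz he a hya hj ξ)
      rw [integral_add (integrable_const _) ((hu.int_div h1).const_mul _), integral_const_mul,
        hu.avg h1]
      simp
    · have h : ∀ s, zt e u a (insert j B) (Function.update ξ j s) = zt e u a B ξ := by
        intro s
        funext x
        by_cases hxa : x = a
        · unfold zt
          rw [if_pos hxa, if_pos hxa]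
        · have hne : e x ≠ j := fun h => hr ⟨x, hxa, h⟩
          unfold zt
          rw [Function.update_of_ne hne]
          simp only [Finset.mem_insert, hne, false_or]
      unfold ph
      simp only [h]
      simp

/-- mean square of the column at a revealed site, one variable -/
theorem one_ph {B : Finset J} {y : ι} (hya : y ≠ a) (hy : e y ∉ B) (ξ : J → ℝ) :
    ∫ s, ‖ph K z e u a (insert (e y) B) (Function.update ξ (e y) s) y‖ ^ 2 ∂ν ≤ 1 := by
  have hpr := hu.prob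
  have h1 := zrho_lt hu hK hz (zt_le hu a B ξ) (zt_y hu hK hz he a hya hy ξ)
  have h2 := rho_le hu hK hz a (zt_le hu a B ξ) (zt_a hu a B ξ) (zt_y hu hK hz he a hya hy ξ) hya
  have h3 : ∀ s, ‖ph K z e u a (insert (e y) B) (Function.update ξ (e y) s) y‖ ^ 2 =
      ‖ph K z e u a B ξ y‖ ^ 2 * (1 / ‖1 - z * QQ K z (zt e u a B ξ) y y * u s‖ ^ 2) := by
    intro s
    have hne := hu.ne h1 s
    have e1 : ph K z e u a (insert (e y) B) (Function.update ξ (e y) s) y =
        ph K z e u a B ξ y / (1 - z * QQ K z (zt e u a B ξ) y y * u s) := by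
      rw [ph_update hu hK hz he a hya hy ξ s, eq_div_iff hne]
      have e2 : 1 - z * u s * QQ K z (zt e u a B ξ) y y =
        1 - z * QQ K z (zt e u a B ξ) y y * u s := by ring
      rw [e2, add_mul, div_mul_cancel₀ _ hne]
      ring
    rw [e1, norm_div, div_pow]
    ring
  simp only [h3]
  rw [integral_const_mul, hu.avg2 h1]
  have h4 : 0 < 1 - ‖z * QQ K z (zt e u a B ξ) y y‖ ^ 2 := by
    have := pow_lt_one₀ (norm_nonneg _) h1 two_ne_zero
    linarith
  rw [mul_one_div, div_le_one h4]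
  have h5 : ‖z * QQ K z (zt e u a B ξ) y y‖ ^ 2 ≤ ‖QQ K z (zt e u a B ξ) y y‖ ^ 2 := by
    rw [norm_mul, mul_pow]
    have := z2_pos hu hK hz
    nlinarith [sq_nonneg ‖QQ K z (zt e u a B ξ) y y‖]
  unfold ph
  linarith

end

end Pool.Agent.L0h56.KA
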