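import Pool.Agent.L0h56.KA.Sing

/-!
Existence of the spectral measures of the unitary operators.
-/

set_option autoImplicit false
set_option linter.unusedSectionVars false
set_option linter.unusedVariables false

open scoped BigOperators Topology ENNReal NNReal
open Complex MeasureTheory Filter Pool.Agent.L0h56.CS

namespace Pool.Agent.L0h56.KA

theorem Wc_cont {c : ℕ → ℂ} {G : ℝ} (hc : ∀ n, ‖c n‖ ≤ G) {η : ℝ} (h1 : 0 < η) (h2 : η ≤ 1) :
    Continuous fun E : ℝ => Wc c (zz η E) := by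
  have hz : Continuous fun E : ℝ => zz η E := by
    unfold zz
    exact Continuous.mul continuous_const (by fun_prop)
  have h3 : Continuous fun E : ℝ => ∑' n, zz η E ^ n * c n := by
    refine continuous_tsum (u := fun n : ℕ => (1 - η) ^ n * G) (fun n => ?_)
      ((summable_geometric_of_lt_one (by linarith) (by linarith)).mul_right _) fun n E => ?_
    · exact (hz.pow n).mul continuous_const
    · rw [norm_mul, norm_pow, norm_zz h2]
      exact mul_le_mul_of_nonneg_left (hc n) (pow_nonneg (by linarith) _)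
  unfold Wc
  exact ((Complex.continuous_re.comp h3).const_mul 2).sub continuous_const

/-- the interval -/
abbrev E2 : Type := Set.Icc (-Real.pi) Real.pi

/-- approximating measures -/
theorem approx {c : ℕ → ℂ} {G : ℝ} (hc : ∀ n, ‖c n‖ ≤ G) (h0 : (c 0).im = 0)
    {η : ℝ} (h1 : 0 < η) (h2 : η ≤ 1) (hpos : ∀ E, 0 ≤ Wc c (zz η E)) :
    ∃ μ : Measure E2, μ Set.univ ≤ ENNReal.ofReal G ∧
      ∀ n : ℕ, ∫ θ : E2, Complex.exp ((n : ℂ) * (θ.1 : ℝ) * I) ∂μ = ((1 - η : ℝ) : ℂ) ^ n * c n := by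
  have hpi := Real.pi_pos
  set w : ℝ → ℝ := fun E => Wc c (zz η E) / (2 * Real.pi) with hw
  have hwc : Continuous w := (Wc_cont hc h1 h2).div_const _
  have hwn : ∀ E, 0 ≤ w E := fun E => div_nonneg (hpos E) (by positivity)
  set ν : Measure ℝ := (volume.restrict (Set.Icc (-Real.pi) Real.pi)).withDensity
    (fun E => ENNReal.ofReal (w E)) with hν
  have hint : ∀ f : ℝ → ℂ, ∫ E, f E ∂ν = ∫ E in Set.Icc (-Real.pi) Real.pi, (w E : ℂ) * f E := by
    intro f
    rw [hν, integral_withDensity_eq_integral_toReal_smul hwc.measurable.ennreal_ofReal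
      (Eventually.of_forall fun E => ENNReal.ofReal_lt_top)]
    refine integral_congr_ae (Eventually.of_forall fun E => ?_)
    simp only
    rw [ENNReal.toReal_ofReal (hwn E), Complex.real_smul]
  have hmom : ∀ n : ℕ, ∫ E : ℝ, Complex.exp ((n : ℂ) * E * I) ∂ν = ((1 - η : ℝ) : ℂ) ^ n * c n := by
    intro n
    rw [hint]
    have h3 := Wc_mom hc h0 h1 h2 n
    have h4 : ∀ E : ℝ, (w E : ℂ) * Complex.exp ((n : ℂ) * E * I) =
        (1 / (2 * Real.pi) : ℂ) * (Complex.exp ((n : ℂ) * E * I) * (Wc c (zz η E) : ℂ)) := by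
      intro E
      rw [hw]
      push_cast
      ring
    simp only [h4]
    rw [integral_const_mul, h3]
    have : (Real.pi : ℂ) ≠ 0 := by exact_mod_cast hpi.ne'
    field_simp
  have hcompl : ν (Set.Icc (-Real.pi) Real.pi)ᶜ = 0 := by
    rw [hν, withDensity_apply _ measurableSet_Icc.compl, Measure.restrict_restrict
      measurableSet_Icc.compl, Set.compl_inter_self]
    simp
  have hrestr : ν.restrict (Set.Icc (-Real.pi) Real.pi) = ν :=
    Measure.restrict_eq_self_of_ae_mem (by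
      rw [ae_iff]
      exact hcompl)
  refine ⟨Measure.comap Subtype.val ν, ?_, fun n => ?_⟩
  · rw [comap_subtype_coe_apply measurableSet_Icc, Set.image_univ, Subtype.range_coe_subtype,
      Set.ofPred_mem_eq]
    refine (measure_mono (Set.subset_univ _)).trans ?_
    rw [hν, withDensity_apply _ MeasurableSet.univ, Measure.restrict_univ,
      ← ofReal_integral_eq_lintegral_ofReal hwc.integrableOn_Icc (Eventually.of_forall hwn)]
    refine ENNReal.ofReal_le_ofReal ?_
    have h5 : ((∫ E in Set.Icc (-Real.pi) Real.pi, w E : ℝ) : ℂ) = c 0 := by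
      rw [← integral_complex_ofReal]
      have h6 := hmom 0
      rw [hint] at h6
      simpa using h6
    have h6 : ∫ E in Set.Icc (-Real.pi) Real.pi, w E = (c 0).re := by
      rw [← h5, Complex.ofReal_re]
    rw [h6]
    exact (Complex.re_le_norm _).trans (hc 0)
  · have h7 := integral_subtype_comap (μ := ν) (measurableSet_Icc (a := -Real.pi) (b := Real.pi))
      (fun E : ℝ => Complex.exp ((n : ℂ) * E * I))
    rw [hrestr, hmom n] at h7
    exact h7

/-- **Herglotz.** -/
theorem herglotz {c : ℕ → ℂ} {G : ℝ} (hc : ∀ n, ‖c n‖ ≤ G) (h0 : (c 0).im = 0)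
    (hpos : ∀ η : ℝ, 0 < η → η ≤ 1 → ∀ E, 0 ≤ Wc c (zz η E)) :
    ∃ m : Measure ℝ, IsFiniteMeasure m ∧ m (Set.Icc (-Real.pi) Real.pi)ᶜ = 0 ∧
      ∀ n : ℕ, ∫ θ : ℝ, Complex.exp ((n : ℂ) * θ * I) ∂m = c n := by
  have hη : ∀ k : ℕ, 0 < 1 / ((k : ℝ) + 1) := fun k => by positivity
  have hη1 : ∀ k : ℕ, 1 / ((k : ℝ) + 1) ≤ 1 := fun k => by
    rw [div_le_one (by positivity)]
    have : (0 : ℝ) ≤ k := Nat.cast_nonneg k
    linarith
  choose μ hμG hμ using fun k : ℕ => approx hc h0 (hη k) (hη1 k) (hpos _ (hη k) (hη1 k))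
  have hfin : ∀ k, IsFiniteMeasure (μ k) := fun k => ⟨(hμG k).trans_lt ENNReal.ofReal_lt_top⟩
  obtain ⟨F, hF⟩ : ∃ F : ℕ → FiniteMeasure E2, ∀ N, (F N : Measure E2) = μ N :=
    ⟨fun N => ⟨μ N, hfin N⟩, fun N => rfl⟩
  set 𝒰 : Filter ℕ := (Filter.hyperfilter ℕ : Filter ℕ) with h𝒰
  have hle : 𝒰 ≤ atTop := by
    rw [← Nat.cofinite_eq_atTop]
    exact Filter.hyperfilter_le_cofinite
  obtain ⟨μ0, _, hμ0⟩ := (isCompact_setOfPred_finiteMeasure_le_of_compactSpace E2
    (Real.toNNReal G)).ultrafilter_le_nhds ((Filter.hyperfilter ℕ).map F)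
    (Filter.tendsto_principal.2 (Filter.Eventually.of_forall fun N => by
      change (F N).mass ≤ Real.toNNReal G
      rw [← ENNReal.coe_le_coe, FiniteMeasure.ennreal_mass, hF N]
      exact hμG N))
  have hFt : Tendsto F 𝒰 (𝓝 μ0) := hμ0
  rw [FiniteMeasure.tendsto_iff_forall_integral_rclike_tendsto ℂ] at hFt
  have hlim : ∀ n : ℕ, ∫ θ : E2, Complex.exp ((n : ℂ) * (θ.1 : ℝ) * I) ∂(μ0 : Measure E2) = c n := by
    intro n
    have hcont : Continuous fun θ : E2 => Complex.exp ((n : ℂ) * (θ.1 : ℝ) * I) := by fun_prop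
    have h1 := hFt (BoundedContinuousFunction.mkOfCompact ⟨_, hcont⟩)
    simp only [BoundedContinuousFunction.mkOfCompact_apply, ContinuousMap.coe_mk, hF, hμ] at h1
    have h2 : Tendsto (fun k : ℕ => ((1 - 1 / ((k : ℝ) + 1) : ℝ) : ℂ) ^ n * c n) atTop
        (𝓝 (((1 - 0 : ℝ) : ℂ) ^ n * c n)) := by
      refine Tendsto.mul_const _ (Tendsto.pow ?_ n)
      refine (Complex.continuous_ofReal.tendsto _).comp ?_
      exact tendsto_const_nhds.sub tendsto_one_div_add_atTop_nhds_zero_nat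
    simp only [sub_zero, Complex.ofReal_one, one_pow, one_mul] at h2
    exact tendsto_nhds_unique h1 (h2.mono_left hle)
  refine ⟨(μ0 : Measure E2).map Subtype.val, inferInstance, ?_, fun n => ?_⟩
  · rw [Measure.map_apply measurable_subtype_coe measurableSet_Icc.compl]
    have : (Subtype.val : E2 → ℝ) ⁻¹' (Set.Icc (-Real.pi) Real.pi)ᶜ = ∅ := by
      ext θ
      simp
    rw [this, measure_empty]
  · rw [integral_map measurable_subtype_coe.aemeasurable
      (Continuous.aestronglyMeasurable (by fun_prop))]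
    exact hlim n

section
variable {d : ℕ} {L : ℕ} {S : ((Fin d → ℤ) → ℂ) →ₗ[ℂ] ((Fin d → ℤ) → ℂ)} (hS : Hop L S)
  {p : (Fin d → ℤ) → ℂ} (hp : ∀ x, ‖p x‖ ≤ 1)
include hS hp

theorem cI_zero {g : (Fin d → ℤ) → ℂ} (hg : SqSummable g) : (cI S p g 0).im = 0 := by
  have h1 : Tendsto (fun N => (cN S p g 0 N).im) atTop (𝓝 (cI S p g 0).im) :=
    (Complex.continuous_im.tendsto _).comp (cN_tendsto hS hp hg 0)
  have h2 : ∀ N, (cN S p g 0 N).im = 0 := fun N => by
    rw [cN_zero hS hp]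
    exact Complex.ofReal_im _
  simp only [h2] at h1
  exact (tendsto_nhds_unique h1 tendsto_const_nhds)

/-- **Existence of spectral measures.** -/
theorem exists_spec {g : (Fin d → ℤ) → ℂ} (hg : SqSummable g) :
    ∃ m : Measure ℝ, IsSpec (Uo S p) g m := by
  refine herglotz (cI_le hS hp hg) (cI_zero hS hp hg) fun η h1 h2 E => ?_
  have hz : ‖zz η E‖ < 1 := by rw [norm_zz h2]; linarith
  have h3 := Wc_tendsto (fun n N => cN_le hS hp hg n N) (fun n => cN_tendsto hS hp hg n) hz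
  refine ge_of_tendsto' h3 fun N => ?_
  rw [← WN_eq hS hp N g hz]
  exact WN_nonneg hS hp N g hz

end

end Pool.Agent.L0h56.KA
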