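import Pool.Agent.L0h56.KA.Tel

/-!
Removing the lead, and the finite volume bound.
-/

set_option autoImplicit false
set_option linter.unusedSectionVars false
set_option linter.unusedVariables false

open scoped BigOperators
open Complex MeasureTheory Pool.Agent.L0h56.CS

namespace Pool.Agent.L0h56.KA

variable {J : Type*} [DecidableEq J] {ι : Type*} [Fintype ι] [DecidableEq ι]

/-- the Green function of the full system -/
noncomputable def Ga (K : Matrix ι ι ℂ) (z : ℂ) (e : ι → J) (u : ℝ → ℂ) (ξ : J → ℝ) (a : ι) : ℂ :=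
  (AA K z fun x => u (ξ (e x)))⁻¹ a a

theorem measurable_Ga {Ω : Type*} [MeasurableSpace Ω] (K : Matrix ι ι ℂ) {z : Ω → ℂ}
    (hz : Measurable z) {ζ : Ω → ι → ℂ} (hζ : ∀ x, Measurable fun ω => ζ ω x) (x y : ι) :
    Measurable fun ω => (AA K (z ω) (ζ ω))⁻¹ x y := by
  have hp : Measurable fun (ω : Ω) (x : ι) => z ω * ζ ω x := measurable_pi_iff.2 fun i => hz.mul (hζ i)
  exact (measurable_inv_aux K x y).comp hp

section

variable {ν : Measure ℝ} {u : ℝ → ℂ} (hu : Ph ν u) {K : Matrix ι ι ℂ} (hK : Con K) {z : ℂ} (hz : ‖z‖ < 1)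
  {e : ι → J} (he : Function.Injective e) (a : ι)

include hu hK hz

theorem zF_lt (U : Finset J) (ξ : J → ℝ) : ‖z * ph K z e u a U ξ a‖ < 1 := by
  rw [norm_mul]
  have h := F_le hu hK hz (e := e) a U ξ
  calc ‖z‖ * ‖ph K z e u a U ξ a‖ ≤ ‖z‖ * 1 := mul_le_mul_of_nonneg_left h (norm_nonneg _)
    _ < 1 := by rw [mul_one]; exact hz

theorem Ga_eq {U : Finset J} (hU : ∀ x, e x ∈ U) (ξ : J → ℝ) :
    Ga K z e u ξ a = 1 / (1 - z * ph K z e u a U ξ a * u (ξ (e a))) := by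
  set v := u (ξ (e a)) with hv
  have hne := hu.ne (zF_lt hu hK hz (e := e) a U ξ) (ξ (e a))
  have hζ := zt_le hu (e := e) a U ξ
  have ha := zt_a hu (e := e) a U ξ
  have hz1 : (fun x => u (ξ (e x))) = Function.update (zt e u a U ξ) a (zt e u a U ξ a + v) := by
    funext x
    by_cases hx : x = a
    · subst hx
      rw [Function.update_self, ha, zero_add]
    · rw [Function.update_of_ne hx]
      unfold zt
      rw [if_neg hx, if_pos (hU x)]
  have hvn : ‖zt e u a U ξ a + v‖ ≤ 1 := by rw [ha, zero_add, hv, hu.norm]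
  have hfull : ∀ x, ‖u (ξ (e x))‖ ≤ 1 := fun x => (hu.norm _).le
  unfold Ga
  rw [psi_eq hK hz hfull a a, if_pos rfl, hz1, QQ_update hK hz hζ a v hvn a a]
  rw [← hv] at hne ⊢
  have e1 : QQ K z (zt e u a U ξ) a a = ph K z e u a U ξ a := rfl
  rw [e1]
  set F := ph K z e u a U ξ a
  have e2 : 1 - z * v * F = 1 - z * F * v := by ring
  rw [e2, eq_div_iff hne]
  have e3 : (1 + z * v * (F + z * v * F * F / (1 - z * F * v))) * (1 - z * F * v) =
      (1 + z * v * F) * (1 - z * F * v) + z * v * (z * v * F * F) *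
        ((1 - z * F * v)⁻¹ * (1 - z * F * v)) := by ring
  rw [e3, inv_mul_cancel₀ hne]
  ring

theorem re_Ga {U : Finset J} (hU : ∀ x, e x ∈ U) (ξ : J → ℝ) :
    2 * (Ga K z e u ξ a).re - 1 =
      (1 - ‖z * ph K z e u a U ξ a‖ ^ 2) * ‖Ga K z e u ξ a‖ ^ 2 := by
  have hne := hu.ne (zF_lt hu hK hz (e := e) a U ξ) (ξ (e a))
  rw [Ga_eq hu hK hz a hU ξ]
  have e0 : ‖z * ph K z e u a U ξ a‖ ^ 2 = ‖z * ph K z e u a U ξ a * u (ξ (e a))‖ ^ 2 := by
    rw [norm_mul _ (u (ξ (e a))), hu.norm, mul_one]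
  rw [e0]
  set w := z * ph K z e u a U ξ a * u (ξ (e a)) with hw
  have hpos : 0 < ‖1 - w‖ ^ 2 := by positivity
  have e3 : ‖1 - w‖ ^ 2 = 1 - 2 * w.re + ‖w‖ ^ 2 := by
    rw [← Complex.normSq_eq_norm_sq, ← Complex.normSq_eq_norm_sq, Complex.normSq_apply,
      Complex.normSq_apply]
    simp
    ring
  rw [one_div, Complex.inv_re, Complex.normSq_eq_norm_sq, norm_inv, inv_pow, sub_re, one_re]
  field_simp
  rw [e3]
  ring

theorem re_Ga_nonneg {U : Finset J} (hU : ∀ x, e x ∈ U) (ξ : J → ℝ) : 0 ≤ 2 * (Ga K z e u ξ a).re - 1 := by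
  rw [re_Ga hu hK hz a hU ξ]
  have h := zF_lt hu hK hz (e := e) a U ξ
  have : ‖z * ph K z e u a U ξ a‖ ^ 2 ≤ 1 := pow_le_one₀ (norm_nonneg _) h.le
  exact mul_nonneg (by linarith) (sq_nonneg _)

theorem meas_Ga : Measurable fun ξ : J → ℝ => Ga K z e u ξ a := by
  unfold Ga
  exact measurable_Ga K measurable_const (fun x => hu.meas.comp (measurable_pi_apply _)) a a

include he

theorem tail_Ga {U : Finset J} (hU : ∀ x, e x ∈ U) {lam : ℝ} (hl : 0 < lam) :
    ∫ ξ, (if lam < ‖Ga K z e u ξ a‖ then (1 : ℝ) else 0) ∂(PP ν J) ≤ 2 / (1 + lam) := by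
  have hpr := hu.prob
  have hb : ∀ ξ : J → ℝ, ‖(if lam < ‖Ga K z e u ξ a‖ then (1 : ℝ) else 0)‖ ≤ 1 := by
    intro ξ
    split_ifs <;> simp
  have hm : Measurable fun ξ : J → ℝ => (if lam < ‖Ga K z e u ξ a‖ then (1 : ℝ) else 0) :=
    Measurable.ite (measurableSet_lt measurable_const (meas_Ga hu hK hz a).norm)
      measurable_const measurable_const
  have hres := resample ν (f := fun ξ : J → ℝ => (if lam < ‖Ga K z e u ξ a‖ then (1 : ℝ) else 0))
    hm hb (e a)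
  have hF : ∀ (ξ : J → ℝ) (s : ℝ), ph K z e u a U (Function.update ξ (e a) s) a = ph K z e u a U ξ a := by
    intro ξ s
    have h : zt e u a U (Function.update ξ (e a) s) = zt e u a U ξ := by
      funext x
      unfold zt
      by_cases hxa : x = a
      · rw [if_pos hxa, if_pos hxa]
      · have hne : e x ≠ e a := fun h => hxa (he h)
        rw [Function.update_of_ne hne]
    unfold ph
    rw [h]
  have h3 : ∫ ξ, ∫ s, (if lam < ‖Ga K z e u (Function.update ξ (e a) s) a‖ then (1 : ℝ) else 0)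
      ∂ν ∂(PP ν J) ≤ ∫ ξ, 2 / (1 + lam) ∂(PP ν J) := by
    refine integral_mono_of_nonneg (Filter.Eventually.of_forall fun _ =>
      integral_nonneg fun _ => ?_) (integrable_const _)
      (Filter.Eventually.of_forall fun ξ => ?_)
    · simp only [Pi.zero_apply]
      split_ifs <;> norm_num
    · have h4 := hu.tail (zF_lt hu hK hz (e := e) a U ξ) hl
      refine le_trans (le_of_eq ?_) h4
      refine integral_congr_ae (Filter.Eventually.of_forall fun s => ?_)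
      simp only
      rw [Ga_eq hu hK hz a hU, hF, Function.update_self]
  simp only [integral_const, probReal_univ, one_smul] at h3
  exact hres.trans_le h3

theorem fin_bound {lay : ι → ℕ} {L : ℕ}
    (hlay : ∀ x y, K x y ≠ 0 → lay x ≤ lay y + L) {R : ℕ}
    (hiso : ∀ v : ι → ℂ, (∀ x, L * R ≤ lay x → v x = 0) →
      ∑ x, ‖K.mulVec v x‖ ^ 2 = ∑ x, ‖v x‖ ^ 2) {r0 : ℕ} (ha : lay a < L * r0)
    (hcard : ∀ r : ℕ, ((Finset.univ.filter fun x => L * r ≤ lay x ∧ lay x < L * (r + 1)).card : ℝ) ≤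
      8 * L ^ 2 * (r + 1)) (hL : 0 < L) {C S lam : ℝ} (hl : 0 < lam)
    (hC : ((Finset.univ.filter fun x => lay x < L * R).card : ℝ) ≤ C) (hz2 : 1 / 4 ≤ ‖z‖ ^ 2)
    (hS : 0 < S) (hSm : S ≤ ∑ r ∈ Finset.Ico r0 R, 1 / (32 * (L : ℝ) ^ 2 * (r + 1))) :
    ∫ ξ, min (2 * (Ga K z e u ξ a).re - 1) 1 ∂(PP ν J) ≤
      2 / (1 + lam) + lam ^ 2 * ((1 - ‖z‖ ^ 2) * (C + 1) + 2 / Real.sqrt S) := by
  have hpr := hu.prob
  set U : Finset J := Finset.univ.image e with hUdef
  have hU : ∀ x, e x ∈ U := fun x => Finset.mem_image_of_mem e (Finset.mem_univ x)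
  have h1 := ret hu hK hz he a hlay hiso ha hcard hL hU hC hz2 hS hSm
  have h2 := tail_Ga hu hK hz he a hU hl
  have hpt : ∀ ξ : J → ℝ, min (2 * (Ga K z e u ξ a).re - 1) 1 ≤
      (if lam < ‖Ga K z e u ξ a‖ then (1 : ℝ) else 0) +
        lam ^ 2 * ((1 - ‖ph K z e u a U ξ a‖ ^ 2) + (1 - ‖z‖ ^ 2)) := by
    intro ξ
    have h3 := re_Ga hu hK hz a hU ξ
    have h4 := F_le hu hK hz (e := e) a U ξ
    have h5 : ‖ph K z e u a U ξ a‖ ^ 2 ≤ 1 := pow_le_one₀ (norm_nonneg _) h4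
    have h6 := z2_pos hu hK hz
    have h7 : 0 ≤ (1 - ‖ph K z e u a U ξ a‖ ^ 2) + (1 - ‖z‖ ^ 2) := by linarith
    have h8 : 1 - ‖z * ph K z e u a U ξ a‖ ^ 2 ≤
        (1 - ‖ph K z e u a U ξ a‖ ^ 2) + (1 - ‖z‖ ^ 2) := by
      rw [norm_mul, mul_pow]
      nlinarith [sq_nonneg ‖ph K z e u a U ξ a‖]
    split_ifs with hc1
    · have : 0 ≤ lam ^ 2 * ((1 - ‖ph K z e u a U ξ a‖ ^ 2) + (1 - ‖z‖ ^ 2)) := by positivity
      have := min_le_right (2 * (Ga K z e u ξ a).re - 1) 1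
      linarith
    · rw [zero_add]
      refine (min_le_left _ _).trans ?_
      rw [h3, mul_comm]
      have h9 : ‖Ga K z e u ξ a‖ ^ 2 ≤ lam ^ 2 := pow_le_pow_left₀ (norm_nonneg _) (not_lt.1 hc1) 2
      calc ‖Ga K z e u ξ a‖ ^ 2 * (1 - ‖z * ph K z e u a U ξ a‖ ^ 2)
          ≤ ‖Ga K z e u ξ a‖ ^ 2 * ((1 - ‖ph K z e u a U ξ a‖ ^ 2) + (1 - ‖z‖ ^ 2)) :=
            mul_le_mul_of_nonneg_left h8 (sq_nonneg _)
        _ ≤ _ := mul_le_mul_of_nonneg_right h9 h7
  have hi1 : Integrable (fun ξ : J → ℝ => (if lam < ‖Ga K z e u ξ a‖ then (1 : ℝ) else 0)) (PP ν J) :=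
    Integrable.of_bound (C := 1) (Measurable.ite (measurableSet_lt measurable_const
      (meas_Ga hu hK hz a).norm) measurable_const measurable_const).aestronglyMeasurable
      (Filter.Eventually.of_forall fun ξ => by split_ifs <;> simp)
  have hi0 := int_ph hu hK hz he a U a
  have hi2a : Integrable (fun ξ => 1 - ‖ph K z e u a U ξ a‖ ^ 2) (PP ν J) := (integrable_const _).sub hi0
  have hi2 : Integrable (fun ξ => (1 - ‖ph K z e u a U ξ a‖ ^ 2) + (1 - ‖z‖ ^ 2)) (PP ν J) :=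
    hi2a.add (integrable_const _)
  have hi3 : Integrable (fun ξ : J → ℝ => min (2 * (Ga K z e u ξ a).re - 1) 1) (PP ν J) := by
    refine Integrable.of_bound (C := 1) ((((Complex.measurable_re.comp
      (meas_Ga hu hK hz a)).const_mul 2).sub_const 1).min measurable_const).aestronglyMeasurable
      (Filter.Eventually.of_forall fun ξ => ?_)
    have := re_Ga_nonneg hu hK hz a hU ξ
    rw [Real.norm_of_nonneg (le_min this zero_le_one)]
    exact min_le_right _ _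
  have h7 := integral_mono hi3 (hi1.add (hi2.const_mul _)) hpt
  refine h7.trans ?_
  simp only [Pi.add_apply]
  rw [integral_add hi1 (hi2.const_mul _), integral_const_mul, integral_add hi2a (integrable_const _),
    integral_sub (integrable_const _) hi0]
  simp only [integral_const, probReal_univ, one_smul]
  have : 0 ≤ lam ^ 2 := sq_nonneg _
  have h8 : lam ^ 2 * (1 - ∫ ξ, ‖ph K z e u a U ξ a‖ ^ 2 ∂(PP ν J) + (1 - ‖z‖ ^ 2)) ≤
      lam ^ 2 * ((1 - ‖z‖ ^ 2) * (C + 1) + 2 / Real.sqrt S) := by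
    refine mul_le_mul_of_nonneg_left ?_ this
    linarith
  linarith

end

end Pool.Agent.L0h56.KA
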