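import Pool.Agent.L0h56.KA.Sp
import Pool.Agent.L0h56.CS.Lim

/-!
Symmetric unitary hopping operators of finite range on `ℤ^d`.
-/

set_option autoImplicit false
set_option linter.unusedSectionVars false
set_option linter.unusedVariables false

open scoped BigOperators Topology
open Complex MeasureTheory Filter Pool.Agent.L0h56.CS

namespace Pool.Agent.L0h56.KA

variable {d : ℕ}

/-- a symmetric unitary operator of finite range -/
structure Hop (L : ℕ) (S : ((Fin d → ℤ) → ℂ) →ₗ[ℂ] ((Fin d → ℤ) → ℂ)) : Prop where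
  range : ∀ (u : (Fin d → ℤ) → ℂ) (x : Fin d → ℤ),
    (∀ y : Fin d → ℤ, (∀ i, |y i - x i| ≤ L) → u y = 0) → S u x = 0
  symm : ∀ x y : Fin d → ℤ, S (Pi.single y 1) x = S (Pi.single x 1) y
  unit : ∀ x y : Fin d → ℤ, ∑' z, (starRingEnd ℂ) (S (Pi.single x 1) z) * S (Pi.single y 1) z =
    if x = y then 1 else 0

/-- neighbourhood -/
noncomputable def nb (L : ℕ) (x : Fin d → ℤ) : Finset (Fin d → ℤ) :=
  Fintype.piFinset fun i => Finset.Icc (x i - L) (x i + L)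

theorem mem_nb {L : ℕ} {x y : Fin d → ℤ} : y ∈ nb L x ↔ ∀ i, |y i - x i| ≤ L := by
  unfold nb
  rw [Fintype.mem_piFinset]
  refine forall_congr' fun i => ?_
  rw [Finset.mem_Icc, abs_le]
  constructor
  · rintro ⟨h1, h2⟩; constructor <;> linarith
  · rintro ⟨h1, h2⟩; constructor <;> linarith

theorem nb_symm {L : ℕ} {x y : Fin d → ℤ} : y ∈ nb L x ↔ x ∈ nb L y := by
  rw [mem_nb, mem_nb]
  refine forall_congr' fun i => ?_
  rw [abs_sub_comm]

/-- the kernel -/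
noncomputable def kr (S : ((Fin d → ℤ) → ℂ) →ₗ[ℂ] ((Fin d → ℤ) → ℂ)) (x y : Fin d → ℤ) : ℂ :=
  S (Pi.single y 1) x

section
variable {L : ℕ} {S : ((Fin d → ℤ) → ℂ) →ₗ[ℂ] ((Fin d → ℤ) → ℂ)} (hS : Hop L S)
include hS

theorem kr_range {x y : Fin d → ℤ} (h : kr S x y ≠ 0) : y ∈ nb L x := by
  by_contra hcon
  apply h
  refine hS.range _ _ fun w hw => ?_
  have : w ≠ y := by
    rintro rfl
    exact hcon (mem_nb.2 hw)
  simp [this]

theorem S_apply (u : (Fin d → ℤ) → ℂ) (x : Fin d → ℤ) {A : Finset (Fin d → ℤ)} (hA : nb L x ⊆ A) :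
    S u x = ∑ y ∈ A, kr S x y * u y := by
  set u' : (Fin d → ℤ) → ℂ := ∑ y ∈ A, u y • Pi.single y (1 : ℂ) with hu'
  have h1 : ∀ y ∈ A, u' y = u y := by
    intro y hy
    rw [hu', Finset.sum_apply, Finset.sum_eq_single y]
    · simp
    · intro b _ hb
      simp [Ne.symm hb]
    · intro h; exact absurd hy h
  have h2 : S (u - u') x = 0 := hS.range _ _ fun y hy => by
    rw [Pi.sub_apply, h1 y (hA (mem_nb.2 hy)), sub_self]
  have h3 : S u x = S u' x := by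
    rw [map_sub, Pi.sub_apply] at h2
    linear_combination h2
  rw [h3, hu', map_sum, Finset.sum_apply]
  refine Finset.sum_congr rfl fun y _ => ?_
  rw [map_smul, Pi.smul_apply, smul_eq_mul]
  unfold kr
  ring

theorem unit_fin (x y : Fin d → ℤ) {A : Finset (Fin d → ℤ)} (hA : nb L x ⊆ A) :
    ∑ z ∈ A, (starRingEnd ℂ) (kr S z x) * kr S z y = if x = y then 1 else 0 := by
  rw [← hS.unit x y]
  symm
  refine tsum_eq_sum fun z hz => ?_
  have : kr S z x = 0 := by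
    by_contra hne
    exact hz (hA (nb_symm.1 (kr_range hS hne)))
  unfold kr at this
  rw [this]
  simp

theorem iso_fin (v : (Fin d → ℤ) → ℂ) {A B : Finset (Fin d → ℤ)} (h : ∀ y ∈ B, nb L y ⊆ A) :
    ∑ x ∈ A, ‖∑ y ∈ B, kr S x y * v y‖ ^ 2 = ∑ y ∈ B, ‖v y‖ ^ 2 := by
  have key : ((∑ x ∈ A, ‖∑ y ∈ B, kr S x y * v y‖ ^ 2 : ℝ) : ℂ) = ((∑ y ∈ B, ‖v y‖ ^ 2 : ℝ) : ℂ) := by
    push_cast
    have e : ∀ w : ℂ, ((‖w‖ : ℝ) : ℂ) ^ 2 = (starRingEnd ℂ) w * w := by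
      intro w
      rw [← Complex.normSq_eq_conj_mul_self, Complex.normSq_eq_norm_sq]
      push_cast
      rfl
    simp only [e, map_sum, map_mul]
    calc ∑ x ∈ A, (∑ y ∈ B, (starRingEnd ℂ) (kr S x y) * (starRingEnd ℂ) (v y)) *
          (∑ y ∈ B, kr S x y * v y)
        = ∑ x ∈ A, ∑ y ∈ B, ∑ y' ∈ B, ((starRingEnd ℂ) (v y) * v y') *
            ((starRingEnd ℂ) (kr S x y) * kr S x y') := by
          refine Finset.sum_congr rfl fun x _ => ?_
          rw [Finset.sum_mul_sum]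
          exact Finset.sum_congr rfl fun y _ => Finset.sum_congr rfl fun y' _ => by ring
      _ = ∑ y ∈ B, ∑ y' ∈ B, ((starRingEnd ℂ) (v y) * v y') *
            ∑ x ∈ A, ((starRingEnd ℂ) (kr S x y) * kr S x y') := by
          rw [Finset.sum_comm]
          refine Finset.sum_congr rfl fun y _ => ?_
          rw [Finset.sum_comm]
          exact Finset.sum_congr rfl fun y' _ => by rw [Finset.mul_sum]
      _ = ∑ y ∈ B, (starRingEnd ℂ) (v y) * v y := by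
          refine Finset.sum_congr rfl fun y hy => ?_
          rw [Finset.sum_congr rfl fun y' _ => by rw [unit_fin hS y y' (h y hy)]]
          simp only [mul_ite, mul_one, mul_zero]
          rw [Finset.sum_ite_eq, if_pos hy]
  exact_mod_cast key

theorem contr_fin (v : (Fin d → ℤ) → ℂ) (A B : Finset (Fin d → ℤ)) :
    ∑ x ∈ A, ‖∑ y ∈ B, kr S x y * v y‖ ^ 2 ≤ ∑ y ∈ B, ‖v y‖ ^ 2 := by
  rw [← iso_fin hS v (A := A ∪ B.biUnion (nb L)) (B := B) (fun y hy =>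
    (Finset.subset_biUnion_of_mem (nb L) hy).trans Finset.subset_union_right)]
  exact Finset.sum_le_sum_of_subset_of_nonneg Finset.subset_union_left fun _ _ _ => sq_nonneg _

/-- square summability is preserved -/
theorem S_sq {u : (Fin d → ℤ) → ℂ} (hu : SqSummable u) (A : Finset (Fin d → ℤ)) :
    ∑ x ∈ A, ‖S u x‖ ^ 2 ≤ ∑' x, ‖u x‖ ^ 2 := by
  have h1 : ∀ x ∈ A, S u x = ∑ y ∈ A.biUnion (nb L), kr S x y * u y := fun x hx =>
    S_apply hS u x (Finset.subset_biUnion_of_mem (nb L) hx)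
  rw [Finset.sum_congr rfl fun x hx => by rw [h1 x hx]]
  refine (contr_fin hS u A _).trans ?_
  exact hu.sum_le_tsum _ fun _ _ => sq_nonneg _

end

/-- `u ↦ p S u` -/
noncomputable def Uo (S : ((Fin d → ℤ) → ℂ) →ₗ[ℂ] ((Fin d → ℤ) → ℂ)) (p : (Fin d → ℤ) → ℂ)
    (u : (Fin d → ℤ) → ℂ) (x : Fin d → ℤ) : ℂ := p x * S u x

/-- the compression to a box -/
noncomputable def kN (S : ((Fin d → ℤ) → ℂ) →ₗ[ℂ] ((Fin d → ℤ) → ℂ)) (N : ℕ) :
    Matrix (Bx d N) (Bx d N) ℂ := fun x y => kr S x.1 y.1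

theorem kN_mulVec (S : ((Fin d → ℤ) → ℂ) →ₗ[ℂ] ((Fin d → ℤ) → ℂ)) (N : ℕ) (v : (Fin d → ℤ) → ℂ)
    (x : Bx d N) : (kN S N).mulVec (fun y => v y.1) x = ∑ y ∈ Bx d N, kr S x.1 y * v y := by
  unfold Matrix.mulVec dotProduct kN
  exact Finset.sum_coe_sort (Bx d N) (fun y => kr S x.1 y * v y)

theorem ext_fn {N : ℕ} (v : Bx d N → ℂ) : ∃ V : (Fin d → ℤ) → ℂ, (fun y : Bx d N => V y.1) = v := by
  classical
  refine ⟨fun x => if h : x ∈ Bx d N then v ⟨x, h⟩ else 0, ?_⟩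
  funext y
  simp only
  rw [dif_pos y.2]

section
variable {L : ℕ} {S : ((Fin d → ℤ) → ℂ) →ₗ[ℂ] ((Fin d → ℤ) → ℂ)} (hS : Hop L S)
include hS

theorem kN_con (N : ℕ) : Con (kN S N) where
  symm x y := hS.symm x.1 y.1
  contr v := by
    obtain ⟨V, rfl⟩ := ext_fn v
    simp only [kN_mulVec]
    rw [Finset.sum_coe_sort (Bx d N) (fun x => ‖∑ y ∈ Bx d N, kr S x y * V y‖ ^ 2),
      Finset.sum_coe_sort (Bx d N) (fun x => ‖V x‖ ^ 2)]
    exact contr_fin hS V _ _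

theorem kN_iso {N M : ℕ} (hN : M + L ≤ N) (v : Bx d N → ℂ) (hv : ∀ x : Bx d N, x.1 ∉ Bx d M → v x = 0) :
    ∑ x, ‖(kN S N).mulVec v x‖ ^ 2 = ∑ x, ‖v x‖ ^ 2 := by
  classical
  obtain ⟨V, rfl⟩ := ext_fn v
  simp only at hv
  simp only [kN_mulVec]
  rw [Finset.sum_coe_sort (Bx d N) (fun x => ‖∑ y ∈ Bx d N, kr S x y * V y‖ ^ 2),
    Finset.sum_coe_sort (Bx d N) (fun x => ‖V x‖ ^ 2)]
  have hsub : Bx d M ⊆ Bx d N := Bx_mono d (by omega)
  have h1 : ∀ x, ∑ y ∈ Bx d N, kr S x y * V y = ∑ y ∈ Bx d M, kr S x y * V y := by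
    intro x
    symm
    refine Finset.sum_subset hsub fun y hy hy2 => ?_
    rw [hv ⟨y, hy⟩ hy2, mul_zero]
  simp only [h1]
  rw [iso_fin hS V (A := Bx d N) (B := Bx d M)]
  · refine Finset.sum_subset hsub fun y hy hy2 => ?_
    rw [hv ⟨y, hy⟩ hy2]
    simp
  · intro y hy w hw
    rw [mem_Bx] at hy ⊢
    rw [mem_nb] at hw
    intro i
    have h2 := hy i
    have h3 := abs_le.1 (hw i)
    have h4 : (M : ℤ) + L ≤ N := by exact_mod_cast hN
    constructor <;> linarith [h2.1, h2.2, h3.1, h3.2]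

variable {p : (Fin d → ℤ) → ℂ} (hp : ∀ x, ‖p x‖ ≤ 1)
include hp

theorem U_sum {u : (Fin d → ℤ) → ℂ} (hu : SqSummable u) (A : Finset (Fin d → ℤ)) :
    ∑ x ∈ A, ‖Uo S p u x‖ ^ 2 ≤ ∑' x, ‖u x‖ ^ 2 := by
  refine le_trans (Finset.sum_le_sum fun x _ => ?_) (S_sq hS hu A)
  unfold Uo
  rw [norm_mul, mul_pow]
  have : ‖p x‖ ^ 2 ≤ 1 := pow_le_one₀ (norm_nonneg _) (hp x)
  nlinarith [sq_nonneg ‖S u x‖]

theorem U_sq {u : (Fin d → ℤ) → ℂ} (hu : SqSummable u) : SqSummable (Uo S p u) :=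
  summable_of_sum_le (fun _ => sq_nonneg _) fun A => U_sum hS hp hu A

theorem U_le {u : (Fin d → ℤ) → ℂ} (hu : SqSummable u) :
    ∑' x, ‖Uo S p u x‖ ^ 2 ≤ ∑' x, ‖u x‖ ^ 2 :=
  (U_sq hS hp hu).tsum_le_of_sum_le fun A => U_sum hS hp hu A

theorem U_iter_sq {u : (Fin d → ℤ) → ℂ} (hu : SqSummable u) (n : ℕ) : SqSummable ((Uo S p)^[n] u) := by
  induction n with
  | zero => exact hu
  | succ n ih =>
    rw [Function.iterate_succ_apply']
    exact U_sq hS hp ih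

/-- one step: the difference between finite and infinite volume -/
theorem step_diff {h : (Fin d → ℤ) → ℂ} (hh : SqSummable h) (N : ℕ) :
    ∑ x : Bx d N, ‖(TT (kN S N) (fun y => p y.1)).mulVec (fun y => h y.1) x - Uo S p h x.1‖ ^ 2 ≤
      ∑' y, ‖h y‖ ^ 2 - ∑ y ∈ Bx d N, ‖h y‖ ^ 2 := by
  classical
  set B : Finset (Fin d → ℤ) := (Bx d N).biUnion (nb L) \ Bx d N with hB
  have h1 : ∀ x : Bx d N, (TT (kN S N) (fun y => p y.1)).mulVec (fun y => h y.1) x - Uo S p h x.1 =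
      -(p x.1 * ∑ y ∈ B, kr S x.1 y * h y) := by
    intro x
    rw [TT_mulVec, kN_mulVec]
    unfold Uo
    rw [S_apply hS h x.1 (A := (Bx d N).biUnion (nb L) ∪ Bx d N)
      ((Finset.subset_biUnion_of_mem (nb L) x.2).trans Finset.subset_union_left)]
    have h2 : (Bx d N).biUnion (nb L) ∪ Bx d N = B ∪ Bx d N := by
      rw [hB, Finset.sdiff_union_self_eq_union]
    rw [h2, Finset.sum_union (by rw [hB]; exact Finset.sdiff_disjoint)]
    ring
  calc ∑ x : Bx d N, ‖(TT (kN S N) (fun y => p y.1)).mulVec (fun y => h y.1) x - Uo S p h x.1‖ ^ 2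
      ≤ ∑ x : Bx d N, ‖∑ y ∈ B, kr S x.1 y * h y‖ ^ 2 := by
        refine Finset.sum_le_sum fun x _ => ?_
        rw [h1 x, norm_neg, norm_mul, mul_pow]
        have : ‖p x.1‖ ^ 2 ≤ 1 := pow_le_one₀ (norm_nonneg _) (hp x.1)
        nlinarith [sq_nonneg ‖∑ y ∈ B, kr S x.1 y * h y‖]
    _ = ∑ x ∈ Bx d N, ‖∑ y ∈ B, kr S x y * h y‖ ^ 2 :=
        Finset.sum_coe_sort (Bx d N) (fun x => ‖∑ y ∈ B, kr S x y * h y‖ ^ 2)
    _ ≤ ∑ y ∈ B, ‖h y‖ ^ 2 := contr_fin hS h _ _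
    _ ≤ _ := sum_le_tail hh _ _ (by rw [hB]; exact Finset.sdiff_disjoint)

/-- `n` steps -/
theorem iter_diff {g : (Fin d → ℤ) → ℂ} (hg : SqSummable g) (n : ℕ) :
    Tendsto (fun N => ∑ x : Bx d N, ‖(TT (kN S N) (fun y => p y.1) ^ n).mulVec (fun y => g y.1) x -
      (Uo S p)^[n] g x.1‖ ^ 2) atTop (𝓝 0) := by
  induction n with
  | zero => simp
  | succ n ih =>
    set h := (Uo S p)^[n] g with hh
    have hsq : SqSummable h := U_iter_sq hS hp hg n
    have h1 := (ih.const_mul 2).add ((tail_tendsto hsq).const_mul 2)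
    rw [mul_zero, add_zero] at h1
    refine squeeze_zero (fun N => Finset.sum_nonneg fun _ _ => sq_nonneg _) (fun N => ?_) h1
    set T := TT (kN S N) (fun y => p y.1) with hT
    set w := (T ^ n).mulVec (fun y : Bx d N => g y.1) with hw
    have e1 : ∀ x : Bx d N, (T ^ (n + 1)).mulVec (fun y => g y.1) x - (Uo S p)^[n + 1] g x.1 =
        T.mulVec (fun y => w y - h y.1) x + (T.mulVec (fun y => h y.1) x - Uo S p h x.1) := by
      intro x
      rw [pow_succ', ← Matrix.mulVec_mulVec, Function.iterate_succ_apply', ← hh]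
      have : (fun y : Bx d N => w y - h y.1) = w - fun y => h y.1 := rfl
      rw [this, Matrix.mulVec_sub, Pi.sub_apply]
      ring
    have e2 := step_diff hS hp hsq N
    have e3 := TT_contr (kN_con hS N) (ζ := fun y : Bx d N => p y.1) (fun x => hp x.1)
      (fun y : Bx d N => w y - h y.1)
    calc ∑ x : Bx d N, ‖(T ^ (n + 1)).mulVec (fun y => g y.1) x - (Uo S p)^[n + 1] g x.1‖ ^ 2
        ≤ ∑ x : Bx d N, (2 * ‖T.mulVec (fun y => w y - h y.1) x‖ ^ 2 +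
            2 * ‖T.mulVec (fun y => h y.1) x - Uo S p h x.1‖ ^ 2) := by
          refine Finset.sum_le_sum fun x _ => ?_
          rw [e1 x]
          have := norm_add_le (T.mulVec (fun y => w y - h y.1) x)
            (T.mulVec (fun y => h y.1) x - Uo S p h x.1)
          nlinarith [norm_nonneg (T.mulVec (fun y => w y - h y.1) x + (T.mulVec (fun y => h y.1) x -
            Uo S p h x.1)), sq_nonneg (‖T.mulVec (fun y => w y - h y.1) x‖ -
            ‖T.mulVec (fun y => h y.1) x - Uo S p h x.1‖), norm_nonneg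
            (T.mulVec (fun y => w y - h y.1) x), norm_nonneg (T.mulVec (fun y => h y.1) x -
            Uo S p h x.1)]
      _ = 2 * ∑ x : Bx d N, ‖T.mulVec (fun y => w y - h y.1) x‖ ^ 2 +
            2 * ∑ x : Bx d N, ‖T.mulVec (fun y => h y.1) x - Uo S p h x.1‖ ^ 2 := by
          rw [Finset.sum_add_distrib, Finset.mul_sum, Finset.mul_sum]
      _ ≤ _ := by
          have h5 : ∑ x : Bx d N, ‖T.mulVec (fun y => w y - h y.1) x‖ ^ 2 ≤
            ∑ x : Bx d N, ‖w x - h x.1‖ ^ 2 := e3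
          linarith

/-- moments in the box -/
noncomputable def cN (S : ((Fin d → ℤ) → ℂ) →ₗ[ℂ] ((Fin d → ℤ) → ℂ)) (p g : (Fin d → ℤ) → ℂ)
    (n N : ℕ) : ℂ :=
  ∑ x : Bx d N, (starRingEnd ℂ) (g x.1) *
    (TT (kN S N) (fun y => p y.1) ^ n).mulVec (fun y => g y.1) x

/-- moments -/
noncomputable def cI (S : ((Fin d → ℤ) → ℂ) →ₗ[ℂ] ((Fin d → ℤ) → ℂ)) (p g : (Fin d → ℤ) → ℂ)
    (n : ℕ) : ℂ := ∑' x, (starRingEnd ℂ) (g x) * (Uo S p)^[n] g x

theorem cN_tendsto {g : (Fin d → ℤ) → ℂ} (hg : SqSummable g) (n : ℕ) :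
    Tendsto (fun N => cN S p g n N) atTop (𝓝 (cI S p g n)) := by
  set h := (Uo S p)^[n] g with hh
  have hsq : SqSummable h := U_iter_sq hS hp hg n
  have hsum : Summable fun x => (starRingEnd ℂ) (g x) * h x := by
    refine Summable.of_norm_bounded (g := fun x => (‖g x‖ ^ 2 + ‖h x‖ ^ 2)) (hg.add hsq) fun x => ?_
    rw [norm_mul, Complex.norm_conj]
    nlinarith [sq_nonneg (‖g x‖ - ‖h x‖), norm_nonneg (g x), norm_nonneg (h x)]
  have h1 : Tendsto (fun N => ∑ x ∈ Bx d N, (starRingEnd ℂ) (g x) * h x) atTop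
      (𝓝 (cI S p g n)) := hsum.hasSum.comp (Bx_tendsto d)
  set G : ℝ := ∑' y, ‖g y‖ ^ 2 with hG
  have h2 : ∀ N, ‖cN S p g n N - ∑ x ∈ Bx d N, (starRingEnd ℂ) (g x) * h x‖ ≤
      Real.sqrt (G * ∑ x : Bx d N, ‖(TT (kN S N) (fun y => p y.1) ^ n).mulVec (fun y => g y.1) x -
      (Uo S p)^[n] g x.1‖ ^ 2) := by
    intro N
    rw [← Finset.sum_coe_sort (Bx d N) (fun x => (starRingEnd ℂ) (g x) * h x)]
    unfold cN
    rw [← Finset.sum_sub_distrib]
    refine Real.le_sqrt_of_sq_le ?_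
    have e9 : ‖∑ x : Bx d N, ((starRingEnd ℂ) (g x.1) *
        (TT (kN S N) (fun y => p y.1) ^ n).mulVec (fun y => g y.1) x -
        (starRingEnd ℂ) (g x.1) * h x.1)‖ ≤
        ∑ x : Bx d N, ‖g x.1‖ * ‖(TT (kN S N) (fun y => p y.1) ^ n).mulVec (fun y => g y.1) x -
          (Uo S p)^[n] g x.1‖ := by
      refine (norm_sum_le _ _).trans (Finset.sum_le_sum fun x _ => ?_)
      rw [← mul_sub, norm_mul, Complex.norm_conj]
    refine (pow_le_pow_left₀ (norm_nonneg _) e9 2).trans ?_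
    refine (Finset.sum_mul_sq_le_sq_mul_sq _ _ _).trans ?_
    refine mul_le_mul_of_nonneg_right ?_ (Finset.sum_nonneg fun _ _ => sq_nonneg _)
    rw [Finset.sum_coe_sort (Bx d N) (fun x => ‖g x‖ ^ 2)]
    exact hg.sum_le_tsum _ fun _ _ => sq_nonneg _
  have h3 : Tendsto (fun N => Real.sqrt (G * ∑ x : Bx d N,
      ‖(TT (kN S N) (fun y => p y.1) ^ n).mulVec (fun y => g y.1) x -
      (Uo S p)^[n] g x.1‖ ^ 2)) atTop (𝓝 0) := by
    have h5 := (iter_diff hS hp hg n).const_mul G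
    rw [mul_zero] at h5
    have := (Real.continuous_sqrt.tendsto 0).comp h5
    rwa [Real.sqrt_zero] at this
  have h6 := squeeze_zero_norm h2 h3
  have := h6.add h1
  simpa using this

theorem cN_le {g : (Fin d → ℤ) → ℂ} (hg : SqSummable g) (n N : ℕ) :
    ‖cN S p g n N‖ ≤ ∑' x, ‖g x‖ ^ 2 := by
  refine (mom_le (kN_con hS N) (ζ := fun y : Bx d N => p y.1) (fun x => hp x.1) _ n).trans ?_
  rw [Finset.sum_coe_sort (Bx d N) (fun x => ‖g x‖ ^ 2)]
  exact hg.sum_le_tsum _ fun _ _ => sq_nonneg _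

theorem cI_le {g : (Fin d → ℤ) → ℂ} (hg : SqSummable g) (n : ℕ) :
    ‖cI S p g n‖ ≤ ∑' x, ‖g x‖ ^ 2 :=
  le_of_tendsto (cN_tendsto hS hp hg n).norm (Eventually.of_forall fun N => cN_le hS hp hg n N)

end

end Pool.Agent.L0h56.KA
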