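import Pool.Agent.L0h56.KA.Comp

/-!
Background potentials, and the main theorem for the kicked model.
-/

set_option autoImplicit false
set_option linter.unusedSectionVars false
set_option linter.unusedVariables false

open scoped BigOperators Topology ENNReal
open Complex MeasureTheory Filter Pool.Agent.L0h56.CS

namespace Pool.Agent.L0h56.KA

variable {d : ℕ}

/-- multiplication by a function -/
noncomputable def dia (D : (Fin d → ℤ) → ℂ) : ((Fin d → ℤ) → ℂ) →ₗ[ℂ] ((Fin d → ℤ) → ℂ) where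
  toFun u x := D x * u x
  map_add' u v := by
    funext x
    simp only [Pi.add_apply]
    ring
  map_smul' a u := by
    funext x
    simp only [Pi.smul_apply, smul_eq_mul, RingHom.id_apply]
    ring

theorem dia_apply (D u : (Fin d → ℤ) → ℂ) (x : Fin d → ℤ) : dia D u x = D x * u x := rfl

theorem kr_dia (D : (Fin d → ℤ) → ℂ) (x y : Fin d → ℤ) : kr (dia D) x y = if x = y then D x else 0 := by
  unfold kr
  rw [dia_apply, Pi.single_apply]
  simp

theorem dia_hu {D : (Fin d → ℤ) → ℂ} (hD : ∀ x, ‖D x‖ = 1) : HU 0 (dia D) (dia D) where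
  range u x h := by
    rw [dia_apply, h x fun i => by simp, mul_zero]
  range' u x h := by
    rw [dia_apply, h x fun i => by simp, mul_zero]
  tr x y := by
    rw [kr_dia, kr_dia]
    by_cases h : x = y
    · subst h; rfl
    · rw [if_neg h, if_neg (Ne.symm h)]
  unit x y := by
    simp only [kr_dia]
    rw [tsum_eq_single x]
    · by_cases h : x = y
      · subst h
        simp only [if_true]
        rw [← Complex.normSq_eq_conj_mul_self, Complex.normSq_eq_norm_sq, hD]
        simp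
      · simp [h]
    · intro b hb
      simp [hb]

theorem hop_hu {L : ℕ} {S : ((Fin d → ℤ) → ℂ) →ₗ[ℂ] ((Fin d → ℤ) → ℂ)} (hS : Hop L S) : HU L S S where
  range := hS.range
  range' := hS.range
  tr x y := hS.symm x y
  unit := hS.unit

theorem hop_mono {L M : ℕ} (h : L ≤ M) {S : ((Fin d → ℤ) → ℂ) →ₗ[ℂ] ((Fin d → ℤ) → ℂ)} (hS : Hop L S) :
    Hop M S where
  range := rg_mono h hS.range
  symm := hS.symm
  unit := hS.unit

/-- gauge transformation -/
theorem iter_gauge (S : ((Fin d → ℤ) → ℂ) →ₗ[ℂ] ((Fin d → ℤ) → ℂ)) (D D' p : (Fin d → ℤ) → ℂ)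
    (hDD : ∀ x, D x * D' x = 1) (g : (Fin d → ℤ) → ℂ) (n : ℕ) (x : Fin d → ℤ) :
    (Uo S (fun x => D x * D x * p x))^[n] g x =
      D x * (Uo (dia D * S * dia D) p)^[n] (fun x => D' x * g x) x := by
  have h : ∀ n, (Uo S (fun x => D x * D x * p x))^[n] g =
      fun x => D x * (Uo (dia D * S * dia D) p)^[n] (fun x => D' x * g x) x := by
    intro n
    induction n with
    | zero =>
      funext x
      simp only [Function.iterate_zero, id_eq]
      rw [← mul_assoc, hDD, one_mul]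
    | succ n ih =>
      rw [Function.iterate_succ_apply', ih]
      funext x
      rw [Function.iterate_succ_apply']
      set v := (Uo (dia D * S * dia D) p)^[n] (fun x => D' x * g x) with hv
      have e1 : (fun x => D x * v x) = dia D v := rfl
      have e2 : (dia D * S * dia D) v x = D x * S (dia D v) x := rfl
      unfold Uo
      rw [e1, e2]
      ring
  exact congrFun (h n) x

theorem spec_gauge (S : ((Fin d → ℤ) → ℂ) →ₗ[ℂ] ((Fin d → ℤ) → ℂ)) (D D' p : (Fin d → ℤ) → ℂ)
    (hDD : ∀ x, D x * D' x = 1) (hD : ∀ x, (starRingEnd ℂ) (D' x) = D x) (g : (Fin d → ℤ) → ℂ)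
    (m : Measure ℝ) :
    IsSpec (Uo S (fun x => D x * D x * p x)) g m ↔
      IsSpec (Uo (dia D * S * dia D) p) (fun x => D' x * g x) m := by
  unfold IsSpec
  have h : ∀ n : ℕ, ∑' x, (starRingEnd ℂ) (g x) * (Uo S (fun x => D x * D x * p x))^[n] g x =
      ∑' x, (starRingEnd ℂ) (D' x * g x) * (Uo (dia D * S * dia D) p)^[n] (fun x => D' x * g x) x := by
    intro n
    refine tsum_congr fun x => ?_
    rw [iter_gauge S D D' p hDD g n x, map_mul, hD]
    ring
  simp only [h]

/-- **Main theorem** for the kicked model. -/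
theorem main {c : ℝ} (hc : 0 < c) {k : ℕ} (hk : 0 < k) {L : ℕ}
    {S : ((Fin 2 → ℤ) → ℂ) →ₗ[ℂ] ((Fin 2 → ℤ) → ℂ)} (hS : Hop L S) (W : (Fin 2 → ℤ) → ℝ) :
    ∀ᵐ ω ∂(PP (unif c) (Fin 2 → ℤ)), ∀ g : (Fin 2 → ℤ) → ℂ, SqSummable g →
      (∃ μ : Measure ℝ, IsSpec (Uo S fun x => kick (k * Real.pi / c) (W x + ω x)) g μ) ∧
      ∀ μ : Measure ℝ, IsSpec (Uo S fun x => kick (k * Real.pi / c) (W x + ω x)) g μ → μ ⟂ₘ volume := by
  set τ : ℝ := k * Real.pi / c with hτ
  set D : (Fin 2 → ℤ) → ℂ := fun x => kick τ (W x / 2) with hD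
  set D' : (Fin 2 → ℤ) → ℂ := fun x => kick τ (-(W x / 2)) with hD'
  have hDn : ∀ x, ‖D x‖ = 1 := fun x => norm_kick _ _
  have hDn' : ∀ x, ‖D' x‖ = 1 := fun x => norm_kick _ _
  have hDD : ∀ x, D x * D' x = 1 := by
    intro x
    rw [hD, hD']
    unfold kick
    simp only
    rw [← Complex.exp_add]
    have : -((τ : ℂ) * ((W x / 2 : ℝ) : ℂ) * I) + -(τ * ((-(W x / 2) : ℝ) : ℂ) * I) = 0 := by
      push_cast; ring
    rw [this, Complex.exp_zero]
  have hDc : ∀ x, (starRingEnd ℂ) (D' x) = D x := by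
    intro x
    rw [hD, hD']
    unfold kick
    simp only
    rw [← Complex.exp_conj]
    congr 1
    rw [map_neg, map_mul, map_mul, Complex.conj_ofReal, Complex.conj_ofReal, Complex.conj_I]
    push_cast
    ring
  have hfun : ∀ ω : (Fin 2 → ℤ) → ℝ, (fun x => kick τ (W x + ω x)) = fun x => D x * D x * pz τ ω x := by
    intro ω
    funext x
    rw [hD]
    unfold pz kick
    simp only
    rw [← Complex.exp_add, ← Complex.exp_add]
    congr 1
    push_cast
    ring
  have hS' : Hop (L + 1) (dia D * S * dia D) := by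
    have h1 := ((dia_hu hDn).comp (hop_hu hS)).comp (dia_hu hDn)
    have h2 : HU (0 + L + 0) (dia D * S * dia D) (dia D * S * dia D) := by
      have : dia D * (S * dia D) = dia D * S * dia D := (mul_assoc _ _ _).symm
      rw [this] at h1
      exact h1
    exact hop_mono (by omega) h2.hop
  have h := as_sing (Nat.succ_pos L) hS' (ph_unif hc hk)
  filter_upwards [h] with ω hω g hg
  have hg' : SqSummable fun x => D' x * g x := by
    unfold SqSummable at hg ⊢
    refine hg.congr fun x => ?_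
    rw [norm_mul, hDn', one_mul]
  rw [hfun ω]
  refine ⟨?_, fun μ hμ => ?_⟩
  · obtain ⟨μ, hμ⟩ := exists_spec hS' (p := pz τ ω) (fun x => (norm_kick τ _).le) hg'
    exact ⟨μ, (spec_gauge S D D' (pz τ ω) hDD hDc g μ).2 hμ⟩
  · exact hω _ hg' μ ((spec_gauge S D D' (pz τ ω) hDD hDc g μ).1 hμ)

/-- one Strang step of `e^{itΔ}` -/
noncomputable def strang (t : ℝ) : ((Fin 2 → ℤ) → ℂ) →ₗ[ℂ] ((Fin 2 → ℤ) → ℂ) :=
  bond 0 0 (t / 2) * bond 0 1 (t / 2) * bond 1 0 (t / 2) * bond 1 1 t * bond 1 0 (t / 2) *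
    bond 0 1 (t / 2) * bond 0 0 (t / 2)

theorem strang_hop (t : ℝ) (m : ℕ) : Hop (7 * m) (strang t ^ m) := by
  have h0 : ∀ i : Fin 2, ∀ s : ℝ, HU 1 (bond i 0 s) (bond i 0 s) := fun i s => bond_hu (Or.inl rfl) s
  have h1 : ∀ i : Fin 2, ∀ s : ℝ, HU 1 (bond i 1 s) (bond i 1 s) := fun i s => bond_hu (Or.inr rfl) s
  have h := ((((((h0 0 (t / 2)).comp (h1 0 (t / 2))).comp (h0 1 (t / 2))).comp (h1 1 t)).comp
    (h0 1 (t / 2))).comp (h1 0 (t / 2))).comp (h0 0 (t / 2))
  have h2 : HU 7 (strang t) (strang t) := by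
    have e : bond 0 0 (t / 2) * (bond 0 1 (t / 2) * (bond 1 0 (t / 2) * (bond 1 1 t *
        (bond 1 0 (t / 2) * (bond 0 1 (t / 2) * bond 0 0 (t / 2)))))) = strang t := by
      unfold strang
      simp only [mul_assoc]
    rw [e] at h
    exact h
  exact (h2.pow m).hop

end Pool.Agent.L0h56.KA
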