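import Mathlib

/-!
Finite symmetric contractions with phases: `Q = K (1 - z D K)⁻¹`.
-/

set_option autoImplicit false
set_option linter.unusedSectionVars false
set_option linter.unusedVariables false

open scoped BigOperators
open Complex

namespace Pool.Agent.L0h56.KA

variable {ι : Type*} [Fintype ι] [DecidableEq ι]

/-- symmetric contraction -/
structure Con (K : Matrix ι ι ℂ) : Prop where
  symm : ∀ x y, K x y = K y x
  contr : ∀ v : ι → ℂ, ∑ x, ‖K.mulVec v x‖ ^ 2 ≤ ∑ x, ‖v x‖ ^ 2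

/-- `1 - z D K` -/
noncomputable def AA (K : Matrix ι ι ℂ) (z : ℂ) (ζ : ι → ℂ) : Matrix ι ι ℂ :=
  1 - Matrix.diagonal (fun x => z * ζ x) * K

theorem AA_mulVec (K : Matrix ι ι ℂ) (z : ℂ) (ζ v : ι → ℂ) (x : ι) :
    (AA K z ζ).mulVec v x = v x - z * ζ x * K.mulVec v x := by
  unfold AA
  rw [Matrix.sub_mulVec, Matrix.one_mulVec, ← Matrix.mulVec_mulVec, Pi.sub_apply,
    Matrix.mulVec_diagonal]

theorem det_ne {K : Matrix ι ι ℂ} (hK : Con K) {z : ℂ} (hz : ‖z‖ < 1) {ζ : ι → ℂ}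
    (hζ : ∀ x, ‖ζ x‖ ≤ 1) : (AA K z ζ).det ≠ 0 := by
  intro h0
  obtain ⟨v, hv, hMv⟩ := Matrix.exists_mulVec_eq_zero_iff.2 h0
  have h1 : ∀ x, v x = z * ζ x * K.mulVec v x := by
    intro x
    have := congrFun hMv x
    rw [AA_mulVec, Pi.zero_apply] at this
    linear_combination this
  have h2 : ∑ x, ‖v x‖ ^ 2 ≤ ‖z‖ ^ 2 * ∑ x, ‖v x‖ ^ 2 := by
    calc ∑ x, ‖v x‖ ^ 2 ≤ ∑ x, ‖z‖ ^ 2 * ‖K.mulVec v x‖ ^ 2 := by
          refine Finset.sum_le_sum fun x _ => ?_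
          conv_lhs => rw [h1 x]
          rw [norm_mul, norm_mul, mul_pow, mul_pow]
          have h3 : ‖ζ x‖ ^ 2 ≤ 1 := pow_le_one₀ (norm_nonneg _) (hζ x)
          have h4 : ‖z‖ ^ 2 * ‖ζ x‖ ^ 2 ≤ ‖z‖ ^ 2 * 1 := mul_le_mul_of_nonneg_left h3 (sq_nonneg _)
          nlinarith [sq_nonneg ‖K.mulVec v x‖]
      _ = ‖z‖ ^ 2 * ∑ x, ‖K.mulVec v x‖ ^ 2 := by rw [Finset.mul_sum]
      _ ≤ _ := mul_le_mul_of_nonneg_left (hK.contr v) (sq_nonneg _)
  have h5 : ‖z‖ ^ 2 < 1 := pow_lt_one₀ (norm_nonneg _) hz two_ne_zero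
  have h6 : ∑ x, ‖v x‖ ^ 2 = 0 := by
    have h7 : 0 ≤ ∑ x, ‖v x‖ ^ 2 := Finset.sum_nonneg fun _ _ => sq_nonneg _
    nlinarith
  apply hv
  funext x
  have h8 := (Finset.sum_eq_zero_iff_of_nonneg (fun x _ => sq_nonneg ‖v x‖)).1 h6 x
    (Finset.mem_univ x)
  simpa using h8

/-- `K (1 - z D K)⁻¹` -/
noncomputable def QQ (K : Matrix ι ι ℂ) (z : ℂ) (ζ : ι → ℂ) : Matrix ι ι ℂ := K * (AA K z ζ)⁻¹

section
variable {K : Matrix ι ι ℂ} (hK : Con K) {z : ℂ} (hz : ‖z‖ < 1) {ζ : ι → ℂ} (hζ : ∀ x, ‖ζ x‖ ≤ 1)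
include hK hz hζ

theorem AA_mul_inv : AA K z ζ * (AA K z ζ)⁻¹ = 1 :=
  Matrix.mul_nonsing_inv _ (isUnit_iff_ne_zero.2 (det_ne hK hz hζ))

theorem AA_inv_mul : (AA K z ζ)⁻¹ * AA K z ζ = 1 :=
  Matrix.nonsing_inv_mul _ (isUnit_iff_ne_zero.2 (det_ne hK hz hζ))

theorem QQ_symm (x y : ι) : QQ K z ζ x y = QQ K z ζ y x := by
  have hKt : K.transpose = K := by
    ext i j
    rw [Matrix.transpose_apply]
    exact hK.symm j i
  have h1 : K * AA K z ζ = (AA K z ζ).transpose * K := by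
    unfold AA
    rw [Matrix.transpose_sub, Matrix.transpose_one, Matrix.transpose_mul, Matrix.diagonal_transpose,
      hKt, Matrix.mul_sub, Matrix.sub_mul, Matrix.mul_one, Matrix.one_mul, Matrix.mul_assoc]
  have h2 : (QQ K z ζ).transpose = QQ K z ζ := by
    unfold QQ
    rw [Matrix.transpose_mul, hKt, Matrix.transpose_nonsing_inv]
    have hdet : IsUnit (AA K z ζ).transpose.det := by
      rw [Matrix.det_transpose]
      exact isUnit_iff_ne_zero.2 (det_ne hK hz hζ)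
    calc (AA K z ζ).transpose⁻¹ * K
        = (AA K z ζ).transpose⁻¹ * (K * (AA K z ζ * (AA K z ζ)⁻¹)) := by
          rw [AA_mul_inv hK hz hζ, Matrix.mul_one]
      _ = (AA K z ζ).transpose⁻¹ * ((AA K z ζ).transpose * K) * (AA K z ζ)⁻¹ := by
          rw [← h1]; simp only [Matrix.mul_assoc]
      _ = K * (AA K z ζ)⁻¹ := by
          rw [← Matrix.mul_assoc, Matrix.nonsing_inv_mul _ hdet, Matrix.one_mul]
  calc QQ K z ζ x y = (QQ K z ζ).transpose y x := rfl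
    _ = _ := by rw [h2]

theorem AA_update (y : ι) (u : ℂ) :
    AA K z (Function.update ζ y (ζ y + u)) = AA K z ζ - (z * u) • (Matrix.single y y (1 : ℂ) * K) := by
  unfold AA
  have h : Matrix.diagonal (fun x => z * Function.update ζ y (ζ y + u) x) =
      Matrix.diagonal (fun x => z * ζ x) + (z * u) • Matrix.single y y (1 : ℂ) := by
    ext i j
    rw [Matrix.add_apply, Matrix.smul_apply, Matrix.single_apply, Matrix.diagonal_apply,
      Matrix.diagonal_apply]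
    by_cases hij : i = j
    · subst hij
      by_cases hi : i = y
      · subst hi; simp; ring
      · rw [if_pos rfl, if_pos rfl, Function.update_of_ne hi, if_neg (by tauto)]
        simp
    · rw [if_neg hij, if_neg hij, if_neg (by intro h; exact hij (h.1.symm.trans h.2))]
      simp
  rw [h, Matrix.add_mul, Matrix.smul_mul]
  abel

theorem rank_one (y : ι) (u : ℂ) (hu : ‖ζ y + u‖ ≤ 1) (x a : ι) :
    QQ K z (Function.update ζ y (ζ y + u)) x a - QQ K z ζ x a =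
      z * u * QQ K z ζ x y * QQ K z (Function.update ζ y (ζ y + u)) y a := by
  have hζ' : ∀ x, ‖Function.update ζ y (ζ y + u) x‖ ≤ 1 := by
    intro x
    by_cases hx : x = y
    · subst hx; rw [Function.update_self]; exact hu
    · rw [Function.update_of_ne hx]; exact hζ x
  have h1 := AA_mul_inv hK hz hζ'
  have h2 := AA_inv_mul hK hz hζ
  have h3 : QQ K z (Function.update ζ y (ζ y + u)) - QQ K z ζ =
      QQ K z ζ * ((z * u) • Matrix.single y y (1 : ℂ)) * QQ K z (Function.update ζ y (ζ y + u)) := by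
    have e : ((z * u) • Matrix.single y y (1 : ℂ)) * K =
        AA K z ζ - AA K z (Function.update ζ y (ζ y + u)) := by
      rw [AA_update hK hz hζ, Matrix.smul_mul]; abel
    unfold QQ
    have e2 : K * (AA K z ζ)⁻¹ * ((z * u) • Matrix.single y y (1 : ℂ)) *
        (K * (AA K z (Function.update ζ y (ζ y + u)))⁻¹) = K * ((AA K z ζ)⁻¹ *
        (((z * u) • Matrix.single y y (1 : ℂ)) * K) * (AA K z (Function.update ζ y (ζ y + u)))⁻¹) := by
      simp only [Matrix.mul_assoc]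
    rw [e2, e, Matrix.mul_sub, Matrix.sub_mul, h2, Matrix.one_mul, Matrix.mul_assoc, h1,
      Matrix.mul_one, Matrix.mul_sub]
  have h4 := congrFun (congrFun h3 x) a
  rw [Matrix.sub_apply] at h4
  rw [h4, Matrix.mul_apply]
  have h5 : ∀ j, (QQ K z ζ * ((z * u) • Matrix.single y y (1 : ℂ))) x j =
      if j = y then z * u * QQ K z ζ x y else 0 := by
    intro j
    rw [Matrix.mul_apply, Finset.sum_eq_single y]
    · rw [Matrix.smul_apply, Matrix.single_apply]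
      by_cases hj : j = y
      · subst hj; simp; ring
      · rw [if_neg (by tauto), if_neg hj]; simp
    · intro b _ hb
      rw [Matrix.smul_apply, Matrix.single_apply, if_neg (by tauto)]; simp
    · intro h; exact absurd (Finset.mem_univ y) h
  simp only [h5, ite_mul, zero_mul, Finset.sum_ite_eq', Finset.mem_univ, if_true]

theorem one_sub_ne (y : ι) (u : ℂ) (hu : ‖ζ y + u‖ ≤ 1) : 1 - z * u * QQ K z ζ y y ≠ 0 := by
  intro h0
  have h1 := rank_one hK hz hζ y u hu y y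
  have h2 : QQ K z ζ y y = (1 - z * u * QQ K z ζ y y) *
      QQ K z (Function.update ζ y (ζ y + u)) y y := by
    linear_combination -h1
  rw [h0, zero_mul] at h2
  rw [h2, mul_zero, sub_zero] at h0
  exact one_ne_zero h0

/-- the change of `Q` -/
theorem QQ_update (y : ι) (u : ℂ) (hu : ‖ζ y + u‖ ≤ 1) (x a : ι) :
    QQ K z (Function.update ζ y (ζ y + u)) x a =
      QQ K z ζ x a + z * u * QQ K z ζ x y * QQ K z ζ y a / (1 - z * u * QQ K z ζ y y) := by
  have hne := one_sub_ne hK hz hζ y u hu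
  have h1 := rank_one hK hz hζ y u hu y a
  have h2 : QQ K z (Function.update ζ y (ζ y + u)) y a = QQ K z ζ y a / (1 - z * u * QQ K z ζ y y) := by
    rw [eq_div_iff hne]
    linear_combination h1
  have h3 := rank_one hK hz hζ y u hu x a
  rw [h2] at h3
  have h4 : z * u * QQ K z ζ x y * (QQ K z ζ y a / (1 - z * u * QQ K z ζ y y)) =
      z * u * QQ K z ζ x y * QQ K z ζ y a / (1 - z * u * QQ K z ζ y y) := by ring
  rw [h4] at h3
  linear_combination h3

/-- the solution `ψ` of `(1 - z D K) ψ = δ_a` -/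
theorem psi_eq (a x : ι) : (AA K z ζ)⁻¹ x a = (if x = a then 1 else 0) + z * ζ x * QQ K z ζ x a := by
  have h := AA_mul_inv hK hz hζ
  have h1 := congrFun (congrFun h x) a
  rw [Matrix.mul_apply, Matrix.one_apply] at h1
  have h2 := AA_mulVec K z ζ (fun y => (AA K z ζ)⁻¹ y a) x
  unfold Matrix.mulVec dotProduct at h2
  rw [h1] at h2
  have h3 : QQ K z ζ x a = ∑ j, K x j * (AA K z ζ)⁻¹ j a := by
    unfold QQ
    rw [Matrix.mul_apply]
  rw [h3]
  linear_combination -h2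

theorem norm_psi (a : ι) (ha : ζ a = 0) :
    ∑ x, ‖(AA K z ζ)⁻¹ x a‖ ^ 2 = 1 + ∑ x, ‖z‖ ^ 2 * ‖ζ x‖ ^ 2 * ‖QQ K z ζ x a‖ ^ 2 := by
  have h : ∀ x, ‖(AA K z ζ)⁻¹ x a‖ ^ 2 = (if x = a then 1 else 0) +
      ‖z‖ ^ 2 * ‖ζ x‖ ^ 2 * ‖QQ K z ζ x a‖ ^ 2 := by
    intro x
    rw [psi_eq hK hz hζ]
    by_cases hx : x = a
    · subst hx; rw [ha]; simp
    · rw [if_neg hx, if_neg hx, zero_add, zero_add, norm_mul, norm_mul, mul_pow, mul_pow]
  simp only [h]
  rw [Finset.sum_add_distrib]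
  simp

/-- loss of probability, inequality -/
theorem cons_le (a : ι) (ha : ζ a = 0) :
    ∑ x, (1 - ‖z‖ ^ 2 * ‖ζ x‖ ^ 2) * ‖QQ K z ζ x a‖ ^ 2 ≤ 1 := by
  have h1 := hK.contr (fun x => (AA K z ζ)⁻¹ x a)
  rw [norm_psi hK hz hζ a ha] at h1
  have h2 : ∀ x, K.mulVec (fun x => (AA K z ζ)⁻¹ x a) x = QQ K z ζ x a := by
    intro x
    unfold QQ Matrix.mulVec dotProduct
    rw [Matrix.mul_apply]
  simp only [h2] at h1
  have h3 : ∑ x, (1 - ‖z‖ ^ 2 * ‖ζ x‖ ^ 2) * ‖QQ K z ζ x a‖ ^ 2 =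
      ∑ x, ‖QQ K z ζ x a‖ ^ 2 - ∑ x, ‖z‖ ^ 2 * ‖ζ x‖ ^ 2 * ‖QQ K z ζ x a‖ ^ 2 := by
    rw [← Finset.sum_sub_distrib]
    exact Finset.sum_congr rfl fun x _ => by ring
  rw [h3]
  linarith

/-- loss of probability, equality if nothing leaks -/
theorem cons_eq (a : ι) (ha : ζ a = 0)
    (hl : ∑ x, ‖K.mulVec (fun x => (AA K z ζ)⁻¹ x a) x‖ ^ 2 = ∑ x, ‖(AA K z ζ)⁻¹ x a‖ ^ 2) :
    ∑ x, (1 - ‖z‖ ^ 2 * ‖ζ x‖ ^ 2) * ‖QQ K z ζ x a‖ ^ 2 = 1 := by
  rw [norm_psi hK hz hζ a ha] at hl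
  have h2 : ∀ x, K.mulVec (fun x => (AA K z ζ)⁻¹ x a) x = QQ K z ζ x a := by
    intro x
    unfold QQ Matrix.mulVec dotProduct
    rw [Matrix.mul_apply]
  simp only [h2] at hl
  have h3 : ∑ x, (1 - ‖z‖ ^ 2 * ‖ζ x‖ ^ 2) * ‖QQ K z ζ x a‖ ^ 2 =
      ∑ x, ‖QQ K z ζ x a‖ ^ 2 - ∑ x, ‖z‖ ^ 2 * ‖ζ x‖ ^ 2 * ‖QQ K z ζ x a‖ ^ 2 := by
    rw [← Finset.sum_sub_distrib]
    exact Finset.sum_congr rfl fun x _ => by ring
  rw [h3]
  linarith

end

/-- entries of the inverse are measurable -/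
theorem measurable_inv_aux (K : Matrix ι ι ℂ) (x y : ι) :
    Measurable fun q : ι → ℂ => (1 - Matrix.diagonal q * K)⁻¹ x y := by
  have hc : Continuous fun q : ι → ℂ => 1 - Matrix.diagonal q * K := by
    refine continuous_matrix fun i j => ?_
    simp only [Matrix.sub_apply, Matrix.diagonal_mul]
    exact continuous_const.sub ((continuous_apply i).mul continuous_const)
  simp only [Matrix.inv_def, Matrix.smul_apply, Ring.inverse_eq_inv', smul_eq_mul]
  have h1 : Continuous fun q : ι → ℂ => (1 - Matrix.diagonal q * K).det := hc.matrix_det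
  have h2 : Continuous fun q : ι → ℂ => (1 - Matrix.diagonal q * K).adjugate x y :=
    (continuous_apply y).comp ((continuous_apply x).comp hc.matrix_adjugate)
  exact h1.measurable.inv.mul h2.measurable

/-- measurability -/
theorem measurable_QQ {Ω : Type*} [MeasurableSpace Ω] (K : Matrix ι ι ℂ) {z : Ω → ℂ}
    (hz : Measurable z) {ζ : Ω → ι → ℂ}
    (hζ : ∀ x, Measurable fun ω => ζ ω x) (x y : ι) : Measurable fun ω => QQ K (z ω) (ζ ω) x y := by
  have hp : Measurable fun (ω : Ω) (x : ι) => z ω * ζ ω x := measurable_pi_iff.2 fun i => hz.mul (hζ i)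
  have e : (fun ω => QQ K (z ω) (ζ ω) x y) =
      fun ω => ∑ i, K x i * (1 - Matrix.diagonal (fun x => z ω * ζ ω x) * K)⁻¹ i y := by
    funext ω
    unfold QQ AA
    rw [Matrix.mul_apply]
  rw [e]
  exact Finset.measurable_sum _ fun i _ =>
    measurable_const.mul ((measurable_inv_aux K i y).comp hp)

end Pool.Agent.L0h56.KA
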