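import Pool.Agent.L0h56.KA.Ex

/-!
Almost sure singularity in two dimensions.
-/

set_option autoImplicit false
set_option linter.unusedSectionVars false
set_option linter.unusedVariables false

open scoped BigOperators Topology ENNReal
open Complex MeasureTheory Filter Pool.Agent.L0h56.CS

namespace Pool.Agent.L0h56.KA

/-- the kick -/
noncomputable def kick (τ s : ℝ) : ℂ := Complex.exp (-(τ * s * I))

theorem norm_kick (τ s : ℝ) : ‖kick τ s‖ = 1 := by
  unfold kick
  have : -((τ : ℂ) * s * I) = ((-(τ * s) : ℝ) : ℂ) * I := by push_cast; ring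
  rw [this, Complex.norm_exp_ofReal_mul_I]

theorem meas_kick (τ : ℝ) : Measurable (kick τ) := by
  unfold kick
  exact (Continuous.measurable (by fun_prop))

theorem ph_unif {c : ℝ} (hc : 0 < c) {k : ℕ} (hk : 0 < k) : Ph (unif c) (kick (k * Real.pi / c)) where
  prob := unif_prob c hc
  meas := meas_kick _
  norm := norm_kick _
  mom n := by
    have hpi := Real.pi_pos
    unfold unif
    rw [integral_smul_measure]
    have h0 : ∫ s in Set.Icc (-c) c, kick (k * Real.pi / c) s ^ (n + 1) = 0 := by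
      rw [integral_Icc_eq_integral_Ioc, ← intervalIntegral.integral_of_le (by linarith)]
      set q : ℂ := -(((n + 1 : ℕ) : ℂ) * (k * Real.pi / c) * I) with hq
      have hcC : (c : ℂ) ≠ 0 := by exact_mod_cast hc.ne'
      have hq0 : q ≠ 0 := by
        rw [hq, neg_ne_zero]
        have h1 : (k : ℂ) ≠ 0 := by exact_mod_cast hk.ne'
        have h2 : (Real.pi : ℂ) ≠ 0 := by exact_mod_cast hpi.ne'
        have h3 : ((n + 1 : ℕ) : ℂ) ≠ 0 := by exact_mod_cast Nat.succ_ne_zero n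
        exact mul_ne_zero (mul_ne_zero h3 (div_ne_zero (mul_ne_zero h1 h2) hcC)) I_ne_zero
      have e1 : ∀ s : ℝ, kick (k * Real.pi / c) s ^ (n + 1) = Complex.exp (q * s) := by
        intro s
        unfold kick
        rw [← Complex.exp_nat_mul]
        congr 1
        rw [hq]
        push_cast
        ring
      simp only [e1]
      rw [integral_exp_mul_complex hq0]
      have e2 : q * ((-c : ℝ) : ℂ) = q * (c : ℝ) + ((((n + 1) * k : ℕ) : ℤ) : ℂ) * (2 * Real.pi * I) := by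
        rw [hq]
        push_cast
        field_simp
        ring
      rw [e2, Complex.exp_add, Complex.exp_int_mul_two_pi_mul_I, mul_one, sub_self, zero_div]
    rw [h0, smul_zero]

theorem card_shell (N L r : ℕ) (hL : 0 < L) :
    ((Finset.univ.filter fun x : Bx 2 N => L * r ≤ ly x.1 ∧ ly x.1 < L * (r + 1)).card : ℝ) ≤
      8 * L ^ 2 * (r + 1) := by
  have h1 : (Finset.univ.filter fun x : Bx 2 N => L * r ≤ ly x.1 ∧ ly x.1 < L * (r + 1)).card ≤
      (Bx 2 (L * (r + 1) - 1) \ (if r = 0 then ∅ else Bx 2 (L * r - 1))).card := by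
    refine Finset.card_le_card_of_injOn Subtype.val (fun x hx => ?_) Subtype.val_injective.injOn
    have h2 := (Finset.mem_filter.1 hx).2
    rw [Finset.mem_coe, Finset.mem_sdiff]
    refine ⟨ly_le.1 (by omega), ?_⟩
    split_ifs with hr
    · simp
    · intro h3
      have := ly_le.2 h3
      have h4 : 0 < L * r := Nat.mul_pos hL (Nat.pos_of_ne_zero hr)
      omega
  have h4 : (Bx 2 (L * (r + 1) - 1) \ (if r = 0 then ∅ else Bx 2 (L * r - 1))).card ≤
      8 * L ^ 2 * (r + 1) := by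
    obtain ⟨l, rfl⟩ : ∃ l, L = l + 1 := ⟨L - 1, by omega⟩
    by_cases hr : r = 0
    · subst hr
      rw [if_pos rfl, Finset.sdiff_empty, Bx_card]
      have e0 : (l + 1) * (0 + 1) - 1 = l := by omega
      rw [e0]
      nlinarith
    · rw [if_neg hr, Finset.card_sdiff_of_subset (Bx_mono 2 (by
        have : (l + 1) * r ≤ (l + 1) * (r + 1) := Nat.mul_le_mul_left _ (by omega)
        omega)), Bx_card, Bx_card]
      obtain ⟨s, rfl⟩ : ∃ s, r = s + 1 := ⟨r - 1, by omega⟩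
      have e1 : (l + 1) * (s + 1) - 1 = l * s + l + s := by
        have : (l + 1) * (s + 1) = l * s + l + s + 1 := by ring
        omega
      have e2 : (l + 1) * (s + 1 + 1) - 1 = l * s + 2 * l + s + 1 := by
        have : (l + 1) * (s + 1 + 1) = l * s + 2 * l + s + 1 + 1 := by ring
        omega
      rw [e1, e2, Nat.sub_le_iff_le_add]
      nlinarith [Nat.zero_le (l * s), Nat.zero_le (l * l * s), Nat.zero_le (l * l)]
  have h5 : ((Finset.univ.filter fun x : Bx 2 N => L * r ≤ ly x.1 ∧ ly x.1 < L * (r + 1)).card : ℝ) ≤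
      ((8 * L ^ 2 * (r + 1) : ℕ) : ℝ) := by exact_mod_cast h1.trans h4
  refine h5.trans (le_of_eq ?_)
  push_cast
  ring

theorem card_ball (N M : ℕ) :
    ((Finset.univ.filter fun x : Bx 2 N => ly x.1 < M).card : ℝ) ≤ (2 * M + 1) ^ 2 := by
  have h1 : (Finset.univ.filter fun x : Bx 2 N => ly x.1 < M).card ≤ (Bx 2 M).card := by
    refine Finset.card_le_card_of_injOn Subtype.val (fun x hx => ?_) Subtype.val_injective.injOn
    exact ly_le.1 (Finset.mem_filter.1 hx).2.le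
  rw [Bx_card] at h1
  have h2 : ((Finset.univ.filter fun x : Bx 2 N => ly x.1 < M).card : ℝ) ≤
      (((2 * M + 1) ^ 2 : ℕ) : ℝ) := by exact_mod_cast h1
  refine h2.trans (le_of_eq ?_)
  push_cast
  ring

/-- the phases at the sites -/
noncomputable def pz (τ : ℝ) (ω : (Fin 2 → ℤ) → ℝ) (x : Fin 2 → ℤ) : ℂ := kick τ (ω x)

section

variable {L : ℕ} (hL : 0 < L) {S : ((Fin 2 → ℤ) → ℂ) →ₗ[ℂ] ((Fin 2 → ℤ) → ℂ)} (hS : Hop L S)
  {ν : Measure ℝ} {τ : ℝ} (hu : Ph ν (kick τ))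

theorem gI_eq (S : ((Fin 2 → ℤ) → ℂ) →ₗ[ℂ] ((Fin 2 → ℤ) → ℂ)) (τ : ℝ) (N : ℕ) (ω : (Fin 2 → ℤ) → ℝ)
    (E η : ℝ) (a : Fin 2 → ℤ) (h : a ∈ Bx 2 N) :
    gI S N (pz τ ω) E η a = 2 * (Ga (kN S N) (zz η E) Subtype.val (kick τ) ω ⟨a, h⟩).re - 1 := by
  unfold gI Ga
  rw [dif_pos h]
  rfl

theorem meas_gIz (S : ((Fin 2 → ℤ) → ℂ) →ₗ[ℂ] ((Fin 2 → ℤ) → ℂ)) (τ : ℝ) (N : ℕ) (η : ℝ) (a : Fin 2 → ℤ) :
    Measurable fun q : ((Fin 2 → ℤ) → ℝ) × ℝ => gI S N (pz τ q.1) q.2 η a := by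
  by_cases h : a ∈ Bx 2 N
  · have e : (fun q : ((Fin 2 → ℤ) → ℝ) × ℝ => gI S N (pz τ q.1) q.2 η a) = fun q =>
        2 * ((AA (kN S N) (zz η q.2) (fun y : Bx 2 N => kick τ (q.1 y.1)))⁻¹ ⟨a, h⟩ ⟨a, h⟩).re - 1 := by
      funext q
      unfold gI
      rw [dif_pos h]
      rfl
    rw [e]
    have h1 : Measurable fun q : ((Fin 2 → ℤ) → ℝ) × ℝ =>
        (AA (kN S N) (zz η q.2) (fun y : Bx 2 N => kick τ (q.1 y.1)))⁻¹ ⟨a, h⟩ ⟨a, h⟩ :=
      measurable_Ga (ι := Bx 2 N) (kN S N) (z := fun q : ((Fin 2 → ℤ) → ℝ) × ℝ => zz η q.2)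
        ((meas_zz η).comp measurable_snd) (ζ := fun q y => kick τ (q.1 y.1))
        (fun x => (meas_kick τ).comp ((measurable_pi_apply _).comp measurable_fst)) _ _
    exact ((Complex.measurable_re.comp h1).const_mul 2).sub_const 1
  · have e : (fun q : ((Fin 2 → ℤ) → ℝ) × ℝ => gI S N (pz τ q.1) q.2 η a) = fun _ => 0 := by
      funext q
      unfold gI
      rw [dif_neg h]
    rw [e]
    exact measurable_const

include hL hS hu

theorem small (k : ℕ) {ε : ℝ} (hε : 0 < ε) : ∃ (η0 : ℝ) (N0 : ℕ), 0 < η0 ∧ ∀ η, 0 < η → η ≤ η0 →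
    ∀ (N : ℕ), N0 ≤ N → ∀ (E : ℝ) (a : Fin 2 → ℤ), a ∈ Bx 2 k →
      ∫ ω, min (gI S N (pz τ ω) E η a) 1 ∂(PP ν (Fin 2 → ℤ)) ≤ ε := by
  have hP := hu.prob
  have hL0 : (0 : ℝ) < L := by exact_mod_cast hL
  set lam : ℝ := 8 / ε with hlam
  have hl : 0 < lam := by positivity
  set T : ℝ := (8 * lam ^ 2 / ε) ^ 2 with hT
  have hT0 : 0 < T := by positivity
  have hsT : Real.sqrt T = 8 * lam ^ 2 / ε := Real.sqrt_sq (by positivity)
  obtain ⟨R, hR⟩ : ∃ R : ℕ, T ≤ ∑ r ∈ Finset.Ico (k + 1) R, 1 / (32 * (L : ℝ) ^ 2 * (r + 1)) := by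
    have h1 : ¬ Summable fun r : ℕ => 1 / (32 * (L : ℝ) ^ 2 * ((r : ℝ) + 1)) := by
      intro h2
      have h3 := h2.mul_left (32 * (L : ℝ) ^ 2)
      have h4 : (fun r : ℕ => 32 * (L : ℝ) ^ 2 * (1 / (32 * (L : ℝ) ^ 2 * ((r : ℝ) + 1)))) =
          fun r : ℕ => 1 / ((r : ℝ) + 1) := by
        funext r
        field_simp
      rw [h4] at h3
      have h5 : Summable fun r : ℕ => 1 / ((r : ℝ)) := by
        rw [← summable_nat_add_iff 1]
        simpa using h3
      exact Real.not_summable_one_div_natCast h5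
    have h2 := (not_summable_iff_tendsto_nat_atTop_of_nonneg (fun r => by positivity)).1 h1
    obtain ⟨R, hR⟩ := (h2.eventually_ge_atTop
      (T + ∑ r ∈ Finset.range (k + 1), 1 / (32 * (L : ℝ) ^ 2 * ((r : ℝ) + 1)))).and
      (eventually_ge_atTop (k + 1)) |>.exists
    refine ⟨R, ?_⟩
    rw [Finset.sum_Ico_eq_sub _ hR.2]
    linarith [hR.1]
  set C : ℝ := (2 * ((L * R : ℕ) : ℝ) + 1) ^ 2 with hC
  have hC0 : 0 < C := by positivity
  refine ⟨min (1 / 2) (ε / (8 * lam ^ 2 * (C + 1))), L * R + L, by positivity,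
    fun η hη hη0 N hN E a ha => ?_⟩
  have hη2 : η ≤ 1 / 2 := hη0.trans (min_le_left _ _)
  have hη3 : η ≤ ε / (8 * lam ^ 2 * (C + 1)) := hη0.trans (min_le_right _ _)
  have hz : ‖zz η E‖ = 1 - η := norm_zz (by linarith) E
  by_cases haN : a ∈ Bx 2 N
  · simp only [gI_eq S τ N _ E η a haN]
    have hb := fin_bound hu (kN_con hS N) (z := zz η E) (by rw [hz]; linarith)
      (e := Subtype.val) Subtype.val_injective ⟨a, haN⟩
      (lay := fun x : Bx 2 N => ly x.1) (L := L) (fun x y h => by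
        have h1 := mem_nb.1 (kr_range hS h)
        have h2 := abs_le.1 (h1 0)
        have h3 := abs_le.1 (h1 1)
        simp only [ly]
        omega) (R := R) (fun v hv => kN_iso hS hN v fun x hx => hv x (by
          by_contra hcon
          exact hx (ly_le.1 (by omega))))
      (r0 := k + 1) (by
        have h1 := ly_le.2 ha
        have h2 : k + 1 ≤ L * (k + 1) := Nat.le_mul_of_pos_left _ hL
        change ly a < L * (k + 1)
        omega) (fun r => card_shell N L r hL) hL (C := C) (S := T) (lam := lam) hl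
      (card_ball N (L * R)) (by rw [hz]; nlinarith) hT0 hR
    refine hb.trans ?_
    rw [hz]
    have e1 : 2 / (1 + lam) ≤ ε / 4 := by
      rw [hlam, div_le_div_iff₀ (by positivity) (by norm_num)]
      have : ε * (1 + 8 / ε) = ε + 8 := by field_simp
      rw [this]
      linarith
    have e2 : lam ^ 2 * (2 / Real.sqrt T) = ε / 4 := by
      rw [hsT]
      field_simp
      norm_num
    have e3 : lam ^ 2 * ((1 - (1 - η) ^ 2) * (C + 1)) ≤ ε / 4 := by
      have h1 : 1 - (1 - η) ^ 2 ≤ 2 * η := by nlinarith [sq_nonneg η]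
      have h2 : lam ^ 2 * ((1 - (1 - η) ^ 2) * (C + 1)) ≤ lam ^ 2 * (2 * η * (C + 1)) := by
        gcongr
      refine h2.trans ?_
      have h3 : lam ^ 2 * (2 * η * (C + 1)) = η * (2 * lam ^ 2 * (C + 1)) := by ring
      rw [h3]
      calc η * (2 * lam ^ 2 * (C + 1)) ≤ ε / (8 * lam ^ 2 * (C + 1)) * (2 * lam ^ 2 * (C + 1)) :=
            mul_le_mul_of_nonneg_right hη3 (by positivity)
        _ = ε / 4 := by field_simp; norm_num
    rw [mul_add]
    linarith
  · have : ∀ ω, gI S N (pz τ ω) E η a = 0 := by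
      intro z
      unfold gI
      rw [dif_neg haN]
    simp only [this]
    simp
    exact hε.le

theorem mean_X (k : ℕ) : ∃ (η0 : ℝ) (N0 : ℕ), 0 < η0 ∧ ∀ η, 0 < η → η ≤ η0 → η ≤ 1 → ∀ N : ℕ, N0 ≤ N →
    ∫⁻ ω, XN S N k (pz τ ω) η ∂(PP ν (Fin 2 → ℤ)) ≤ ENNReal.ofReal ((1 / 4) ^ k) := by
  have hP := hu.prob
  have hpi := Real.pi_pos
  set D : ℝ := 2 * Real.pi * (Bx 2 k).card + 1 with hD
  have hD0 : 0 < D := by positivity
  obtain ⟨η0, N0, hη0, h⟩ := small hL hS hu k (ε := (1 / 4) ^ k / D) (by positivity)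
  refine ⟨η0, N0, hη0, fun η hη hη1 hη2 N hN => ?_⟩
  have hm : Measurable fun q : ((Fin 2 → ℤ) → ℝ) × ℝ =>
      ∑ a ∈ Bx 2 k, ENNReal.ofReal (min (gI S N (pz τ q.1) q.2 η a) 1) :=
    Finset.measurable_sum _ fun a _ => ((meas_gIz S τ N η a).min measurable_const).ennreal_ofReal
  unfold XN
  rw [lintegral_lintegral_swap hm.aemeasurable]
  have h1 : ∀ E, ∫⁻ ω, ∑ a ∈ Bx 2 k, ENNReal.ofReal (min (gI S N (pz τ ω) E η a) 1)
      ∂(PP ν (Fin 2 → ℤ)) ≤ ENNReal.ofReal ((Bx 2 k).card * ((1 / 4) ^ k / D)) := by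
    intro E
    have hmE : ∀ a, Measurable fun ω : (Fin 2 → ℤ) → ℝ => min (gI S N (pz τ ω) E η a) 1 := by
      intro a
      have hpair : Measurable fun ω : (Fin 2 → ℤ) → ℝ => (ω, E) :=
        measurable_id.prodMk measurable_const
      exact ((meas_gIz S τ N η a).comp hpair).min measurable_const
    rw [lintegral_finsetSum _ fun a _ => (hmE a).ennreal_ofReal]
    have h2 : ∀ a ∈ Bx 2 k, ∫⁻ ω, ENNReal.ofReal (min (gI S N (pz τ ω) E η a) 1)
        ∂(PP ν (Fin 2 → ℤ)) ≤ ENNReal.ofReal ((1 / 4) ^ k / D) := by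
      intro a ha
      have hnn : ∀ ω, 0 ≤ min (gI S N (pz τ ω) E η a) 1 := fun ω =>
        le_min (gI_nonneg hS (fun x => (norm_kick τ _).le) N E hη hη2 a) zero_le_one
      rw [← ofReal_integral_eq_lintegral_ofReal ?_ (Eventually.of_forall hnn)]
      · exact ENNReal.ofReal_le_ofReal (h η hη hη1 N hN E a ha)
      · refine Integrable.of_bound (C := 1) (hmE a).aestronglyMeasurable
          (Eventually.of_forall fun ω => ?_)
        rw [Real.norm_of_nonneg (hnn ω)]
        exact min_le_right _ _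
    refine (Finset.sum_le_sum h2).trans ?_
    rw [Finset.sum_const, nsmul_eq_mul, ENNReal.ofReal_mul (Nat.cast_nonneg _),
      ENNReal.ofReal_natCast]
  refine (lintegral_mono h1).trans ?_
  rw [setLIntegral_const, Real.volume_Icc, ← ENNReal.ofReal_mul (by positivity)]
  refine ENNReal.ofReal_le_ofReal ?_
  have h3 : ((Bx 2 k).card * ((1 / 4) ^ k / D) : ℝ) * (Real.pi - -Real.pi) = (1 / 4) ^ k * ((D - 1) / D) := by
    rw [hD]; field_simp; ring
  rw [h3]
  have h4 : (D - 1) / D ≤ 1 := by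
    rw [div_le_one hD0]; linarith
  have h5 : (0 : ℝ) < (1 / 4) ^ k := by positivity
  nlinarith

/-- **Almost sure singularity.** -/
theorem as_sing : ∀ᵐ ω ∂(PP ν (Fin 2 → ℤ)),
    ∀ g : (Fin 2 → ℤ) → ℂ, SqSummable g → ∀ μ : Measure ℝ, IsSpec (Uo S (pz τ ω)) g μ →
      μ ⟂ₘ volume := by
  have hP := hu.prob
  choose η0 N0 hη0 hX using mean_X hL hS hu
  set ηs : ℕ → ℝ := fun k => min (η0 k) (1 / ((k : ℝ) + 1)) with hηs
  have hηpos : ∀ k, 0 < ηs k := fun k => lt_min (hη0 k) (by positivity)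
  have hηone : ∀ k, ηs k ≤ 1 := fun k => (min_le_right _ _).trans (by
    rw [div_le_one (by positivity)]
    have : (0 : ℝ) ≤ k := Nat.cast_nonneg k
    linarith)
  have hηlim : Tendsto ηs atTop (𝓝 0) := by
    refine squeeze_zero (fun k => (hηpos k).le) (fun k => min_le_right _ _)
      tendsto_one_div_add_atTop_nhds_zero_nat
  have hmX : ∀ N k, Measurable fun ω => XN S N k (pz τ ω) (ηs k) := by
    intro N k
    unfold XN
    have hm : Measurable fun q : ((Fin 2 → ℤ) → ℝ) × ℝ =>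
        ∑ a ∈ Bx 2 k, ENNReal.ofReal (min (gI S N (pz τ q.1) q.2 (ηs k) a) 1) :=
      Finset.measurable_sum _ fun a _ => ((meas_gIz S τ N _ a).min measurable_const).ennreal_ofReal
    exact hm.lintegral_prod_right'
  have hev : ∀ᵐ ω ∂(PP ν (Fin 2 → ℤ)), ∀ᶠ k in atTop,
      ω ∉ {ω | ENNReal.ofReal ((1 / 2) ^ k) ≤ liminf (fun N => XN S N k (pz τ ω) (ηs k)) atTop} := by
    refine ae_eventually_notMem ?_
    have h1 : ∀ k : ℕ, (PP ν (Fin 2 → ℤ))
        {ω | ENNReal.ofReal ((1 / 2) ^ k) ≤ liminf (fun N => XN S N k (pz τ ω) (ηs k)) atTop} ≤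
        ENNReal.ofReal ((1 / 2) ^ k) := by
      intro k
      have hpos : ENNReal.ofReal ((1 / 2 : ℝ) ^ k) ≠ 0 := by
        rw [ne_eq, ENNReal.ofReal_eq_zero, not_le]; positivity
      refine (meas_ge_le_lintegral_div (Measurable.liminf fun N => hmX N k).aemeasurable hpos
        ENNReal.ofReal_ne_top).trans ?_
      rw [ENNReal.div_le_iff hpos ENNReal.ofReal_ne_top, ← ENNReal.ofReal_mul (by positivity)]
      refine (lintegral_liminf_le fun N => hmX N k).trans ?_
      have h2 : ((1 / 2 : ℝ) ^ k * (1 / 2) ^ k) = (1 / 4) ^ k := by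
        rw [← mul_pow]; norm_num
      rw [h2]
      refine (liminf_le_limsup).trans (limsup_le_of_le (h := ?_))
      filter_upwards [eventually_ge_atTop (N0 k)] with N hN
      exact hX k (ηs k) (hηpos k) (min_le_left _ _) (hηone k) N hN
    refine ne_top_of_le_ne_top ?_ (ENNReal.tsum_le_tsum h1)
    rw [← ENNReal.ofReal_tsum_of_nonneg (fun k => by positivity)
      (summable_geometric_of_lt_one (by norm_num) (by norm_num))]
    exact ENNReal.ofReal_ne_top
  filter_upwards [hev] with ω hω g hg μ hμ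
  refine sing_of hS (fun x => (norm_kick τ _).le) hηpos hηone hηlim ?_ hg hμ
  filter_upwards [hω] with k hk
  have hk' : liminf (fun N => XN S N k (pz τ ω) (ηs k)) atTop < ENNReal.ofReal ((1 / 2) ^ k) :=
    not_le.1 hk
  exact frequently_lt_of_liminf_lt (h := hk')

end

end Pool.Agent.L0h56.KA
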