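import Pool.Agent.L0h56.KA.Circ

/-!
A criterion for purely singular spectrum of a unitary operator.
-/

set_option autoImplicit false
set_option linter.unusedSectionVars false
set_option linter.unusedVariables false

open scoped BigOperators Topology ENNReal
open Complex MeasureTheory Filter Pool.Agent.L0h56.CS

namespace Pool.Agent.L0h56.KA

variable {d : ℕ}

/-- `m` is the spectral measure of the unitary operator `A` with respect to the vector `g`, carried
by `[-π, π]` -/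
def IsSpec (A : ((Fin d → ℤ) → ℂ) → (Fin d → ℤ) → ℂ) (g : (Fin d → ℤ) → ℂ) (m : Measure ℝ) : Prop :=
  IsFiniteMeasure m ∧ m (Set.Icc (-Real.pi) Real.pi)ᶜ = 0 ∧
    ∀ n : ℕ, ∫ θ : ℝ, Complex.exp ((n : ℂ) * θ * I) ∂m = ∑' x, (starRingEnd ℂ) (g x) * A^[n] g x

/-- the Poisson integral -/
theorem pois_eq {m : Measure ℝ} [IsFiniteMeasure m] {c : ℕ → ℂ}
    (hc : ∀ n : ℕ, ∫ θ : ℝ, Complex.exp ((n : ℂ) * θ * I) ∂m = c n) {η : ℝ} (h1 : 0 < η) (h2 : η ≤ 1)
    (E : ℝ) : Wc c (zz η E) = ∫ θ : ℝ, (1 - (1 - η) ^ 2) / ‖1 - zz η E * Complex.exp (θ * I)‖ ^ 2 ∂m := by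
  set z := zz η E with hz
  have hzn : ‖z‖ = 1 - η := norm_zz h2 E
  have hz1 : ‖z‖ < 1 := by rw [hzn]; linarith
  have hwn : ∀ θ : ℝ, ‖z * Complex.exp (θ * I)‖ = 1 - η := by
    intro θ
    rw [norm_mul, Complex.norm_exp_ofReal_mul_I, mul_one, hzn]
  have hne : ∀ θ : ℝ, 1 - z * Complex.exp (θ * I) ≠ 0 := by
    intro θ h0
    have h3 : z * Complex.exp (θ * I) = 1 := by linear_combination -h0
    have h4 := hwn θ
    rw [h3, norm_one] at h4
    linarith
  have hge : ∀ θ : ℝ, η ≤ ‖1 - z * Complex.exp (θ * I)‖ := by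
    intro θ
    have h3 := norm_sub_norm_le (1 : ℂ) (z * Complex.exp (θ * I))
    rw [hwn θ, norm_one] at h3
    linarith
  have hser : ∀ θ : ℝ, HasSum (fun n : ℕ => z ^ n * Complex.exp ((n : ℂ) * θ * I))
      (1 - z * Complex.exp (θ * I))⁻¹ := by
    intro θ
    have h3 : ‖z * Complex.exp (θ * I)‖ < 1 := by rw [hwn θ]; linarith
    refine (hasSum_geometric_of_norm_lt_one h3).congr_fun fun n => ?_
    rw [mul_pow, ← Complex.exp_nat_mul]
    congr 2
    ring
  have hint : ∀ n : ℕ, Integrable (fun θ : ℝ => z ^ n * Complex.exp ((n : ℂ) * θ * I)) m := by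
    intro n
    refine Integrable.of_bound (C := ‖z‖ ^ n) (Continuous.aestronglyMeasurable (by fun_prop))
      (Eventually.of_forall fun θ => ?_)
    have := norm_exp_kI (n : ℤ) θ
    push_cast at this
    rw [norm_mul, norm_pow, this, mul_one]
  have hnorm : ∀ n : ℕ, ∫ θ : ℝ, ‖z ^ n * Complex.exp ((n : ℂ) * θ * I)‖ ∂m = ‖z‖ ^ n * m.real Set.univ := by
    intro n
    have h3 : ∀ θ : ℝ, ‖z ^ n * Complex.exp ((n : ℂ) * θ * I)‖ = ‖z‖ ^ n := by
      intro θ
      have := norm_exp_kI (n : ℤ) θ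
      push_cast at this
      rw [norm_mul, norm_pow, this, mul_one]
    simp only [h3]
    rw [integral_const, smul_eq_mul, mul_comm]
  have h3 := hasSum_integral_of_summable_integral_norm hint (by
    simp only [hnorm]
    exact (summable_geometric_of_lt_one (norm_nonneg _) hz1).mul_right _)
  have h4 : ∀ θ : ℝ, ∑' n : ℕ, z ^ n * Complex.exp ((n : ℂ) * θ * I) = (1 - z * Complex.exp (θ * I))⁻¹ :=
    fun θ => (hser θ).tsum_eq
  simp only [h4] at h3
  have h5 : ∀ n : ℕ, ∫ θ : ℝ, z ^ n * Complex.exp ((n : ℂ) * θ * I) ∂m = z ^ n * c n := by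
    intro n
    rw [integral_const_mul, hc n]
  simp only [h5] at h3
  have hcont : Continuous fun θ : ℝ => (1 - z * Complex.exp (θ * I))⁻¹ :=
    Continuous.inv₀ (by fun_prop) hne
  have hI : Integrable (fun θ : ℝ => (1 - z * Complex.exp (θ * I))⁻¹) m := by
    refine Integrable.of_bound (C := 1 / η) hcont.aestronglyMeasurable (Eventually.of_forall fun θ => ?_)
    rw [norm_inv, one_div]
    exact inv_anti₀ h1 (hge θ)
  have hre : (∫ θ : ℝ, (1 - z * Complex.exp (θ * I))⁻¹ ∂m).re =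
      ∫ θ : ℝ, ((1 - z * Complex.exp (θ * I))⁻¹).re ∂m := (integral_re hI).symm
  have h0 : (c 0).re = ∫ θ : ℝ, (1 : ℝ) ∂m := by
    rw [← hc 0]
    simp
  have hR : Integrable (fun θ : ℝ => 2 * ((1 - z * Complex.exp (θ * I))⁻¹).re) m := hI.re.const_mul 2
  unfold Wc
  rw [h3.tsum_eq, hre, h0, ← integral_const_mul, ← integral_sub hR (integrable_const _)]
  refine integral_congr_ae (Eventually.of_forall fun θ => ?_)
  simp only
  set w := z * Complex.exp (θ * I) with hw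
  have hpos : 0 < ‖1 - w‖ ^ 2 := by
    have := norm_pos_iff.2 (hne θ)
    positivity
  have e3 : ‖1 - w‖ ^ 2 = 1 - 2 * w.re + ‖w‖ ^ 2 := by
    rw [← Complex.normSq_eq_norm_sq, ← Complex.normSq_eq_norm_sq, Complex.normSq_apply,
      Complex.normSq_apply]
    simp
    ring
  rw [Complex.inv_re, Complex.normSq_eq_norm_sq, sub_re, one_re, ← hwn θ, ← hw,
    eq_div_iff hpos.ne', sub_mul, mul_assoc, div_mul_cancel₀ _ hpos.ne', e3]
  ring

/-- lower bound by the mass of a ball -/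
theorem pois_ge {m : Measure ℝ} [IsFiniteMeasure m] {c : ℕ → ℂ}
    (hc : ∀ n : ℕ, ∫ θ : ℝ, Complex.exp ((n : ℂ) * θ * I) ∂m = c n) {η : ℝ} (h1 : 0 < η) (h2 : η ≤ 1)
    (E : ℝ) : m (Metric.closedBall E η) / volume (Metric.closedBall E η) ≤
      ENNReal.ofReal (Wc c (zz η E)) := by
  rw [pois_eq hc h1 h2 E]
  have hw : ∀ θ : ℝ, zz η E * Complex.exp (θ * I) = ((1 - η : ℝ) : ℂ) * Complex.exp ((θ - E : ℝ) * I) := by
    intro θ
    unfold zz
    rw [mul_assoc, ← Complex.exp_add]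
    congr 2
    push_cast
    ring
  have hden : ∀ θ : ℝ, ‖1 - zz η E * Complex.exp (θ * I)‖ ^ 2 =
      η ^ 2 + 2 * (1 - η) * (1 - Real.cos (θ - E)) := by
    intro θ
    rw [hw θ, ← Complex.normSq_eq_norm_sq, Complex.normSq_apply]
    have hre : (((1 - η : ℝ) : ℂ) * Complex.exp ((θ - E : ℝ) * I)).re = (1 - η) * Real.cos (θ - E) := by
      rw [Complex.re_ofReal_mul, Complex.exp_ofReal_mul_I_re]
    have him : (((1 - η : ℝ) : ℂ) * Complex.exp ((θ - E : ℝ) * I)).im = (1 - η) * Real.sin (θ - E) := by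
      rw [Complex.im_ofReal_mul, Complex.exp_ofReal_mul_I_im]
    rw [sub_re, sub_im, hre, him, one_re, one_im]
    have := Real.sin_sq_add_cos_sq (θ - E)
    nlinarith
  have hd0 : ∀ θ : ℝ, η ^ 2 ≤ ‖1 - zz η E * Complex.exp (θ * I)‖ ^ 2 := by
    intro θ
    rw [hden θ]
    have := Real.cos_le_one (θ - E)
    have : 0 ≤ 2 * (1 - η) * (1 - Real.cos (θ - E)) := mul_nonneg (by linarith) (by linarith)
    linarith
  have hr : 0 ≤ 1 - (1 - η) ^ 2 := by nlinarith
  have hnn : ∀ θ : ℝ, 0 ≤ (1 - (1 - η) ^ 2) / ‖1 - zz η E * Complex.exp (θ * I)‖ ^ 2 := fun θ =>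
    div_nonneg hr (sq_nonneg _)
  have hcont : Continuous fun θ : ℝ => (1 - (1 - η) ^ 2) / ‖1 - zz η E * Complex.exp (θ * I)‖ ^ 2 := by
    refine Continuous.div continuous_const (by fun_prop) fun θ => ?_
    have h3 : 0 < η ^ 2 := by positivity
    exact (lt_of_lt_of_le h3 (hd0 θ)).ne'
  have hint2 : Integrable (fun θ : ℝ => (1 - (1 - η) ^ 2) / ‖1 - zz η E * Complex.exp (θ * I)‖ ^ 2) m := by
    refine Integrable.of_bound (C := (1 - (1 - η) ^ 2) / η ^ 2) hcont.aestronglyMeasurable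
      (Eventually.of_forall fun θ => ?_)
    rw [Real.norm_of_nonneg (hnn θ)]
    exact div_le_div_of_nonneg_left hr (by positivity) (hd0 θ)
  rw [ofReal_integral_eq_lintegral_ofReal hint2 (Eventually.of_forall hnn)]
  have hvol : volume (Metric.closedBall E η) = ENNReal.ofReal (2 * η) := Real.volume_closedBall E η
  rw [hvol]
  calc m (Metric.closedBall E η) / ENNReal.ofReal (2 * η)
      = ∫⁻ t in Metric.closedBall E η, ENNReal.ofReal (1 / (2 * η)) ∂m := by
        rw [setLIntegral_const, mul_comm, ENNReal.div_eq_inv_mul, one_div,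
          ENNReal.ofReal_inv_of_pos (by positivity)]
    _ ≤ ∫⁻ t in Metric.closedBall E η, ENNReal.ofReal
          ((1 - (1 - η) ^ 2) / ‖1 - zz η E * Complex.exp (t * I)‖ ^ 2) ∂m := by
        refine setLIntegral_mono' Metric.isClosed_closedBall.measurableSet fun t ht => ?_
        refine ENNReal.ofReal_le_ofReal ?_
        rw [Metric.mem_closedBall, Real.dist_eq] at ht
        have h3 : (t - E) ^ 2 ≤ η ^ 2 := sq_le_sq' (by linarith [abs_le.1 ht]) (abs_le.1 ht).2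
        have h4 := Real.one_sub_sq_div_two_le_cos (x := t - E)
        have h5 := hd0 t
        rw [div_le_div_iff₀ (by positivity) (by nlinarith [sq_nonneg η, pow_pos h1 2]), hden t]
        have h6 : 2 * (1 - η) * (1 - Real.cos (t - E)) ≤ (1 - η) * η ^ 2 := by
          have h7 : 1 - Real.cos (t - E) ≤ η ^ 2 / 2 := by linarith
          nlinarith
        nlinarith [pow_pos h1 2, pow_pos h1 3]
    _ ≤ _ := setLIntegral_le_lintegral _ _

section
variable {L : ℕ} {S : ((Fin d → ℤ) → ℂ) →ₗ[ℂ] ((Fin d → ℤ) → ℂ)} (hS : Hop L S)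
  {p : (Fin d → ℤ) → ℂ} (hp : ∀ x, ‖p x‖ ≤ 1)

/-- the quadratic form in the box -/
noncomputable def WN (S : ((Fin d → ℤ) → ℂ) →ₗ[ℂ] ((Fin d → ℤ) → ℂ)) (p : (Fin d → ℤ) → ℂ) (N : ℕ)
    (g : (Fin d → ℤ) → ℂ) (z : ℂ) : ℝ :=
  Wq (kN S N) z (fun y => p y.1) (fun y => g y.1)

open Classical in
/-- `Re C_N(a, a)` at `(1 - η) e^{-iE}` -/
noncomputable def gI (S : ((Fin d → ℤ) → ℂ) →ₗ[ℂ] ((Fin d → ℤ) → ℂ)) (N : ℕ) (p : (Fin d → ℤ) → ℂ)
    (E η : ℝ) (a : Fin d → ℤ) : ℝ :=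
  if h : a ∈ Bx d N then 2 * ((AA (kN S N) (zz η E) (fun y => p y.1))⁻¹ ⟨a, h⟩ ⟨a, h⟩).re - 1 else 0

/-- mean -/
noncomputable def XN (S : ((Fin d → ℤ) → ℂ) →ₗ[ℂ] ((Fin d → ℤ) → ℂ)) (N k : ℕ) (p : (Fin d → ℤ) → ℂ)
    (η : ℝ) : ℝ≥0∞ :=
  ∫⁻ E in Set.Icc (-Real.pi) Real.pi, ∑ a ∈ Bx d k, ENNReal.ofReal (min (gI S N p E η a) 1)

theorem meas_zz (η : ℝ) : Measurable (zz η) := by
  unfold zz
  exact (Continuous.mul continuous_const (by fun_prop)).measurable

theorem meas_ent (N : ℕ) (p : (Fin d → ℤ) → ℂ) (η : ℝ) (x y : Bx d N) :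
    Measurable fun E : ℝ => (AA (kN S N) (zz η E) (fun w : Bx d N => p w.1))⁻¹ x y :=
  measurable_Ga (ι := Bx d N) (kN S N) (z := fun E => zz η E) (meas_zz η)
    (ζ := fun _ w => p w.1) (fun x => measurable_const) x y

theorem meas_gI (N : ℕ) (p : (Fin d → ℤ) → ℂ) (η : ℝ) (a : Fin d → ℤ) :
    Measurable fun E => gI S N p E η a := by
  by_cases h : a ∈ Bx d N
  · have e : (fun E => gI S N p E η a) = fun E =>
        2 * ((AA (kN S N) (zz η E) (fun y : Bx d N => p y.1))⁻¹ ⟨a, h⟩ ⟨a, h⟩).re - 1 := by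
      funext E
      unfold gI
      rw [dif_pos h]
    rw [e]
    exact ((Complex.measurable_re.comp (meas_ent N p η ⟨a, h⟩ ⟨a, h⟩)).const_mul 2).sub_const 1
  · have e : (fun E => gI S N p E η a) = fun _ => 0 := by
      funext E
      unfold gI
      rw [dif_neg h]
    rw [e]
    exact measurable_const

theorem meas_WN (N : ℕ) (p g : (Fin d → ℤ) → ℂ) (η : ℝ) : Measurable fun E => WN S p N g (zz η E) := by
  have h : Measurable fun E : ℝ => ∑ x : Bx d N, (starRingEnd ℂ) (g x.1) *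
      ∑ y : Bx d N, (AA (kN S N) (zz η E) (fun w : Bx d N => p w.1))⁻¹ x y * g y.1 :=
    Finset.measurable_sum _ fun x _ => (Finset.measurable_sum _ fun y _ =>
      (meas_ent N p η x y).mul_const _).const_mul _
  exact ((Complex.measurable_re.comp h).const_mul 2).sub_const _

include hS hp

theorem gI_nonneg (N : ℕ) (E : ℝ) {η : ℝ} (h1 : 0 < η) (h2 : η ≤ 1) (a : Fin d → ℤ) :
    0 ≤ gI S N p E η a := by
  unfold gI
  split_ifs with h
  · have hz : ‖zz η E‖ < 1 := by rw [norm_zz h2]; linarith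
    rw [← Wq_single (kN_con hS N) hz (ζ := fun y : Bx d N => p y.1) (fun x => hp x.1)]
    exact Wq_nonneg (kN_con hS N) hz (fun x => hp x.1) _
  · exact le_refl _

theorem WN_nonneg (N : ℕ) (g : (Fin d → ℤ) → ℂ) {z : ℂ} (hz : ‖z‖ < 1) : 0 ≤ WN S p N g z :=
  Wq_nonneg (kN_con hS N) hz (fun x => hp x.1) _

theorem WN_eq (N : ℕ) (g : (Fin d → ℤ) → ℂ) {z : ℂ} (hz : ‖z‖ < 1) :
    WN S p N g z = Wc (fun n => cN S p g n N) z := by
  unfold WN Wq Wc
  have h := has_sum (kN_con hS N) hz (ζ := fun y : Bx d N => p y.1) (fun x => hp x.1) (fun y => g y.1)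
  rw [← h.tsum_eq]
  have h0 : (cN S p g 0 N).re = ∑ x : Bx d N, ‖g x.1‖ ^ 2 := by
    unfold cN
    rw [Complex.re_sum]
    refine Finset.sum_congr rfl fun x _ => ?_
    rw [pow_zero, Matrix.one_mulVec, ← Complex.normSq_eq_conj_mul_self, Complex.ofReal_re,
      Complex.normSq_eq_norm_sq]
  rw [h0]
  rfl

theorem cN_zero (N : ℕ) (g : (Fin d → ℤ) → ℂ) : cN S p g 0 N = ((∑ x : Bx d N, ‖g x.1‖ ^ 2 : ℝ) : ℂ) := by
  unfold cN
  push_cast
  refine Finset.sum_congr rfl fun x _ => ?_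
  rw [pow_zero, Matrix.one_mulVec, ← Complex.normSq_eq_conj_mul_self, Complex.normSq_eq_norm_sq]
  push_cast
  rfl

/-- mean over the circle -/
theorem WN_int (N : ℕ) (g : (Fin d → ℤ) → ℂ) {η : ℝ} (h1 : 0 < η) (h2 : η ≤ 1) :
    ∫⁻ E in Set.Icc (-Real.pi) Real.pi, ENNReal.ofReal (WN S p N g (zz η E)) =
      ENNReal.ofReal (2 * Real.pi * ∑ x ∈ Bx d N, ‖g x‖ ^ 2) := by
  have hz : ∀ E, ‖zz η E‖ < 1 := fun E => by rw [norm_zz h2]; linarith
  have hc : ∀ n, ‖cN S p g n N‖ ≤ ∑ x : Bx d N, ‖g x.1‖ ^ 2 := fun n =>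
    mom_le (kN_con hS N) (ζ := fun y : Bx d N => p y.1) (fun x => hp x.1) _ n
  have hm := Wc_mom hc (by rw [cN_zero hS hp]; exact Complex.ofReal_im _) h1 h2 0
  simp only [Nat.cast_zero, zero_mul, Complex.exp_zero, one_mul, pow_zero] at hm
  have e1 : ∫ E in Set.Icc (-Real.pi) Real.pi, WN S p N g (zz η E) =
      2 * Real.pi * ∑ x ∈ Bx d N, ‖g x‖ ^ 2 := by
    have e2 : ((∫ E in Set.Icc (-Real.pi) Real.pi, WN S p N g (zz η E) : ℝ) : ℂ) =
        ((2 * Real.pi * ∑ x ∈ Bx d N, ‖g x‖ ^ 2 : ℝ) : ℂ) := by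
      rw [← integral_complex_ofReal]
      simp only [WN_eq hS hp N g (hz _)]
      rw [hm, cN_zero hS hp, Finset.sum_coe_sort (Bx d N) (fun x => ‖g x‖ ^ 2)]
      push_cast
      ring
    exact_mod_cast e2
  have hnn : ∀ E, 0 ≤ WN S p N g (zz η E) := fun E => WN_nonneg hS hp N g (hz E)
  have hb : ∀ E, WN S p N g (zz η E) ≤ 2 * ((∑ x : Bx d N, ‖g x.1‖ ^ 2) * (1 / η)) := by
    intro E
    rw [WN_eq hS hp N g (hz E)]
    unfold Wc
    have h3 : ‖∑' n, zz η E ^ n * cN S p g n N‖ ≤ (∑ x : Bx d N, ‖g x.1‖ ^ 2) * (1 / η) := by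
      have h4 : Summable fun n => ‖zz η E ^ n * cN S p g n N‖ := by
        refine Summable.of_nonneg_of_le (fun _ => norm_nonneg _) (fun n => ?_)
          ((summable_geometric_of_lt_one (norm_nonneg _) (hz E)).mul_right
            (∑ x : Bx d N, ‖g x.1‖ ^ 2))
        rw [norm_mul, norm_pow]
        exact mul_le_mul_of_nonneg_left (hc n) (by positivity)
      refine (norm_tsum_le_tsum_norm h4).trans ?_
      have h5 : ∑' n, ‖zz η E ^ n * cN S p g n N‖ ≤ ∑' n : ℕ, (1 - η) ^ n * (∑ x : Bx d N, ‖g x.1‖ ^ 2) := by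
        refine h4.tsum_le_tsum (fun n => ?_)
          ((summable_geometric_of_lt_one (by linarith) (by linarith)).mul_right _)
        rw [norm_mul, norm_pow, norm_zz h2]
        exact mul_le_mul_of_nonneg_left (hc n) (pow_nonneg (by linarith) _)
      refine h5.trans (le_of_eq ?_)
      rw [tsum_mul_right, tsum_geometric_of_lt_one (by linarith) (by linarith)]
      have : (1 - (1 - η)) = η := by ring
      rw [this]
      ring
    have h6 := (Complex.re_le_norm _).trans h3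
    have h7 : 0 ≤ (cN S p g 0 N).re := by
      rw [cN_zero hS hp, Complex.ofReal_re]
      exact Finset.sum_nonneg fun _ _ => sq_nonneg _
    linarith
  rw [← e1, ofReal_integral_eq_lintegral_ofReal ?_ (Eventually.of_forall hnn)]
  refine Integrable.of_bound (C := 2 * ((∑ x : Bx d N, ‖g x.1‖ ^ 2) * (1 / η)))
    (meas_WN N p g η).aestronglyMeasurable (Eventually.of_forall fun E => ?_)
  rw [Real.norm_of_nonneg (hnn E)]
  exact hb E

theorem pt_bound {M k N : ℕ} (hMk : M ≤ k) (hMN : M ≤ N) (E : ℝ) {η : ℝ} (h1 : 0 < η) (h2 : η ≤ 1)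
    {g : (Fin d → ℤ) → ℂ} (hg : SqSummable g) :
    min (WN S p N g (zz η E)) 1 ≤ (2 * (2 ^ (Bx d M).card * (∑' x, ‖g x‖ ^ 2)) + 1) *
      ∑ a ∈ Bx d k, min (gI S N p E η a) 1 +
      2 * WN S p N (fun x => if x ∈ Bx d M then 0 else g x) (zz η E) := by
  set C := ∑' x, ‖g x‖ ^ 2 with hC
  have hC0 : 0 ≤ C := tsum_nonneg fun _ => sq_nonneg _
  have hz : ‖zz η E‖ < 1 := by rw [norm_zz h2]; linarith
  have hK := kN_con hS N
  have hζ : ∀ y : Bx d N, ‖(fun y : Bx d N => p y.1) y‖ ≤ 1 := fun y => hp y.1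
  have h3 := Wq_add hK hz hζ
    (fun x => if x.1 ∈ Bx d M then g x.1 else 0) (fun x => if x.1 ∈ Bx d M then 0 else g x.1)
  have e1 : ((fun x : Bx d N => if x.1 ∈ Bx d M then g x.1 else 0) +
      (fun x : Bx d N => if x.1 ∈ Bx d M then 0 else g x.1)) = fun x => g x.1 := by
    funext x
    rw [Pi.add_apply]
    split_ifs <;> simp
  rw [e1] at h3
  set A : Finset (Bx d N) := Finset.univ.filter fun x : Bx d N => x.1 ∈ Bx d M with hA
  have h4 := Wq_supp hK hz hζ A (fun x : Bx d N => if x.1 ∈ Bx d M then g x.1 else 0) (fun x hx => by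
      rw [if_neg]
      intro h
      exact hx (by simp [hA, h]))
  have hAc : A.card ≤ (Bx d M).card :=
    Finset.card_le_card_of_injOn Subtype.val (fun x hx => (Finset.mem_filter.1 hx).2)
      Subtype.val_injective.injOn
  have h5 : ∑ a ∈ A, ‖(if a.1 ∈ Bx d M then g a.1 else 0)‖ ^ 2 *
      Wq (kN S N) (zz η E) (fun y => p y.1) (Pi.single a 1) ≤ C * ∑ a ∈ Bx d M, gI S N p E η a := by
    have h6 : ∀ a ∈ A, ‖(if a.1 ∈ Bx d M then g a.1 else 0)‖ ^ 2 *
        Wq (kN S N) (zz η E) (fun y => p y.1) (Pi.single a 1) ≤ C * gI S N p E η a.1 := by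
      intro a ha
      have h7 : Wq (kN S N) (zz η E) (fun y => p y.1) (Pi.single a 1) = gI S N p E η a.1 := by
        unfold gI
        rw [dif_pos a.2, Wq_single hK hz hζ]
      rw [h7]
      refine mul_le_mul_of_nonneg_right ?_ (gI_nonneg hS hp N E h1 h2 a.1)
      rw [if_pos (Finset.mem_filter.1 ha).2]
      exact hg.le_tsum a.1 fun _ _ => sq_nonneg _
    refine (Finset.sum_le_sum h6).trans ?_
    rw [← Finset.mul_sum]
    refine mul_le_mul_of_nonneg_left (le_of_eq ?_) hC0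
    exact Finset.sum_bij (fun a _ => a.1) (fun a ha => (Finset.mem_filter.1 ha).2)
      (fun a _ b _ h => Subtype.ext h) (fun b hb => ⟨⟨b, Bx_mono d hMN hb⟩, by simp [hA, hb], rfl⟩)
      fun a ha => rfl
  have h8 : 0 ≤ ∑ a ∈ Bx d M, gI S N p E η a :=
    Finset.sum_nonneg fun a _ => gI_nonneg hS hp N E h1 h2 a
  have h9 : WN S p N g (zz η E) ≤ 2 * (2 ^ (Bx d M).card * C * ∑ a ∈ Bx d M, gI S N p E η a) +
      2 * WN S p N (fun x => if x ∈ Bx d M then 0 else g x) (zz η E) := by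
    have h10 : (2 : ℝ) ^ A.card ≤ 2 ^ (Bx d M).card := pow_le_pow_right₀ (by norm_num) hAc
    have h11 : (2 : ℝ) ^ A.card * ∑ a ∈ A, ‖(if a.1 ∈ Bx d M then g a.1 else 0)‖ ^ 2 *
      Wq (kN S N) (zz η E) (fun y => p y.1) (Pi.single a 1) ≤
        2 ^ (Bx d M).card * (C * ∑ a ∈ Bx d M, gI S N p E η a) :=
      mul_le_mul h10 h5 (Finset.sum_nonneg fun a _ => mul_nonneg (sq_nonneg _)
        (Wq_nonneg hK hz hζ _)) (by positivity)
    unfold WN
    linarith
  have hq : 0 ≤ WN S p N (fun x => if x ∈ Bx d M then 0 else g x) (zz η E) := WN_nonneg hS hp N _ hz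
  have hmin : ∀ a, 0 ≤ min (gI S N p E η a) 1 := fun a =>
    le_min (gI_nonneg hS hp N E h1 h2 a) zero_le_one
  have hs' : 0 ≤ ∑ a ∈ Bx d k, min (gI S N p E η a) 1 := Finset.sum_nonneg fun a _ => hmin a
  have hκ : (0 : ℝ) ≤ 2 ^ (Bx d M).card * C := by positivity
  by_cases hbig : ∃ a ∈ Bx d M, 1 < gI S N p E η a
  · obtain ⟨a, ha, ha1⟩ := hbig
    have h7 : 1 ≤ ∑ a ∈ Bx d k, min (gI S N p E η a) 1 := by
      refine le_trans ?_ (Finset.single_le_sum (f := fun a => min (gI S N p E η a) 1)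
        (fun a _ => hmin a) (Bx_mono d hMk ha))
      simp [ha1.le]
    refine (min_le_right _ _).trans ?_
    nlinarith
  · push Not at hbig
    have h7 : ∑ a ∈ Bx d M, gI S N p E η a ≤ ∑ a ∈ Bx d k, min (gI S N p E η a) 1 := by
      calc ∑ a ∈ Bx d M, gI S N p E η a = ∑ a ∈ Bx d M, min (gI S N p E η a) 1 :=
            Finset.sum_congr rfl fun a ha => (min_eq_left (hbig a ha)).symm
        _ ≤ _ := Finset.sum_le_sum_of_subset_of_nonneg (Bx_mono d hMk) fun a _ _ => hmin a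
    refine (min_le_left _ _).trans (h9.trans ?_)
    nlinarith [mul_le_mul_of_nonneg_left h7 hκ]

theorem int_bound {M k N : ℕ} (hMk : M ≤ k) (hMN : M ≤ N) {η : ℝ}
    (h1 : 0 < η) (h2 : η ≤ 1) {g : (Fin d → ℤ) → ℂ} (hg : SqSummable g) :
    ∫⁻ E in Set.Icc (-Real.pi) Real.pi, ENNReal.ofReal (min (WN S p N g (zz η E)) 1) ≤
      ENNReal.ofReal (2 * (2 ^ (Bx d M).card * (∑' x, ‖g x‖ ^ 2)) + 1) * XN S N k p η +
      2 * ENNReal.ofReal (2 * Real.pi * (∑' y, ‖g y‖ ^ 2 - ∑ y ∈ Bx d M, ‖g y‖ ^ 2)) := by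
  set C := ∑' x, ‖g x‖ ^ 2 with hC
  have hC0 : 0 ≤ C := tsum_nonneg fun _ => sq_nonneg _
  set h : (Fin d → ℤ) → ℂ := fun x => if x ∈ Bx d M then 0 else g x with hh
  have hz : ∀ E, ‖zz η E‖ < 1 := fun E => by rw [norm_zz h2]; linarith
  have hq : ∀ E, 0 ≤ WN S p N h (zz η E) := fun E => WN_nonneg hS hp N _ (hz E)
  have hmin : ∀ E a, 0 ≤ min (gI S N p E η a) 1 := fun E a =>
    le_min (gI_nonneg hS hp N E h1 h2 a) zero_le_one
  set κ : ℝ := 2 * (2 ^ (Bx d M).card * C) + 1 with hκ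
  have hκ0 : 0 ≤ κ := by positivity
  have h3 : ∀ E, ENNReal.ofReal (min (WN S p N g (zz η E)) 1) ≤
      ENNReal.ofReal κ * ∑ a ∈ Bx d k, ENNReal.ofReal (min (gI S N p E η a) 1) +
      2 * ENNReal.ofReal (WN S p N h (zz η E)) := by
    intro E
    have hpt := pt_bound hS hp hMk hMN E h1 h2 hg
    rw [← hC, ← hκ] at hpt
    refine (ENNReal.ofReal_le_ofReal hpt).trans ?_
    rw [ENNReal.ofReal_add (mul_nonneg hκ0 (Finset.sum_nonneg fun a _ => hmin E a))
      (mul_nonneg zero_le_two (hq E)), ENNReal.ofReal_mul hκ0,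
      ENNReal.ofReal_mul zero_le_two, ENNReal.ofReal_sum_of_nonneg fun a _ => hmin E a]
    simp
  have hm1 : Measurable fun E => ∑ a ∈ Bx d k, ENNReal.ofReal (min (gI S N p E η a) 1) :=
    Finset.measurable_sum _ fun a _ => ((meas_gI N p η a).min measurable_const).ennreal_ofReal
  have hm2 : Measurable fun E => ENNReal.ofReal (WN S p N h (zz η E)) :=
    (meas_WN N p h η).ennreal_ofReal
  calc ∫⁻ E in Set.Icc (-Real.pi) Real.pi, ENNReal.ofReal (min (WN S p N g (zz η E)) 1)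
      ≤ ∫⁻ E in Set.Icc (-Real.pi) Real.pi, (ENNReal.ofReal κ *
          ∑ a ∈ Bx d k, ENNReal.ofReal (min (gI S N p E η a) 1) +
          2 * ENNReal.ofReal (WN S p N h (zz η E))) := lintegral_mono fun E => h3 E
    _ = ENNReal.ofReal κ * (∫⁻ E in Set.Icc (-Real.pi) Real.pi,
          ∑ a ∈ Bx d k, ENNReal.ofReal (min (gI S N p E η a) 1)) +
        2 * (∫⁻ E in Set.Icc (-Real.pi) Real.pi, ENNReal.ofReal (WN S p N h (zz η E))) := by
        rw [lintegral_add_left (hm1.const_mul _), lintegral_const_mul _ hm1,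
          lintegral_const_mul _ hm2]
    _ ≤ _ := by
        refine add_le_add le_rfl (mul_le_mul' le_rfl ?_)
        rw [WN_int hS hp N h h1 h2]
        refine ENNReal.ofReal_le_ofReal (mul_le_mul_of_nonneg_left ?_ (by positivity))
        have h4 : ∑ x ∈ Bx d N, ‖h x‖ ^ 2 = ∑ x ∈ Bx d N \ Bx d M, ‖g x‖ ^ 2 := by
          rw [Finset.sdiff_eq_filter, Finset.sum_filter]
          refine Finset.sum_congr rfl fun x _ => ?_
          rw [hh]
          by_cases hx : x ∈ Bx d M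
          · simp [hx]
          · simp [hx]
        rw [h4]
        exact sum_le_tail hg _ _ Finset.sdiff_disjoint

/-- **Criterion.** -/
theorem sing_of {ηs : ℕ → ℝ} (hη : ∀ k, 0 < ηs k) (hη1 : ∀ k, ηs k ≤ 1)
    (hη0 : Tendsto ηs atTop (𝓝 0))
    (hX : ∀ᶠ k in atTop, ∃ᶠ N in atTop, XN S N k p (ηs k) < ENNReal.ofReal ((1 / 2) ^ k))
    {g : (Fin d → ℤ) → ℂ} (hg : SqSummable g) {m : Measure ℝ} (hm : IsSpec (Uo S p) g m) :
    m ⟂ₘ volume := by
  obtain ⟨hfin, hsupp, hc⟩ := hm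
  have hz : ∀ k E, ‖zz (ηs k) E‖ < 1 := fun k E => by rw [norm_zz (hη1 k)]; linarith [hη k]
  set P : ℕ → ℝ → ℝ := fun k E => Wc (cI S p g) (zz (ηs k) E) with hP
  have hlim : ∀ k E, Tendsto (fun N => WN S p N g (zz (ηs k) E)) atTop (𝓝 (P k E)) := by
    intro k E
    simp only [WN_eq hS hp _ g (hz k E)]
    exact Wc_tendsto (fun n N => cN_le hS hp hg n N) (fun n => cN_tendsto hS hp hg n) (hz k E)
  have hPm : ∀ k, Measurable (P k) := fun k =>
    measurable_of_tendsto_metrizable (fun N => meas_WN N p g (ηs k))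
      (tendsto_pi_nhds.2 fun E => hlim k E)
  set C := ∑' x, ‖g x‖ ^ 2 with hC
  set τ : ℕ → ℝ := fun M => ∑' y, ‖g y‖ ^ 2 - ∑ y ∈ Bx d M, ‖g y‖ ^ 2 with hτ
  -- step (b)
  have hb : ∀ M : ℕ, ∀ᶠ k in atTop, ∫⁻ E in Set.Icc (-Real.pi) Real.pi,
      ENNReal.ofReal (min (P k E) 1) ≤ ENNReal.ofReal (2 * (2 ^ (Bx d M).card * C) + 1) *
        ENNReal.ofReal ((1 / 2) ^ k) + 2 * ENNReal.ofReal (2 * Real.pi * τ M) := by
    intro M
    filter_upwards [hX, eventually_ge_atTop M] with k hk hM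
    obtain ⟨φ, hφ, hφX⟩ := extraction_of_frequently_atTop hk
    have h1 : ∀ E, ENNReal.ofReal (min (P k E) 1) =
        liminf (fun n => ENNReal.ofReal (min (WN S p (φ n) g (zz (ηs k) E)) 1)) atTop := by
      intro E
      refine (Tendsto.liminf_eq ?_).symm
      refine (ENNReal.continuous_ofReal.tendsto _).comp ?_
      exact (((hlim k E).comp hφ.tendsto_atTop)).min tendsto_const_nhds
    simp only [h1]
    refine (lintegral_liminf_le fun n => ?_).trans ?_
    · exact ((meas_WN _ p g _).min measurable_const).ennreal_ofReal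
    · refine (liminf_le_limsup).trans (limsup_le_of_le (h := ?_))
      filter_upwards [eventually_ge_atTop M] with n hn
      refine (int_bound hS hp hM (hn.trans (hφ.id_le n)) (hη k) (hη1 k) hg).trans ?_
      exact add_le_add (mul_le_mul' le_rfl (hφX n).le) le_rfl
  -- step (c)
  have hPm' : ∀ k, Measurable fun E => ENNReal.ofReal (min (P k E) 1) := fun k =>
    ((hPm k).min measurable_const).ennreal_ofReal
  have hτ0 : Tendsto τ atTop (𝓝 0) := tail_tendsto hg
  have hc' : ∫⁻ E in Set.Icc (-Real.pi) Real.pi,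
      liminf (fun k => ENNReal.ofReal (min (P k E) 1)) atTop = 0 := by
    have h1 : ∀ M, ∫⁻ E in Set.Icc (-Real.pi) Real.pi,
        liminf (fun k => ENNReal.ofReal (min (P k E) 1)) atTop ≤
          2 * ENNReal.ofReal (2 * Real.pi * τ M) := by
      intro M
      refine (lintegral_liminf_le hPm').trans ?_
      have h2 : Tendsto (fun k : ℕ => ENNReal.ofReal (2 * (2 ^ (Bx d M).card * C) + 1) *
          ENNReal.ofReal ((1 / 2) ^ k) + 2 * ENNReal.ofReal (2 * Real.pi * τ M)) atTop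
          (𝓝 (ENNReal.ofReal (2 * (2 ^ (Bx d M).card * C) + 1) * ENNReal.ofReal 0 +
            2 * ENNReal.ofReal (2 * Real.pi * τ M))) := by
        refine Tendsto.add ?_ tendsto_const_nhds
        refine ENNReal.Tendsto.const_mul ?_ (Or.inr ENNReal.ofReal_ne_top)
        refine (ENNReal.continuous_ofReal.tendsto _).comp ?_
        exact tendsto_pow_atTop_nhds_zero_of_lt_one (by norm_num) (by norm_num)
      rw [ENNReal.ofReal_zero, mul_zero, zero_add] at h2
      rw [← h2.liminf_eq]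
      exact liminf_le_liminf (hb M)
    have h3 : Tendsto (fun M => 2 * ENNReal.ofReal (2 * Real.pi * τ M)) atTop
        (𝓝 (2 * ENNReal.ofReal (2 * Real.pi * 0))) := by
      refine ENNReal.Tendsto.const_mul ?_ (Or.inr (by simp))
      exact (ENNReal.continuous_ofReal.tendsto _).comp (hτ0.const_mul _)
    rw [mul_zero, ENNReal.ofReal_zero, mul_zero] at h3
    exact le_antisymm (ge_of_tendsto' h3 h1) zero_le
  have hae : ∀ᵐ E : ℝ, E ∈ Set.Icc (-Real.pi) Real.pi →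
      liminf (fun k => ENNReal.ofReal (min (P k E) 1)) atTop = 0 := by
    rw [← ae_restrict_iff' measurableSet_Icc]
    exact (lintegral_eq_zero_iff (Measurable.liminf hPm')).1 hc'
  have hout : ∀ᵐ E : ℝ, E ∈ (Set.Icc (-Real.pi) Real.pi)ᶜ → m.rnDeriv volume E = 0 := by
    have h1 : ∫⁻ E in (Set.Icc (-Real.pi) Real.pi)ᶜ, m.rnDeriv volume E = 0 :=
      le_antisymm ((Measure.setLIntegral_rnDeriv_le _).trans hsupp.le) zero_le
    rw [← ae_restrict_iff' measurableSet_Icc.compl]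
    exact (lintegral_eq_zero_iff (Measure.measurable_rnDeriv _ _)).1 h1
  -- step (d)
  rw [← Measure.rnDeriv_eq_zero]
  filter_upwards [hae, hout, Besicovitch.ae_tendsto_rnDeriv m volume] with E h1 hE h2
  by_cases hmem : E ∈ Set.Icc (-Real.pi) Real.pi
  · have h1' := h1 hmem
    have h3 : Tendsto ηs atTop (𝓝[>] 0) :=
      tendsto_nhdsWithin_iff.2 ⟨hη0, Filter.Eventually.of_forall fun k => hη k⟩
    have h4 := h2.comp h3
    have h5 : Tendsto (fun k => min (m (Metric.closedBall E (ηs k)) /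
        volume (Metric.closedBall E (ηs k))) 1) atTop (𝓝 (min (m.rnDeriv volume E) 1)) :=
      h4.min tendsto_const_nhds
    have h6 : min (m.rnDeriv volume E) 1 ≤ 0 := by
      rw [← h1', ← h5.liminf_eq]
      refine liminf_le_liminf (Filter.Eventually.of_forall fun k => ?_)
      have h7 := pois_ge (c := cI S p g) hc (hη k) (hη1 k) E
      rw [ENNReal.ofReal_min, ENNReal.ofReal_one]
      exact min_le_min h7 le_rfl
    have h8 : min (m.rnDeriv volume E) 1 = 0 := le_antisymm h6 zero_le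
    rcases min_choice (m.rnDeriv volume E) 1 with h9 | h9
    · rw [h9] at h8
      exact h8
    · rw [h9] at h8
      exact absurd h8 one_ne_zero
  · exact hE hmem

end

end Pool.Agent.L0h56.KA
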