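import Pool.Agent.L0h56.KA.Fin

/-!
The quadratic form `Re ⟨g, (1 + zT)(1 - zT)⁻¹ g⟩` of a finite contraction.
-/

set_option autoImplicit false
set_option linter.unusedSectionVars false
set_option linter.unusedVariables false

open scoped BigOperators
open Complex MeasureTheory

namespace Pool.Agent.L0h56.KA

variable {ι : Type*} [Fintype ι] [DecidableEq ι]

/-- `T = D K` -/
noncomputable def TT (K : Matrix ι ι ℂ) (ζ : ι → ℂ) : Matrix ι ι ℂ := Matrix.diagonal ζ * K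

theorem TT_mulVec (K : Matrix ι ι ℂ) (ζ v : ι → ℂ) (x : ι) :
    (TT K ζ).mulVec v x = ζ x * K.mulVec v x := by
  unfold TT
  rw [← Matrix.mulVec_mulVec, Matrix.mulVec_diagonal]

theorem AA_eq (K : Matrix ι ι ℂ) (z : ℂ) (ζ : ι → ℂ) : AA K z ζ = 1 - z • TT K ζ := by
  unfold AA TT
  congr 1
  ext x y
  rw [Matrix.smul_apply, Matrix.diagonal_mul, Matrix.diagonal_mul, smul_eq_mul]
  ring

/-- the resolvent applied to a vector -/
noncomputable def Rv (K : Matrix ι ι ℂ) (z : ℂ) (ζ g : ι → ℂ) : ι → ℂ := ((AA K z ζ)⁻¹).mulVec g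

/-- the quadratic form -/
noncomputable def Wq (K : Matrix ι ι ℂ) (z : ℂ) (ζ g : ι → ℂ) : ℝ :=
  2 * (∑ x, (starRingEnd ℂ) (g x) * Rv K z ζ g x).re - ∑ x, ‖g x‖ ^ 2

section
variable {K : Matrix ι ι ℂ} (hK : Con K) {z : ℂ} (hz : ‖z‖ < 1) {ζ : ι → ℂ} (hζ : ∀ x, ‖ζ x‖ ≤ 1)
include hK hζ

theorem TT_contr (v : ι → ℂ) : ∑ x, ‖(TT K ζ).mulVec v x‖ ^ 2 ≤ ∑ x, ‖v x‖ ^ 2 := by
  refine le_trans (Finset.sum_le_sum fun x _ => ?_) (hK.contr v)
  rw [TT_mulVec, norm_mul, mul_pow]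
  have : ‖ζ x‖ ^ 2 ≤ 1 := pow_le_one₀ (norm_nonneg _) (hζ x)
  nlinarith [sq_nonneg ‖K.mulVec v x‖]

theorem TT_pow_contr (n : ℕ) (v : ι → ℂ) : ∑ x, ‖(TT K ζ ^ n).mulVec v x‖ ^ 2 ≤ ∑ x, ‖v x‖ ^ 2 := by
  induction n with
  | zero => simp
  | succ n ih =>
    rw [pow_succ', ← Matrix.mulVec_mulVec]
    exact (TT_contr hK hζ _).trans ih

theorem cs_bound (f v : ι → ℂ) (n : ℕ) :
    ‖∑ x, (starRingEnd ℂ) (f x) * (TT K ζ ^ n).mulVec v x‖ ^ 2 ≤
      (∑ x, ‖f x‖ ^ 2) * ∑ x, ‖v x‖ ^ 2 := by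
  have h1 : ‖∑ x, (starRingEnd ℂ) (f x) * (TT K ζ ^ n).mulVec v x‖ ≤
      ∑ x, ‖f x‖ * ‖(TT K ζ ^ n).mulVec v x‖ := by
    refine (norm_sum_le _ _).trans (Finset.sum_le_sum fun x _ => ?_)
    rw [norm_mul, Complex.norm_conj]
  refine (pow_le_pow_left₀ (norm_nonneg _) h1 2).trans ?_
  refine (Finset.sum_mul_sq_le_sq_mul_sq _ _ _).trans ?_
  exact mul_le_mul_of_nonneg_left (TT_pow_contr hK hζ n v) (Finset.sum_nonneg fun _ _ => sq_nonneg _)

/-- the moments are bounded -/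
theorem mom_le (g : ι → ℂ) (n : ℕ) :
    ‖∑ x, (starRingEnd ℂ) (g x) * (TT K ζ ^ n).mulVec g x‖ ≤ ∑ x, ‖g x‖ ^ 2 := by
  have h := cs_bound hK hζ g g n
  have h0 : 0 ≤ ∑ x, ‖g x‖ ^ 2 := Finset.sum_nonneg fun _ _ => sq_nonneg _
  rw [← sq] at h
  exact (abs_le_of_sq_le_sq' h h0).2

include hz

theorem Rv_eq (g : ι → ℂ) : Rv K z ζ g = g + z • (TT K ζ).mulVec (Rv K z ζ g) := by
  have h : (AA K z ζ).mulVec (Rv K z ζ g) = g := by
    unfold Rv
    rw [Matrix.mulVec_mulVec, AA_mul_inv hK hz hζ, Matrix.one_mulVec]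
  rw [AA_eq, Matrix.sub_mulVec, Matrix.one_mulVec, Matrix.smul_mulVec] at h
  rw [← h]
  funext x
  simp only [Pi.add_apply, Pi.sub_apply, Pi.smul_apply]
  rw [h]
  ring

theorem Rv_iter (g : ι → ℂ) (m : ℕ) : Rv K z ζ g =
    (∑ n ∈ Finset.range m, z ^ n • (TT K ζ ^ n).mulVec g) +
      z ^ m • (TT K ζ ^ m).mulVec (Rv K z ζ g) := by
  induction m with
  | zero => simp
  | succ m ih =>
    have h1 : (TT K ζ ^ m).mulVec (Rv K z ζ g) = (TT K ζ ^ m).mulVec g +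
        z • (TT K ζ ^ (m + 1)).mulVec (Rv K z ζ g) := by
      conv_lhs => rw [Rv_eq hK hz hζ g]
      rw [Matrix.mulVec_add, Matrix.mulVec_smul, Matrix.mulVec_mulVec, ← pow_succ]
    conv_lhs => rw [ih, h1]
    rw [Finset.sum_range_succ, smul_add, smul_smul, ← pow_succ, add_assoc]

theorem has_sum (g : ι → ℂ) :
    HasSum (fun n : ℕ => z ^ n * ∑ x, (starRingEnd ℂ) (g x) * (TT K ζ ^ n).mulVec g x)
      (∑ x, (starRingEnd ℂ) (g x) * Rv K z ζ g x) := by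
  set G : ℝ := ∑ x, ‖g x‖ ^ 2 with hG
  have hsum : Summable fun n : ℕ => z ^ n * ∑ x, (starRingEnd ℂ) (g x) * (TT K ζ ^ n).mulVec g x := by
    refine Summable.of_norm_bounded (g := fun n => ‖z‖ ^ n * G)
      ((summable_geometric_of_lt_one (norm_nonneg _) hz).mul_right _) fun n => ?_
    rw [norm_mul, norm_pow]
    exact mul_le_mul_of_nonneg_left (mom_le hK hζ g n) (by positivity)
  rw [hsum.hasSum_iff_tendsto_nat]
  have h1 : ∀ m : ℕ, ∑ n ∈ Finset.range m, z ^ n * ∑ x, (starRingEnd ℂ) (g x) * (TT K ζ ^ n).mulVec g x =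
      (∑ x, (starRingEnd ℂ) (g x) * Rv K z ζ g x) -
        z ^ m * ∑ x, (starRingEnd ℂ) (g x) * (TT K ζ ^ m).mulVec (Rv K z ζ g) x := by
    intro m
    have h2 : ∀ x, Rv K z ζ g x = (∑ n ∈ Finset.range m, z ^ n * (TT K ζ ^ n).mulVec g x) +
        z ^ m * (TT K ζ ^ m).mulVec (Rv K z ζ g) x := by
      intro x
      have := congrFun (Rv_iter hK hz hζ g m) x
      rw [Pi.add_apply, Finset.sum_apply] at this
      simpa only [Pi.smul_apply, smul_eq_mul] using this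
    have h3 : ∑ x, (starRingEnd ℂ) (g x) * Rv K z ζ g x =
        ∑ x, (starRingEnd ℂ) (g x) * ((∑ n ∈ Finset.range m, z ^ n * (TT K ζ ^ n).mulVec g x) +
        z ^ m * (TT K ζ ^ m).mulVec (Rv K z ζ g) x) :=
      Finset.sum_congr rfl fun x _ => by rw [← h2 x]
    rw [h3]
    simp only [mul_add, Finset.mul_sum, Finset.sum_add_distrib]
    rw [Finset.sum_comm]
    have h4 : ∑ x, (starRingEnd ℂ) (g x) * (z ^ m * (TT K ζ ^ m).mulVec (Rv K z ζ g) x) =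
        ∑ x, z ^ m * ((starRingEnd ℂ) (g x) * (TT K ζ ^ m).mulVec (Rv K z ζ g) x) :=
      Finset.sum_congr rfl fun x _ => by ring
    rw [h4, add_sub_cancel_right]
    exact Finset.sum_congr rfl fun x _ => Finset.sum_congr rfl fun n _ => by ring
  simp only [h1]
  have h5 : Filter.Tendsto (fun m : ℕ => z ^ m * ∑ x, (starRingEnd ℂ) (g x) *
      (TT K ζ ^ m).mulVec (Rv K z ζ g) x) Filter.atTop (nhds 0) := by
    set C : ℝ := Real.sqrt (G * ∑ x, ‖Rv K z ζ g x‖ ^ 2) with hC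
    refine squeeze_zero_norm (a := fun m => ‖z‖ ^ m * C) (fun m => ?_) ?_
    · rw [norm_mul, norm_pow]
      refine mul_le_mul_of_nonneg_left ?_ (by positivity)
      exact Real.le_sqrt_of_sq_le (cs_bound hK hζ g _ m)
    · have := (tendsto_pow_atTop_nhds_zero_of_lt_one (norm_nonneg z) hz).mul_const C
      simpa using this
  have := (tendsto_const_nhds (x := ∑ x, (starRingEnd ℂ) (g x) * Rv K z ζ g x)).sub h5
  simpa using this

/-- the quadratic form as a difference of norms -/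
theorem Wq_eq (g : ι → ℂ) : Wq K z ζ g = ∑ x, ‖Rv K z ζ g x‖ ^ 2 -
    ‖z‖ ^ 2 * ∑ x, ‖(TT K ζ).mulVec (Rv K z ζ g) x‖ ^ 2 := by
  have h := Rv_eq hK hz hζ g
  set v := Rv K z ζ g with hv
  have h1 : ∀ x, g x = v x - z * (TT K ζ).mulVec v x := by
    intro x
    have := congrFun h x
    simp only [Pi.add_apply, Pi.smul_apply, smul_eq_mul] at this
    linear_combination -this
  unfold Wq
  rw [← hv, Complex.re_sum, Finset.mul_sum, Finset.mul_sum, ← Finset.sum_sub_distrib,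
    ← Finset.sum_sub_distrib]
  refine Finset.sum_congr rfl fun x _ => ?_
  rw [h1 x]
  set t := (TT K ζ).mulVec v x
  have e : ‖z‖ ^ 2 * ‖t‖ ^ 2 = ‖z * t‖ ^ 2 := by rw [norm_mul, mul_pow]
  rw [e]
  set s := z * t
  rw [← Complex.normSq_eq_norm_sq, ← Complex.normSq_eq_norm_sq, ← Complex.normSq_eq_norm_sq,
    Complex.normSq_apply, Complex.normSq_apply, Complex.normSq_apply]
  simp only [mul_re, conj_re, conj_im, sub_re, sub_im]
  ring

theorem quad_nonneg (v : ι → ℂ) : 0 ≤ ∑ x, ‖v x‖ ^ 2 - ‖z‖ ^ 2 * ∑ x, ‖(TT K ζ).mulVec v x‖ ^ 2 := by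
  have h1 := TT_contr hK hζ v
  have h2 : ‖z‖ ^ 2 ≤ 1 := pow_le_one₀ (norm_nonneg _) hz.le
  have h3 : 0 ≤ ∑ x, ‖(TT K ζ).mulVec v x‖ ^ 2 := Finset.sum_nonneg fun _ _ => sq_nonneg _
  nlinarith

theorem Wq_nonneg (g : ι → ℂ) : 0 ≤ Wq K z ζ g := by
  rw [Wq_eq hK hz hζ g]
  exact quad_nonneg hK hz hζ _

theorem Wq_add (f g : ι → ℂ) : Wq K z ζ (f + g) ≤ 2 * Wq K z ζ f + 2 * Wq K z ζ g := by
  rw [Wq_eq hK hz hζ, Wq_eq hK hz hζ, Wq_eq hK hz hζ]
  have hlin : Rv K z ζ (f + g) = Rv K z ζ f + Rv K z ζ g := by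
    unfold Rv; rw [Matrix.mulVec_add]
  set v := Rv K z ζ f
  set w := Rv K z ζ g
  rw [hlin]
  have h1 := quad_nonneg hK hz hζ (v - w)
  rw [Matrix.mulVec_sub] at h1
  rw [Matrix.mulVec_add]
  have hpar : ∀ a b : ι → ℂ, ∑ x, ‖(a + b) x‖ ^ 2 + ∑ x, ‖(a - b) x‖ ^ 2 =
      2 * ∑ x, ‖a x‖ ^ 2 + 2 * ∑ x, ‖b x‖ ^ 2 := by
    intro a b
    rw [Finset.mul_sum, Finset.mul_sum, ← Finset.sum_add_distrib, ← Finset.sum_add_distrib]
    refine Finset.sum_congr rfl fun x _ => ?_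
    rw [Pi.add_apply, Pi.sub_apply]
    rw [← Complex.normSq_eq_norm_sq, ← Complex.normSq_eq_norm_sq, ← Complex.normSq_eq_norm_sq,
      ← Complex.normSq_eq_norm_sq, Complex.normSq_apply, Complex.normSq_apply, Complex.normSq_apply,
      Complex.normSq_apply]
    simp only [add_re, add_im, sub_re, sub_im]
    ring
  have h2 := hpar v w
  have h3 := hpar ((TT K ζ).mulVec v) ((TT K ζ).mulVec w)
  have h4 : ‖z‖ ^ 2 * (∑ x, ‖((TT K ζ).mulVec v + (TT K ζ).mulVec w) x‖ ^ 2 +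
      ∑ x, ‖((TT K ζ).mulVec v - (TT K ζ).mulVec w) x‖ ^ 2) =
      ‖z‖ ^ 2 * (2 * ∑ x, ‖(TT K ζ).mulVec v x‖ ^ 2 + 2 * ∑ x, ‖(TT K ζ).mulVec w x‖ ^ 2) := by
    rw [h3]
  linarith

theorem Wq_smul (c : ℂ) (g : ι → ℂ) : Wq K z ζ (c • g) = ‖c‖ ^ 2 * Wq K z ζ g := by
  have hlin : Rv K z ζ (c • g) = c • Rv K z ζ g := by
    unfold Rv; rw [Matrix.mulVec_smul]
  rw [Wq_eq hK hz hζ, Wq_eq hK hz hζ, hlin, Matrix.mulVec_smul]
  simp only [Pi.smul_apply, smul_eq_mul, norm_mul, mul_pow]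
  rw [← Finset.mul_sum, ← Finset.mul_sum]
  ring

theorem Wq_single (a : ι) : Wq K z ζ (Pi.single a 1) = 2 * ((AA K z ζ)⁻¹ a a).re - 1 := by
  unfold Wq Rv
  have h1 : ∑ x, ‖(Pi.single a 1 : ι → ℂ) x‖ ^ 2 = 1 := by
    rw [Finset.sum_eq_single a]
    · simp
    · intro b _ hb; simp [hb]
    · intro h; exact absurd (Finset.mem_univ a) h
  have h2 : ∑ x, (starRingEnd ℂ) ((Pi.single a 1 : ι → ℂ) x) * ((AA K z ζ)⁻¹).mulVec (Pi.single a 1) x =
      (AA K z ζ)⁻¹ a a := by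
    rw [Finset.sum_eq_single a]
    · simp
    · intro b _ hb; simp [hb]
    · intro h; exact absurd (Finset.mem_univ a) h
  rw [h1, h2]

/-- vectors supported in a small set -/
theorem Wq_supp (A : Finset ι) (f : ι → ℂ) (hf : ∀ x, x ∉ A → f x = 0) :
    Wq K z ζ f ≤ 2 ^ A.card * ∑ a ∈ A, ‖f a‖ ^ 2 * Wq K z ζ (Pi.single a 1) := by
  induction A using Finset.induction_on generalizing f with
  | empty =>
    have h0 : f = (0 : ℂ) • f := by
      funext x; rw [zero_smul]; exact hf x (Finset.notMem_empty x)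
    rw [h0, Wq_smul hK hz hζ]
    simp
  | insert a A haA ih =>
    set f1 : ι → ℂ := f a • Pi.single a (1 : ℂ) with hf1
    set f2 : ι → ℂ := fun x => if x = a then 0 else f x with hf2
    have h1 : f = f1 + f2 := by
      funext x
      rw [Pi.add_apply, hf1, hf2, Pi.smul_apply, Pi.single_apply]
      by_cases hx : x = a
      · subst hx; simp
      · simp [hx]
    have h2 := ih f2 (fun x hx => by
      rw [hf2]
      by_cases hxa : x = a
      · simp [hxa]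
      · simp only [if_neg hxa]
        exact hf x (by simp [hx, hxa]))
    have h3 : ∑ b ∈ A, ‖f2 b‖ ^ 2 * Wq K z ζ (Pi.single b 1) =
        ∑ b ∈ A, ‖f b‖ ^ 2 * Wq K z ζ (Pi.single b 1) := by
      refine Finset.sum_congr rfl fun b hb => ?_
      rw [hf2]
      have : b ≠ a := fun h => haA (h ▸ hb)
      simp only [if_neg this]
    rw [h3] at h2
    have h4 := Wq_add hK hz hζ f1 f2
    rw [← h1] at h4
    have h5 : Wq K z ζ f1 = ‖f a‖ ^ 2 * Wq K z ζ (Pi.single a 1) := by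
      rw [hf1, Wq_smul hK hz hζ]
    rw [Finset.card_insert_of_notMem haA, Finset.sum_insert haA, pow_succ, mul_add]
    rw [h5] at h4
    have h6 : 0 ≤ ‖f a‖ ^ 2 * Wq K z ζ (Pi.single a 1) :=
      mul_nonneg (sq_nonneg _) (Wq_nonneg hK hz hζ _)
    have h7 : (1 : ℝ) ≤ 2 ^ A.card := one_le_pow₀ (by norm_num)
    nlinarith [mul_le_mul_of_nonneg_right h7 h6]

end

end Pool.Agent.L0h56.KA
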