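import Pool.Agent.L0h56.KA.Core

/-!
Flux through the shells and the telescoping sum.
-/

set_option autoImplicit false
set_option linter.unusedSectionVars false
set_option linter.unusedVariables false

open scoped BigOperators
open Complex MeasureTheory Pool.Agent.L0h56.CS

namespace Pool.Agent.L0h56.KA

variable {J : Type*} [DecidableEq J] {ι : Type*} [Fintype ι] [DecidableEq ι]

/-- the revealed ball -/
def Bl (e : ι → J) (lay : ι → ℕ) (L r : ℕ) : Finset J :=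
  (Finset.univ.filter fun x => lay x < L * r).image e

/-- a shell -/
def Sl (e : ι → J) (lay : ι → ℕ) (L r : ℕ) : Finset J :=
  (Finset.univ.filter fun x => L * r ≤ lay x ∧ lay x < L * (r + 1)).image e

theorem mem_Bl {e : ι → J} (he : Function.Injective e) (lay : ι → ℕ) (L r : ℕ) (x : ι) :
    e x ∈ Bl e lay L r ↔ lay x < L * r := by
  unfold Bl
  rw [Finset.mem_image]
  constructor
  · rintro ⟨y, hy, hxy⟩
    rw [← he hxy]
    exact (Finset.mem_filter.1 hy).2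
  · intro h
    exact ⟨x, by simp [h], rfl⟩

theorem Bl_succ (e : ι → J) (lay : ι → ℕ) (L r : ℕ) :
    Bl e lay L (r + 1) = Bl e lay L r ∪ Sl e lay L r := by
  unfold Bl Sl
  rw [← Finset.image_union]
  congr 1
  ext x
  simp only [Finset.mem_filter, Finset.mem_univ, true_and, Finset.mem_union, mul_add, mul_one]
  omega

theorem disj {e : ι → J} (he : Function.Injective e) (lay : ι → ℕ) (L r : ℕ) :
    Disjoint (Sl e lay L r) (Bl e lay L r) := by
  rw [Finset.disjoint_left]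
  intro j hj hj'
  unfold Sl at hj
  rw [Finset.mem_image] at hj
  obtain ⟨x, hx, rfl⟩ := hj
  have h1 := (mem_Bl he lay L r x).1 hj'
  have h2 := (Finset.mem_filter.1 hx).2
  omega

/-- the product law -/
noncomputable abbrev PP (ν : Measure ℝ) (J : Type*) : Measure (J → ℝ) := Measure.infinitePi fun _ : J => ν

/-- the flux into a shell -/
noncomputable def Aw (K : Matrix ι ι ℂ) (z : ℂ) (e : ι → J) (u : ℝ → ℂ) (a : ι) (lay : ι → ℕ) (L : ℕ)
    (B : Finset J) (r : ℕ) (ξ : J → ℝ) : ℝ :=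
  ∑ x with (L * r ≤ lay x ∧ lay x < L * (r + 1)), ‖ph K z e u a B ξ x‖ ^ 2

section

variable {ν : Measure ℝ} {u : ℝ → ℂ} (hu : Ph ν u) {K : Matrix ι ι ℂ} (hK : Con K) {z : ℂ} (hz : ‖z‖ < 1)
  {e : ι → J} (he : Function.Injective e) (a : ι) {lay : ι → ℕ} {L : ℕ}
  (hlay : ∀ x y, K x y ≠ 0 → lay x ≤ lay y + L) {R : ℕ}
  (hiso : ∀ v : ι → ℂ, (∀ x, L * R ≤ lay x → v x = 0) →
    ∑ x, ‖K.mulVec v x‖ ^ 2 = ∑ x, ‖v x‖ ^ 2)

include hu hK hz

theorem Aw_nonneg (B : Finset J) (r : ℕ) (ξ : J → ℝ) : 0 ≤ Aw K z e u a lay L B r ξ :=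
  Finset.sum_nonneg fun _ _ => sq_nonneg _

include he

theorem Aw_le {r : ℕ} (ha : lay a < L * r) (ξ : J → ℝ) : Aw K z e u a lay L (Bl e lay L r) r ξ ≤ 1 := by
  have h := tot_le hu hK hz (e := e) a (Bl e lay L r) ξ
  have h3 : 0 ≤ (1 - ‖z‖ ^ 2) * ∑ x with (x ≠ a ∧ e x ∈ Bl e lay L r),
      ‖ph K z e u a (Bl e lay L r) ξ x‖ ^ 2 :=
    mul_nonneg (z2_pos hu hK hz).le (Finset.sum_nonneg fun _ _ => sq_nonneg _)
  have h4 : Aw K z e u a lay L (Bl e lay L r) r ξ ≤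
      ∑ x with (x ≠ a ∧ e x ∉ Bl e lay L r), ‖ph K z e u a (Bl e lay L r) ξ x‖ ^ 2 := by
    unfold Aw
    refine Finset.sum_le_sum_of_subset_of_nonneg (fun x hx => ?_) fun _ _ _ => sq_nonneg _
    have h5 := (Finset.mem_filter.1 hx).2
    rw [Finset.mem_filter]
    refine ⟨Finset.mem_univ _, fun h => ?_, fun h => ?_⟩
    · subst h; omega
    · have := (mem_Bl he lay L r x).1 h
      omega
  nlinarith [sq_nonneg ‖ph K z e u a (Bl e lay L r) ξ a‖]

include hlay hiso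

theorem flux {r : ℕ} (hr : r ≤ R) (ha : lay a < L * r) (ξ : J → ℝ) :
    Aw K z e u a lay L (Bl e lay L r) r ξ = 1 - ‖ph K z e u a (Bl e lay L r) ξ a‖ ^ 2 -
      (1 - ‖z‖ ^ 2) * ∑ x with (x ≠ a ∧ e x ∈ Bl e lay L r), ‖ph K z e u a (Bl e lay L r) ξ x‖ ^ 2 := by
  set B := Bl e lay L r with hB
  have hζ := zt_le hu (e := e) a B ξ
  have hψ : ∀ x, L * r ≤ lay x → (AA K z (zt e u a B ξ))⁻¹ x a = 0 := by
    intro x hx
    rw [psi_eq hK hz hζ a x, if_neg (by rintro rfl; omega)]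
    have : zt e u a B ξ x = 0 := by
      unfold zt
      rw [if_neg (by rintro rfl; omega), if_neg]
      intro h
      have := (mem_Bl he lay L r x).1 h
      omega
    rw [this]
    ring
  have h1 := cons_eq hK hz hζ a (zt_a hu a B ξ) (hiso _ fun x hx => hψ x
    ((Nat.mul_le_mul_left L hr).trans hx))
  have h2 := abs_tot hu hK hz (e := e) a B ξ
  have h3 : ∑ x, (1 - ‖z‖ ^ 2 * ‖zt e u a B ξ x‖ ^ 2) * ‖ph K z e u a B ξ x‖ ^ 2 = 1 := h1
  rw [h3] at h2
  have h4 : ∑ x with (x ≠ a ∧ e x ∉ B), ‖ph K z e u a B ξ x‖ ^ 2 = Aw K z e u a lay L B r ξ := by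
    unfold Aw
    symm
    refine Finset.sum_subset (fun x hx => ?_) fun x hx hx2 => ?_
    · have h5 := (Finset.mem_filter.1 hx).2
      rw [Finset.mem_filter]
      refine ⟨Finset.mem_univ _, fun h => ?_, fun h => ?_⟩
      · subst h; omega
      · have := (mem_Bl he lay L r x).1 h
        omega
    · have h5 := (Finset.mem_filter.1 hx).2
      have h6 : ¬ (lay x < L * r) := fun h => h5.2 ((mem_Bl he lay L r x).2 h)
      have h7 : L * (r + 1) ≤ lay x := by
        by_contra hcon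
        exact hx2 (by simp only [Finset.mem_filter, Finset.mem_univ, true_and]; omega)
      have h8 : ph K z e u a B ξ x = 0 := by
        unfold ph QQ
        rw [Matrix.mul_apply]
        refine Finset.sum_eq_zero fun y _ => ?_
        by_cases hy : L * r ≤ lay y
        · rw [hψ y hy, mul_zero]
        · have : K x y = 0 := by
            by_contra hne
            have := hlay x y hne
            rw [mul_add, mul_one] at h7
            omega
          rw [this, zero_mul]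
      rw [h8]
      simp
  rw [h4] at h2
  linarith

end

section

variable {ν : Measure ℝ} {u : ℝ → ℂ} (hu : Ph ν u) {K : Matrix ι ι ℂ} (hK : Con K) {z : ℂ} (hz : ‖z‖ < 1)
  {e : ι → J} (he : Function.Injective e) (a : ι) {lay : ι → ℕ} {L : ℕ}
  (hlay : ∀ x y, K x y ≠ 0 → lay x ≤ lay y + L) {R : ℕ}
  (hiso : ∀ v : ι → ℂ, (∀ x, L * R ≤ lay x → v x = 0) →
    ∑ x, ‖K.mulVec v x‖ ^ 2 = ∑ x, ‖v x‖ ^ 2)

include hu hK hz he

theorem int_ph (B : Finset J) (x : ι) : Integrable (fun ξ => ‖ph K z e u a B ξ x‖ ^ 2) (PP ν J) := by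
  have := hu.prob
  refine Integrable.of_bound (C := 1 / (1 - ‖z‖ ^ 2))
    ((meas_ph hu hK hz he a B x).norm.pow_const 2).aestronglyMeasurable
    (Filter.Eventually.of_forall fun ξ => ?_)
  rw [Real.norm_of_nonneg (sq_nonneg _)]
  exact ph_sq_le hu hK hz a B ξ x

theorem mean_ph {B : Finset J} {x : ι} (hx : x ≠ a) (hxB : e x ∈ B) :
    ∫ ξ, ‖ph K z e u a B ξ x‖ ^ 2 ∂(PP ν J) ≤ 1 := by
  have hpr := hu.prob
  have hres := resample ν (f := fun ξ : J → ℝ => ‖ph K z e u a B ξ x‖ ^ 2)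
    ((meas_ph hu hK hz he a B x).norm.pow_const 2) (M := 1 / (1 - ‖z‖ ^ 2)) (fun ξ => by
      rw [Real.norm_of_nonneg (sq_nonneg _)]
      exact ph_sq_le hu hK hz a B ξ x) (e x)
  have hB : insert (e x) (B.erase (e x)) = B := Finset.insert_erase hxB
  have h3 : ∫ ξ, ∫ s, ‖ph K z e u a B (Function.update ξ (e x) s) x‖ ^ 2 ∂ν ∂(PP ν J) ≤
      ∫ ξ, (1 : ℝ) ∂(PP ν J) := by
    refine integral_mono_of_nonneg (Filter.Eventually.of_forall fun _ =>
      integral_nonneg fun _ => sq_nonneg _) (integrable_const _)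
      (Filter.Eventually.of_forall fun ξ => ?_)
    have := one_ph hu hK hz he a (B := B.erase (e x)) hx (Finset.notMem_erase _ _) ξ
    rw [hB] at this
    exact this
  simp only [integral_const, probReal_univ, one_smul] at h3
  exact hres.trans_le h3

theorem int_Aw (B : Finset J) (r : ℕ) : Integrable (Aw K z e u a lay L B r) (PP ν J) := by
  unfold Aw
  exact integrable_finsetSum _ fun x _ => int_ph hu hK hz he a B x

include hlay hiso

/-- mean flux into a shell -/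
theorem mean_Aw {r : ℕ} (hr : r ≤ R) (ha : lay a < L * r) {C : ℝ}
    (hC : ((Finset.univ.filter fun x => lay x < L * R).card : ℝ) ≤ C) :
    1 - ∫ ξ, ‖ph K z e u a (Bl e lay L r) ξ a‖ ^ 2 ∂(PP ν J) - (1 - ‖z‖ ^ 2) * C ≤
      ∫ ξ, Aw K z e u a lay L (Bl e lay L r) r ξ ∂(PP ν J) := by
  have hpr := hu.prob
  simp only [flux hu hK hz he a hlay hiso hr ha]
  have i1 := int_ph hu hK hz he a (Bl e lay L r) a
  have i2 : Integrable (fun ξ => ∑ x with (x ≠ a ∧ e x ∈ Bl e lay L r),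
      ‖ph K z e u a (Bl e lay L r) ξ x‖ ^ 2) (PP ν J) :=
    integrable_finsetSum _ fun x _ => int_ph hu hK hz he a _ x
  have i0 : Integrable (fun ξ => 1 - ‖ph K z e u a (Bl e lay L r) ξ a‖ ^ 2) (PP ν J) :=
    (integrable_const _).sub i1
  rw [integral_sub i0 (i2.const_mul _), integral_sub (integrable_const _) i1,
    integral_const_mul]
  simp only [integral_const, probReal_univ, one_smul]
  have h1 : ∫ ξ, ∑ x with (x ≠ a ∧ e x ∈ Bl e lay L r),
      ‖ph K z e u a (Bl e lay L r) ξ x‖ ^ 2 ∂(PP ν J) ≤ C := by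
    rw [integral_finsetSum _ fun x _ => int_ph hu hK hz he a _ x]
    refine (Finset.sum_le_sum fun x hx => mean_ph hu hK hz he a
      (Finset.mem_filter.1 hx).2.1 (Finset.mem_filter.1 hx).2.2).trans ?_
    rw [Finset.sum_const, nsmul_eq_mul, mul_one]
    refine le_trans ?_ hC
    have : (Finset.univ.filter fun x => x ≠ a ∧ e x ∈ Bl e lay L r).card ≤
        (Finset.univ.filter fun x => lay x < L * R).card := by
      refine Finset.card_le_card fun x hx => ?_
      have h2 := (Finset.mem_filter.1 hx).2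
      have h3 := (mem_Bl he lay L r x).1 h2.2
      have h4 := Nat.mul_le_mul_left L hr
      simp only [Finset.mem_filter, Finset.mem_univ, true_and]
      omega
    exact_mod_cast this
  have h2 := z2_pos hu hK hz
  nlinarith [mul_le_mul_of_nonneg_left h1 h2.le]

omit hlay hiso in
theorem step {r : ℕ} (ha : lay a < L * r) {c : ℝ} (hc : 0 < c)
    (hcard : ((Finset.univ.filter fun x => L * r ≤ lay x ∧ lay x < L * (r + 1)).card : ℝ) ≤ c)
    {b : ℝ} (hb0 : 0 ≤ b) (hb : b ≤ ∫ ξ, Aw K z e u a lay L (Bl e lay L r) r ξ ∂(PP ν J)) :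
    ∫ ξ, ‖ph K z e u a (Bl e lay L r) ξ a‖ ^ 2 ∂(PP ν J) + ‖z‖ ^ 2 / 4 * (b ^ 2 / c) ≤
      ∫ ξ, ‖ph K z e u a (Bl e lay L (r + 1)) ξ a‖ ^ 2 ∂(PP ν J) := by
  have hpr := hu.prob
  have hM := mart hu hK hz he a
  have h1 := hM.bessel (Sl e lay L r) (disj he lay L r)
  rw [← Bl_succ] at h1
  refine le_trans ?_ h1
  gcongr
  set B := Bl e lay L r with hBdef
  have h2 : ∑ j ∈ Sl e lay L r, ∫ ξ, ‖ph K z e u a (insert j B) ξ a - ph K z e u a B ξ a‖ ^ 2 ∂(PP ν J) =
      ∑ y with (L * r ≤ lay y ∧ lay y < L * (r + 1)),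
        ∫ ξ, ‖ph K z e u a (insert (e y) B) ξ a - ph K z e u a B ξ a‖ ^ 2 ∂(PP ν J) := by
    unfold Sl
    rw [Finset.sum_image fun x _ y _ h => he h]
  rw [h2]
  have hnot : ∀ y, (L * r ≤ lay y ∧ lay y < L * (r + 1)) → y ≠ a ∧ e y ∉ B := by
    intro y hy
    refine ⟨?_, fun h => ?_⟩
    · rintro rfl; omega
    · have := (mem_Bl he lay L r y).1 h
      omega
  have hb4 : ∀ y, (L * r ≤ lay y ∧ lay y < L * (r + 1)) → ∀ ξ, ‖ph K z e u a B ξ y‖ ^ 2 ≤ 1 := by
    intro y hy ξ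
    refine le_trans ?_ (Aw_le hu hK hz he a (lay := lay) ha ξ)
    unfold Aw
    exact Finset.single_le_sum (f := fun x => ‖ph K z e u a B ξ x‖ ^ 2)
      (fun x _ => sq_nonneg _) (by simp [hy])
  have hint4 : ∀ y ∈ (Finset.univ.filter fun y => L * r ≤ lay y ∧ lay y < L * (r + 1)),
      Integrable (fun ξ => (‖ph K z e u a B ξ y‖ ^ 2) ^ 2) (PP ν J) := by
    intro y hy
    refine Integrable.of_bound (C := 1 ^ 2)
      (((meas_ph hu hK hz he a B y).norm.pow_const 2).pow_const 2).aestronglyMeasurable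
      (Filter.Eventually.of_forall fun ξ => ?_)
    rw [Real.norm_of_nonneg (sq_nonneg _)]
    exact pow_le_pow_left₀ (sq_nonneg _) (hb4 y (Finset.mem_filter.1 hy).2 ξ) 2
  have h3 : ∑ y with (L * r ≤ lay y ∧ lay y < L * (r + 1)),
        ‖z‖ ^ 2 / 4 * ∫ ξ, (‖ph K z e u a B ξ y‖ ^ 2) ^ 2 ∂(PP ν J) ≤
      ∑ y with (L * r ≤ lay y ∧ lay y < L * (r + 1)),
        ∫ ξ, ‖ph K z e u a (insert (e y) B) ξ a - ph K z e u a B ξ a‖ ^ 2 ∂(PP ν J) := by
    refine Finset.sum_le_sum fun y hy => ?_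
    rw [← integral_const_mul]
    refine integral_mono ((hint4 y hy).const_mul _) ?_ fun ξ => ?_
    · refine Integrable.of_bound (C := 2 ^ 2)
        (((hM.meas _).sub (hM.meas _)).norm.pow_const 2).aestronglyMeasurable
        (Filter.Eventually.of_forall fun ξ => ?_)
      rw [Real.norm_of_nonneg (sq_nonneg _)]
      refine pow_le_pow_left₀ (norm_nonneg _) ?_ 2
      refine (norm_sub_le _ _).trans ?_
      have := F_le hu hK hz (e := e) a B ξ
      have := F_le hu hK hz (e := e) a (insert (e y) B) ξ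
      linarith
    · have h5 := hnot y (Finset.mem_filter.1 hy).2
      have h6 := pow_le_pow_left₀ (by positivity) (diff_ge hu hK hz he a h5.1 h5.2 ξ) 2
      refine le_trans (le_of_eq ?_) h6
      ring
  refine le_trans ?_ h3
  rw [← Finset.mul_sum]
  refine mul_le_mul_of_nonneg_left ?_ (by positivity)
  rw [← integral_finsetSum _ hint4]
  have h5 : ∀ ξ, (2 * b * Aw K z e u a lay L B r ξ - b ^ 2) / c ≤
      ∑ y with (L * r ≤ lay y ∧ lay y < L * (r + 1)), (‖ph K z e u a B ξ y‖ ^ 2) ^ 2 := by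
    intro ξ
    rw [div_le_iff₀ hc]
    have h6 := sq_sum_le_card_mul_sum_sq (s := Finset.univ.filter fun y => L * r ≤ lay y ∧ lay y < L * (r + 1))
      (f := fun y => ‖ph K z e u a B ξ y‖ ^ 2)
    have h7 : 0 ≤ ∑ y with (L * r ≤ lay y ∧ lay y < L * (r + 1)), (‖ph K z e u a B ξ y‖ ^ 2) ^ 2 :=
      Finset.sum_nonneg fun _ _ => sq_nonneg _
    have h8 : (Aw K z e u a lay L B r ξ) ^ 2 ≤
      c * ∑ y with (L * r ≤ lay y ∧ lay y < L * (r + 1)), (‖ph K z e u a B ξ y‖ ^ 2) ^ 2 := by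
      unfold Aw
      exact h6.trans (mul_le_mul_of_nonneg_right hcard h7)
    nlinarith [sq_nonneg (Aw K z e u a lay L B r ξ - b)]
  have hintA := int_Aw hu hK hz he a (lay := lay) (L := L) B r
  have h9 : ∫ ξ, (2 * b * Aw K z e u a lay L B r ξ - b ^ 2) / c ∂(PP ν J) ≤
      ∫ ξ, ∑ y with (L * r ≤ lay y ∧ lay y < L * (r + 1)), (‖ph K z e u a B ξ y‖ ^ 2) ^ 2 ∂(PP ν J) := by
    refine integral_mono ?_ (integrable_finsetSum _ hint4) h5
    exact ((hintA.const_mul _).sub (integrable_const _)).div_const _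
  refine le_trans ?_ h9
  rw [integral_div, integral_sub (hintA.const_mul _) (integrable_const _), integral_const_mul,
    integral_const]
  simp only [probReal_univ, one_smul]
  gcongr
  nlinarith

/-- the telescoping sum -/
theorem tele {r0 : ℕ} (ha : lay a < L * r0)
    (hcard : ∀ r : ℕ, ((Finset.univ.filter fun x => L * r ≤ lay x ∧ lay x < L * (r + 1)).card : ℝ) ≤
      8 * L ^ 2 * (r + 1)) (hL : 0 < L) {U : Finset J} (hU : ∀ x, e x ∈ U) {β C : ℝ} (hβ : 0 ≤ β)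
    (hC : ((Finset.univ.filter fun x => lay x < L * R).card : ℝ) ≤ C)
    (hb : β ≤ 1 - ∫ ξ, ‖ph K z e u a U ξ a‖ ^ 2 ∂(PP ν J) - (1 - ‖z‖ ^ 2) * C) :
    β ^ 2 * (‖z‖ ^ 2 * ∑ r ∈ Finset.Ico r0 R, 1 / (32 * (L : ℝ) ^ 2 * (r + 1))) ≤ 1 := by
  have hpr := hu.prob
  have hM := mart hu hK hz he a
  have hUB : ∀ r, Bl e lay L r ⊆ U := by
    intro r j hj
    unfold Bl at hj
    rw [Finset.mem_image] at hj
    obtain ⟨x, _, rfl⟩ := hj
    exact hU x
  have hL0 : (0 : ℝ) < L := by exact_mod_cast hL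
  have key : ∀ R' : ℕ, r0 ≤ R' → R' ≤ R →
      β ^ 2 * (‖z‖ ^ 2 * ∑ r ∈ Finset.Ico r0 R', 1 / (32 * (L : ℝ) ^ 2 * (r + 1))) ≤
        ∫ ξ, ‖ph K z e u a (Bl e lay L R') ξ a‖ ^ 2 ∂(PP ν J) := by
    intro R' hR'
    induction R', hR' using Nat.le_induction with
    | base =>
      intro _
      rw [Finset.Ico_self, Finset.sum_empty, mul_zero, mul_zero]
      exact integral_nonneg fun _ => sq_nonneg _
    | succ n hn ih =>
      intro hnR
      have h1 := ih (by omega)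
      rw [Finset.sum_Ico_succ_top hn, mul_add, mul_add]
      have han : lay a < L * n := lt_of_lt_of_le ha (Nat.mul_le_mul_left L hn)
      have h3 := hM.mono (hUB n)
      have h5 := mean_Aw hu hK hz he a hlay hiso (r := n) (by omega) han hC
      have h2 := step hu hK hz he a (r := n) han (c := 8 * L ^ 2 * (n + 1)) (by positivity)
        (hcard n) hβ (by linarith)
      have h4 : ‖z‖ ^ 2 / 4 * (β ^ 2 / (8 * (L : ℝ) ^ 2 * ((n : ℝ) + 1))) =
          β ^ 2 * (‖z‖ ^ 2 * (1 / (32 * (L : ℝ) ^ 2 * ((n : ℝ) + 1)))) := by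
        field_simp
        ring
      rw [h4] at h2
      linarith
  rcases le_or_gt r0 R with h | h
  · refine (key R h le_rfl).trans ?_
    have h1 : ∫ ξ, ‖ph K z e u a (Bl e lay L R) ξ a‖ ^ 2 ∂(PP ν J) ≤ ∫ ξ, (1 : ℝ) ∂(PP ν J) := by
      refine integral_mono (int_ph hu hK hz he a _ a) (integrable_const _) fun ξ => ?_
      exact pow_le_one₀ (norm_nonneg _) (F_le hu hK hz (e := e) a _ ξ)
    simpa using h1
  · rw [Finset.Ico_eq_empty (by omega), Finset.sum_empty, mul_zero, mul_zero]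
    exact zero_le_one

/-- the return amplitude is almost of modulus one -/
theorem ret {r0 : ℕ} (ha : lay a < L * r0)
    (hcard : ∀ r : ℕ, ((Finset.univ.filter fun x => L * r ≤ lay x ∧ lay x < L * (r + 1)).card : ℝ) ≤
      8 * L ^ 2 * (r + 1)) (hL : 0 < L) {U : Finset J} (hU : ∀ x, e x ∈ U) {C S : ℝ}
    (hC : ((Finset.univ.filter fun x => lay x < L * R).card : ℝ) ≤ C) (hz2 : 1 / 4 ≤ ‖z‖ ^ 2)
    (hS : 0 < S) (hSm : S ≤ ∑ r ∈ Finset.Ico r0 R, 1 / (32 * (L : ℝ) ^ 2 * (r + 1))) :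
    1 - ∫ ξ, ‖ph K z e u a U ξ a‖ ^ 2 ∂(PP ν J) ≤ (1 - ‖z‖ ^ 2) * C + 2 / Real.sqrt S := by
  by_cases hcase : 1 - ∫ ξ, ‖ph K z e u a U ξ a‖ ^ 2 ∂(PP ν J) - (1 - ‖z‖ ^ 2) * C ≤ 0
  · have : 0 ≤ 2 / Real.sqrt S := by positivity
    linarith
  · set β := 1 - ∫ ξ, ‖ph K z e u a U ξ a‖ ^ 2 ∂(PP ν J) - (1 - ‖z‖ ^ 2) * C with hβdef
    have hβ : 0 ≤ β := (not_le.1 hcase).le
    have h2 := tele hu hK hz he a hlay hiso ha hcard hL hU hβ hC le_rfl
    have h4 : β ^ 2 * (1 / 4 * S) ≤ 1 := by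
      refine le_trans (mul_le_mul_of_nonneg_left ?_ (sq_nonneg _)) h2
      exact mul_le_mul hz2 hSm hS.le (sq_nonneg _)
    have h5 : β ≤ 2 / Real.sqrt S := by
      rw [le_div_iff₀ (Real.sqrt_pos.2 hS)]
      have h6 : (β * Real.sqrt S) ^ 2 ≤ 4 := by
        rw [mul_pow, Real.sq_sqrt hS.le]
        linarith
      nlinarith [mul_nonneg hβ (Real.sqrt_nonneg S)]
    linarith

end

end Pool.Agent.L0h56.KA
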